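import Pool.Agent.QF.Stm
import Pool.Agent.QF.C7
import Pool.Agent.QD.Asm

/-!
# The main step of the project QF (MP_bbdce3_al)
-/

set_option autoImplicit false

namespace Pool.Agent.QF

open Pool.Agent.QIS Pool.Agent.QD MulAction

theorem tfs_of_le {G : Type} [Group G] {A P : Subgroup G} (h : P ≤ A) (hA : QE.TFs A) :
    QE.TFs P := fun g hg => hA g (h hg)

/-- the class is closed under subgroups -/
theorem ntype_of_inj {A B : Type} [Group A] [Group B] {k : Type} [Field k] (j : B →* A)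
    (hj : Function.Injective j) (hA : NType k A) : NType k B := by
  obtain ⟨R, hR, ι, hN, hι⟩ := hA
  refine ⟨R, hR, ι.comp (MonoidAlgebra.mapDomainRingHom k j), hN, ?_⟩
  exact hι.comp (MonoidAlgebra.mapDomain_injective hj)

/-- the crossed homomorphisms that vanish on `Q` -/
def KK {A : Type} [Group A] {k R : Type} [Field k] [Ring R] (ι : MonoidAlgebra k A →+* R)
    (Q : Subgroup A) : Submodule R (DerR ι (⊤ : Subgroup A)) where
  carrier := {d | ∀ x ∈ Q, d.1 ⟨x, Subgroup.mem_top x⟩ = 0}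
  zero_mem' := fun _ _ => rfl
  add_mem' := by
    intro a b ha hb x hx
    show a.1 ⟨x, _⟩ + b.1 ⟨x, _⟩ = 0
    rw [ha x hx, hb x hx, add_zero]
  smul_mem' := by
    intro m a ha x hx
    show m * a.1 ⟨x, _⟩ = 0
    rw [ha x hx, mul_zero]

/-- the main step -/
theorem sm1 (nt : SNT) (b3 : SB3) (b4 : SB4) (b9 : SB9) (b11 : SB11) (b12 : SB12)
    (c3 : SC3) (c4 : SC4) (c7 : SC7) (c8 : SC8) (c17 : SC17) : SM1 := by
  intro G _ S hS hSg hone k _ hpfs P₀ HH₀ htf₀ hN₀ hP₀ hfp₀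
  have hN₀' := hN₀
  obtain ⟨R, hR, ι, hNR, hι⟩ := hN₀'
  have hfg₀ : (⊤ : Subgroup P₀).FG := by
    rw [← Group.fg_def, Group.fg_iff_subgroup_fg]
    exact b12 G S hS hSg P₀ HH₀ hP₀
  have hno : IsNoetherian R (DerR ι (⊤ : Subgroup P₀)) := C7_noeth ι hNR hfg₀
  have key : ∀ (K : Submodule R (DerR ι (⊤ : Subgroup P₀))) (P : Subgroup G)
      (HH : Set (Set G)), P ≤ P₀ → K = KK ι (P.comap P₀.subtype) →
      (∀ d ∈ DerR ι (P.comap P₀.subtype), ∃ d₀ : DerR ι (⊤ : Subgroup P₀),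
        ∀ (x : P₀) (hx : x ∈ P.comap P₀.subtype), d₀.1 ⟨x, Subgroup.mem_top x⟩ = d ⟨x, hx⟩) →
      Piece S P HH → ¬ Group.IsFinitelyPresented P →
      ∃ (P' : Subgroup G) (HH' : Set (Set G)),
        ¬ Group.IsFinitelyPresented P' ∧ Piece S P' HH' ∧ ∀ H ∈ HH', Uncr S H := by
    intro K
    induction K using WellFoundedGT.induction with
    | _ K ih =>
      intro P HH hPA hK hsurj hP hfp
      by_cases hall : ∀ H ∈ HH, Uncr S H
      · exact ⟨P, HH, hfp, hP, hall⟩
      push Not at hall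
      obtain ⟨H₀, hH₀, hcr⟩ := hall
      have hnt : NType k P := ntype_of_inj (Subgroup.inclusion hPA)
        (Subgroup.inclusion_injective hPA) hN₀
      have hst : QE.StP S k P := nt G S hS hSg k P hnt
      have htf : QE.TFs P := tfs_of_le hPA htf₀
      obtain ⟨s₁, hs₁⟩ := b3 G S hS hSg hone k hpfs P HH hP H₀ hH₀
      obtain ⟨m₁, hm₁⟩ := hs₁ (max s₁ 1) (le_max_left _ _)
      obtain ⟨m₂, hm₂⟩ := b4 G S hS hSg hone k hpfs P hst HH hP H₀ hH₀ (max s₁ 1)
        (le_max_right _ _)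
      obtain ⟨n₁, hn₁⟩ := hm₁ (max m₁ m₂) (le_max_left _ _)
      obtain ⟨n₂, hn₂⟩ := hm₂ (max m₁ m₂) (le_max_right _ _)
      have hbad : Bad S k HH (max s₁ 1) (max m₁ m₂) (max n₁ n₂) H₀ := by
        by_contra hb
        exact hcr (hn₁ _ (le_max_left _ _) hb)
      obtain ⟨r, E, hE⟩ := hn₂ _ (le_max_right _ _) hbad
      obtain ⟨r', A', hA', hnest, hfin⟩ := b9 G S hS hSg hone k hpfs P htf HH hP _ _ _ hE
      obtain ⟨t⟩ := b11 G S hS hSg P htf HH hP _ _ _ hA' hnest hfin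
      have hu : ∃ u : t.E.V, ¬ Group.IsFinitelyPresented (stabilizer P u) := by
        by_contra hcon
        push Not at hcon
        refine hfp (c8 P t.E ?_ (hcon _) (hcon _))
        rw [t.triv]
        exact Subgroup.FG.bot
      obtain ⟨u, hu⟩ := hu
      have : Nonempty t.E.V := ⟨u⟩
      obtain ⟨π, hπ⟩ := c3 G P t.E.V
      obtain ⟨h1, h2, h3, h4, h6⟩ := c4 G S hS hSg P HH hP t π hπ u
      have hpiece : Piece S (Sb t u) (HHu t π u) :=
        ⟨h1, h2, c17 G S hS hSg hone P htf HH hP t π hπ u hu, h3, h4, h6⟩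
      have hle' : Sb t u ≤ P := by
        rintro _ ⟨p, -, rfl⟩
        exact p.2
      have hle : Sb t u ≤ P₀ := hle'.trans hPA
      obtain ⟨hres, d', hd', hd0, hdne⟩ := c7 G P₀ P₀.subtype P₀.subtype_injective k R ι hι P
        (by rw [Subgroup.range_subtype]; exact hPA) t.E t.triv u
      have hcomp : (Sb t u).comap P₀.subtype ≤ P.comap P₀.subtype :=
        Subgroup.comap_mono hle'
      -- the new submodule is larger
      have hlt : K < KK ι ((Sb t u).comap P₀.subtype) := by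
        rw [hK]
        refine lt_of_le_of_ne (fun d hd x hx => hd x (hcomp hx)) ?_
        intro heq
        obtain ⟨d₀, hd₀⟩ := hsurj d' hd'
        have h5 : d₀ ∈ KK ι ((Sb t u).comap P₀.subtype) := by
          intro x hx
          rw [hd₀ x (hcomp hx)]
          exact hd0 x (hcomp hx) hx
        rw [← heq] at h5
        refine hdne (funext ?_)
        rintro ⟨x, hx⟩
        rw [← hd₀ x hx]
        exact h5 x hx
      refine ih _ hlt (Sb t u) (HHu t π u) hle rfl ?_ hpiece fun hc => hu ?_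
      · intro d hd
        obtain ⟨d1, hd1, hd1'⟩ := hres d hd
        obtain ⟨d₀, hd₀⟩ := hsurj d1 hd1
        refine ⟨d₀, fun x hx => ?_⟩
        rw [hd₀ x (hcomp hx)]
        exact hd1' x hx (hcomp hx)
      · exact fp_of_equiv ((stabilizer P u).equivMapOfInjective P.subtype
          (Subgroup.subtype_injective P)).symm hc
  refine key _ P₀ HH₀ le_rfl rfl ?_ hP₀ hfp₀
  intro d hd
  have hall : ∀ x : P₀, x ∈ P₀.comap P₀.subtype := fun x => x.2
  refine ⟨⟨fun x => d ⟨x.1, hall x.1⟩, fun g h => ?_⟩, fun x hx => rfl⟩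
  exact hd ⟨g.1, hall g.1⟩ ⟨h.1, hall h.1⟩

end Pool.Agent.QF
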