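import Pool.Agent.QF.Stm
import Pool.Agent.QD.NLine
import Pool.Agent.H67.Q.Words

/-!
# The ends of the line of a half-space (row QI-B0b of the project QD, MP_bbdce3_al)
-/

set_option autoImplicit false

namespace Pool.Agent.QF

open Pool.Agent.QIS Pool.Agent.QD

/-! ### predicates on the integers -/

private theorem b0b_ends {q : ℤ → Prop} (h : {n | ¬ (q n ↔ q (n + 1))}.Finite) :
    ∃ (A B : Prop) (N : ℤ), (∀ i, N ≤ i → (q i ↔ A)) ∧ ∀ i, N ≤ i → (q (-i) ↔ B) := by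
  obtain ⟨A, N1, h1⟩ : ∃ (A : Prop) (N : ℤ), ∀ i, N ≤ i → (q i ↔ A) := by
    rcases pz_top h with ⟨M, hM⟩ | ⟨M, hM⟩
    · exact ⟨True, M, fun i hi => ⟨fun _ => trivial, fun _ => hM i hi⟩⟩
    · exact ⟨False, M, fun i hi => ⟨fun h => hM i hi h, False.elim⟩⟩
  obtain ⟨B, N2, h2⟩ : ∃ (B : Prop) (N : ℤ), ∀ i, i ≤ N → (q i ↔ B) := by
    rcases pz_bot h with ⟨M, hM⟩ | ⟨M, hM⟩
    · exact ⟨True, M, fun i hi => ⟨fun _ => trivial, fun _ => hM i hi⟩⟩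
    · exact ⟨False, M, fun i hi => ⟨fun h => hM i hi h, False.elim⟩⟩
  refine ⟨A, B, max N1 (-N2), fun i hi => h1 i ((le_max_left _ _).trans hi), fun i hi => ?_⟩
  have h3 := (le_max_right N1 (-N2)).trans hi
  exact h2 _ (by omega)

private theorem b0b_big (a b c : ℤ) : ∃ i : ℤ, 0 ≤ i ∧ a ≤ i ∧ b ≤ i ∧ c ≤ i :=
  ⟨max 0 (max a (max b c)), le_max_left _ _, (le_max_left _ _).trans (le_max_right _ _),
    ((le_max_left _ _).trans (le_max_right _ _)).trans (le_max_right _ _),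
    ((le_max_right _ _).trans (le_max_right _ _)).trans (le_max_right _ _)⟩

private theorem b0b_S {q : ℤ → Prop} {A B : Prop} {N : ℤ} (h1 : ∀ i, N ≤ i → (q i ↔ A))
    (h2 : ∀ i, N ≤ i → (q (-i) ↔ B)) :
    (((∃ i₀ : ℤ, ∀ i, i₀ ≤ i → q i) ∧ ∃ i₀ : ℤ, ∀ i, i ≤ i₀ → ¬ q i) ∨
      ((∃ i₀ : ℤ, ∀ i, i₀ ≤ i → ¬ q i) ∧ ∃ i₀ : ℤ, ∀ i, i ≤ i₀ → q i)) ↔ ¬ (A ↔ B) := by
  have h2' : ∀ i, i ≤ -N → (q i ↔ B) := fun i hi => by
    have h3 := h2 (-i) (by omega)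
    rwa [neg_neg] at h3
  constructor
  · rintro (⟨⟨a, ha⟩, b, hb⟩ | ⟨⟨a, ha⟩, b, hb⟩) hAB
    · obtain ⟨i, _, i1, i2, i3⟩ := b0b_big a (-b) N
      exact hb (-i) (by omega) ((h2 i i3).2 (hAB.1 ((h1 i i3).1 (ha i i1))))
    · obtain ⟨i, _, i1, i2, i3⟩ := b0b_big a (-b) N
      exact ha i i1 ((h1 i i3).2 (hAB.2 ((h2 i i3).1 (hb (-i) (by omega)))))
  · intro hAB
    by_cases hA : A
    · have hB : ¬ B := fun hB => hAB ⟨fun _ => hB, fun _ => hA⟩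
      exact Or.inl ⟨⟨N, fun i hi => (h1 i hi).2 hA⟩, -N, fun i hi hq => hB ((h2' i hi).1 hq)⟩
    · have hB : B := by
        by_contra hB
        exact hAB ⟨fun h => absurd h hA, fun h => absurd h hB⟩
      exact Or.inr ⟨⟨N, fun i hi hq => hA ((h1 i hi).1 hq)⟩, -N, fun i hi => (h2' i hi).2 hB⟩

private theorem b0b_cmp {q q' : ℤ → Prop} {A B A' B' : Prop} {N N' : ℤ}
    (h1 : ∀ i, N ≤ i → (q i ↔ A)) (h2 : ∀ i, N ≤ i → (q (-i) ↔ B))
    (h1' : ∀ i, N' ≤ i → (q' i ↔ A')) (h2' : ∀ i, N' ≤ i → (q' (-i) ↔ B'))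
    {k l : ℤ} (hk : 1 ≤ k) (hl : l ≠ 0) (hkl : ∀ i, q' (k * i) ↔ q (l * i)) :
    (A ↔ B) ↔ (A' ↔ B') := by
  obtain ⟨i, i0, i1, i2, _⟩ := b0b_big N N' 0
  have hki : N' ≤ k * i := by nlinarith
  have e1 := hkl i
  have e2 := hkl (-i)
  rw [mul_neg, mul_neg] at e2
  have a1 : q' (k * i) ↔ A' := h1' _ hki
  have a2 : q' (-(k * i)) ↔ B' := h2' _ hki
  rcases lt_or_gt_of_ne hl with hl | hl
  · have hli : N ≤ -(l * i) := by nlinarith
    have b1 : q (-(l * i)) ↔ A := h1 _ hli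
    have b2 := h2 _ hli
    rw [neg_neg] at b2
    rw [← a1, ← a2, e1, e2, b1, b2]
    exact ⟨Iff.symm, Iff.symm⟩
  · have hli : N ≤ l * i := by nlinarith
    have b1 : q (l * i) ↔ A := h1 _ hli
    have b2 : q (-(l * i)) ↔ B := h2 _ hli
    rw [← a1, ← a2, e1, e2, b1, b2]

private theorem b0b_cmp2 {q q' : ℤ → Prop} {A B A' B' : Prop} {N N' : ℤ}
    (h1 : ∀ i, N ≤ i → (q i ↔ A)) (h2 : ∀ i, N ≤ i → (q (-i) ↔ B))
    (h1' : ∀ i, N' ≤ i → (q' i ↔ A')) (h2' : ∀ i, N' ≤ i → (q' (-i) ↔ B'))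
    (hf : {i | ¬ (q i ↔ q' i)}.Finite) : (A ↔ A') ∧ (B ↔ B') := by
  obtain ⟨M, hM⟩ := hf.bddAbove
  obtain ⟨m, hm⟩ := hf.bddBelow
  obtain ⟨i, _, i1, i2, i3⟩ := b0b_big N N' (M + 1)
  obtain ⟨j, _, j1, j2, j3⟩ := b0b_big N N' (-m + 1)
  constructor
  · rw [← h1 i i1, ← h1' i i2]
    by_contra hc
    have := hM hc
    omega
  · rw [← h2 j j1, ← h2' j j2]
    by_contra hc
    have := hm (show -j ∈ {i | ¬ (q i ↔ q' i)} from hc)
    omega

/-! ### strips -/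

section

variable {G : Type} [Group G] {S : Set G} {H : Set G} {c : G} {s : ℕ}

private theorem b0b_zinv (h : HS S H c) (i : ℤ) : ∀ x, c ^ i * x ∈ H ↔ x ∈ H := by
  induction i using Int.induction_on with
  | zero =>
    intro x
    rw [zpow_zero, one_mul]
  | succ n ih =>
    intro x
    rw [zpow_add_one, mul_assoc, ih, h.inv]
  | pred n ih =>
    intro x
    rw [zpow_sub_one, mul_assoc, ih]
    have h1 := h.inv (c⁻¹ * x)
    rw [mul_inv_cancel_left] at h1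
    exact h1.symm

private theorem b0b_strip (h : HS S H c) {x : G} (hx : x ∈ Strip S s H) (i : ℤ) :
    c ^ i * x ∈ Strip S s H := by
  obtain ⟨h1, y, h2, h3⟩ := hx
  exact ⟨(b0b_zinv h i x).2 h1, c ^ i * y, fun h4 => h2 ((b0b_zinv h i y).1 h4), by
    rwa [wdist_mul_left]⟩

private theorem b0b_inj (h : HS S H c) : Function.Injective fun i : ℤ => c ^ i := by
  rw [injective_zpow_iff_not_isOfFinOrder, isOfFinOrder_iff_pow_eq_one]
  rintro ⟨n, hn, h1⟩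
  exact h.ord n hn h1

private theorem b0b_near {Y E : Set G} (hE : ∀ R, FinBd S Y R E)
    (hinj : Function.Injective fun i : ℤ => c ^ i) {y z : G} (hy : ∀ i : ℤ, c ^ i * y ∈ Y)
    (hz : ∀ i : ℤ, c ^ i * z ∈ Y) : {i : ℤ | ¬ (c ^ i * y ∈ E ↔ c ^ i * z ∈ E)}.Finite := by
  have h1 : {i : ℤ | c ^ i * y ∈ E ∧ c ^ i * z ∉ E}.Finite := by
    refine ((hE (wdist S y z)).preimage (f := fun i : ℤ => (c ^ i * y, c ^ i * z)) ?_).subset ?_
    · intro a _ b _ hab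
      exact hinj (mul_right_cancel (Prod.mk.inj hab).1)
    · rintro i ⟨h1, h2⟩
      exact ⟨hy i, hz i, (wdist_mul_left _ _ _).le, h1, h2⟩
  have h2 : {i : ℤ | c ^ i * z ∈ E ∧ c ^ i * y ∉ E}.Finite := by
    refine ((hE (wdist S z y)).preimage (f := fun i : ℤ => (c ^ i * z, c ^ i * y)) ?_).subset ?_
    · intro a _ b _ hab
      exact hinj (mul_right_cancel (Prod.mk.inj hab).1)
    · rintro i ⟨h1, h2⟩
      exact ⟨hz i, hy i, (wdist_mul_left _ _ _).le, h1, h2⟩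
  refine (h1.union h2).subset ?_
  intro i hi
  by_cases h3 : c ^ i * y ∈ E
  · exact Or.inl ⟨h3, fun h4 => hi ⟨fun _ => h4, fun _ => h3⟩⟩
  · refine Or.inr ⟨?_, h3⟩
    by_contra h4
    exact hi ⟨fun h => absurd h h3, fun h => absurd h h4⟩

private theorem b0b_comm {c' y : G} (h : HS S H c) (h' : HS S H c') (hy : y ∈ Strip S s H) :
    ∃ k l : ℤ, 1 ≤ k ∧ l ≠ 0 ∧ c' ^ k = c ^ l := by
  obtain ⟨F, hF, hFb⟩ := h.bd s
  have h1 : ∀ j : ℕ, ∃ i : ℤ, c ^ i * (c' ^ (j : ℤ) * y) ∈ F := by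
    intro j
    obtain ⟨h2, z, hz, hd⟩ := b0b_strip h' hy (j : ℤ)
    exact hFb _ z hd h2 hz
  choose i hi using h1
  haveI : Finite F := hF.to_subtype
  have key : ∀ a b : ℕ, a < b → c ^ i a * (c' ^ (a : ℤ) * y) = c ^ i b * (c' ^ (b : ℤ) * y) →
      ∃ k l : ℤ, 1 ≤ k ∧ l ≠ 0 ∧ c' ^ k = c ^ l := by
    intro a b hab he
    have h2 : c ^ i a * c' ^ (a : ℤ) = c ^ i b * c' ^ (b : ℤ) := by
      rw [← mul_assoc, ← mul_assoc] at he
      exact mul_right_cancel he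
    refine ⟨(b : ℤ) - a, i a - i b, by omega, fun h3 => ?_, ?_⟩
    · have h4 : i a = i b := by omega
      rw [h4] at h2
      have h5 := b0b_inj h' (mul_left_cancel h2)
      have h6 : (a : ℤ) = b := h5
      omega
    · rw [zpow_sub c', show i a - i b = -(i b) + i a by ring, zpow_add, zpow_neg]
      rw [mul_inv_eq_iff_eq_mul, mul_assoc, h2, inv_mul_cancel_left]
  obtain ⟨a, b, hab, he⟩ := Finite.exists_ne_map_eq_of_infinite
    (fun j : ℕ => (⟨c ^ i j * (c' ^ (j : ℤ) * y), hi j⟩ : F))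
  have he' : c ^ i a * (c' ^ (a : ℤ) * y) = c ^ i b * (c' ^ (b : ℤ) * y) :=
    congrArg Subtype.val he
  rcases lt_or_gt_of_ne hab with h2 | h2
  · exact key a b h2 he'
  · exact key b a h2 he'.symm

private theorem b0b_inv (h : HS S H c) : HS S H c⁻¹ := by
  have hz : ∀ (i : ℤ) (x : G), c⁻¹ ^ (-i) * x = c ^ i * x := by
    intro i x
    rw [inv_zpow, zpow_neg, inv_inv]
  refine ⟨fun n hn h1 => ?_, fun x => ?_, fun n => ?_, fun F hF => ?_, fun F hF => ?_⟩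
  · rw [inv_pow, inv_eq_one] at h1
    exact h.ord n hn h1
  · have h1 := b0b_zinv h (-1) x
    rwa [zpow_neg, zpow_one] at h1
  · obtain ⟨F, hF, h1⟩ := h.bd n
    refine ⟨F, hF, fun x y hd hx hy => ?_⟩
    obtain ⟨i, hi⟩ := h1 x y hd hx hy
    exact ⟨-i, by rwa [hz]⟩
  · obtain ⟨x, hx, h1⟩ := h.deep F hF
    refine ⟨x, hx, fun i => ?_⟩
    have h2 := h1 (-i)
    rwa [← hz, neg_neg] at h2
  · obtain ⟨x, hx, h1⟩ := h.deep' F hF
    refine ⟨x, hx, fun i => ?_⟩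
    have h2 := h1 (-i)
    rwa [← hz, neg_neg] at h2

private theorem b0b_sub {P : Subgroup G} {HH : Set (Set G)} (hP : Piece S P HH) (hH : H ∈ HH) :
    Strip S s H ⊆ Yr S s HH := by
  rintro x ⟨hx, z, hz, hd⟩ H' hH' hdp
  by_cases he : H' = H
  · subst he
    exact absurd (hdp z hz) (not_lt.2 hd)
  · have h1 : x ∉ H' := fun h2 => Set.disjoint_left.1 (hP.disj H' hH' H hH he) h2 hx
    have h2 := hdp x h1
    rw [wdist_self] at h2
    exact absurd h2 (Nat.not_lt_zero _)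

end

/-- B0b: the ends of the line of a half-space -/
theorem sb0b_all : SB0b := by
  intro G _ S hS hSg P HH hP s E hE H hH c y hc hy
  have hsub : Strip S s H ⊆ Yr S s HH := b0b_sub hP hH
  have hst : ∀ c, HS S H c → ∀ z ∈ Strip S s H, ∀ i : ℤ, c ^ i * z ∈ Yr S s HH :=
    fun c hc z hz i => hsub (b0b_strip hc hz i)
  have hnr : ∀ c, HS S H c → ∀ z ∈ Strip S s H, ∀ z' ∈ Strip S s H,
      {i : ℤ | ¬ (c ^ i * z ∈ E ↔ c ^ i * z' ∈ E)}.Finite :=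
    fun c hc z hz z' hz' => b0b_near hE (b0b_inj hc) (hst c hc z hz) (hst c hc z' hz')
  have hbd : ∀ c, HS S H c → ∀ z ∈ Strip S s H,
      {n : ℤ | ¬ (c ^ n * z ∈ E ↔ c ^ (n + 1) * z ∈ E)}.Finite := by
    intro c hc z hz
    have h1 := b0b_strip hc hz 1
    rw [zpow_one] at h1
    have h2 := hnr c hc z hz (c * z) h1
    refine h2.subset fun n hn => ?_
    have e : c ^ n * (c * z) = c ^ (n + 1) * z := by rw [zpow_add_one, mul_assoc]
    show ¬ (c ^ n * z ∈ E ↔ c ^ n * (c * z) ∈ E)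
    rw [e]
    exact hn
  obtain ⟨A, B, N, hA, hB⟩ := b0b_ends (q := fun i => c ^ i * y ∈ E) (hbd c hc y hy)
  have hS1 : SepAt c y E ↔ ¬ (A ↔ B) := b0b_S hA hB
  have hS2 : Sep S s H E ↔ SepAt c y E := by
    constructor
    · rintro ⟨c', y', hc', hy', h1, h2⟩
      obtain ⟨A', B', N', hA', hB'⟩ := b0b_ends (q := fun i => c' ^ i * y' ∈ E)
        (hbd c' hc' y' hy')
      obtain ⟨A₂, B₂, N₂, hA₂, hB₂⟩ := b0b_ends (q := fun i => c ^ i * y' ∈ E)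
        (hbd c hc y' hy')
      have h3 : ¬ (A' ↔ B') := (b0b_S hA' hB').1 (Or.inl ⟨h1, h2⟩)
      obtain ⟨k, l, hk, hl, hkl⟩ := b0b_comm hc hc' hy'
      have h4 : (A₂ ↔ B₂) ↔ (A' ↔ B') := by
        refine b0b_cmp hA₂ hB₂ hA' hB' hk hl fun i => ?_
        show c' ^ (k * i) * y' ∈ E ↔ c ^ (l * i) * y' ∈ E
        rw [zpow_mul, zpow_mul, hkl]
      obtain ⟨h5, h6⟩ := b0b_cmp2 hA hB hA₂ hB₂ (hnr c hc y hy y' hy')
      rw [hS1, h5, h6, h4]
      exact h3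
    · rintro (⟨h1, h2⟩ | ⟨⟨i₀, h1⟩, j₀, h2⟩)
      · exact ⟨c, y, hc, hy, h1, h2⟩
      · have hz : ∀ i : ℤ, c⁻¹ ^ i * y = c ^ (-i) * y := by
          intro i
          rw [inv_zpow, zpow_neg]
        refine ⟨c⁻¹, y, b0b_inv hc, hy, ⟨-j₀, fun i hi => ?_⟩, -i₀, fun i hi => ?_⟩
        · rw [hz]
          exact h2 _ (by omega)
        · rw [hz]
          exact h1 _ (by omega)
  refine ⟨pz_top (q := fun i => c ^ i * y ∈ E) (hbd c hc y hy),
    pz_bot (q := fun i => c ^ i * y ∈ E) (hbd c hc y hy), hS2, fun hns => ?_⟩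
  have hAB : A ↔ B := by
    by_contra hAB
    exact hns (hS2.2 (hS1.2 hAB))
  obtain ⟨F, hF, hFb⟩ := hc.bd s
  have hfin : ∀ f ∈ Strip S s H, {i : ℤ | ¬ (c ^ i * f ∈ E ↔ A)}.Finite := by
    intro f hf
    refine ((hnr c hc f hf y hy).union (Set.finite_Icc (-N) N)).subset fun i hi => ?_
    by_cases h1 : c ^ i * f ∈ E ↔ c ^ i * y ∈ E
    · right
      by_contra h2
      rw [Set.mem_Icc, not_and_or, not_le, not_le] at h2
      refine hi (h1.trans ?_)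
      rcases h2 with h2 | h2
      · have h3 := hB (-i) (by omega)
        rw [neg_neg] at h3
        exact h3.trans hAB.symm
      · exact hA i h2.le
    · exact Or.inl h1
  have hbad : {z | z ∈ Strip S s H ∧ ¬ (z ∈ E ↔ A)}.Finite := by
    refine ((hF.inter_of_left (Strip S s H)).biUnion fun f hf =>
      (hfin f hf.2).image fun i : ℤ => c ^ i * f).subset ?_
    rintro z ⟨hz, hzE⟩
    obtain ⟨hz1, w, hw, hd⟩ := hz
    obtain ⟨i, hi⟩ := hFb z w hd hz1 hw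
    have hfs : c ^ i * z ∈ Strip S s H := b0b_strip hc ⟨hz1, w, hw, hd⟩ i
    refine Set.mem_biUnion (x := c ^ i * z) ⟨hi, hfs⟩ ⟨-i, ?_, ?_⟩
    · show ¬ (c ^ (-i) * (c ^ i * z) ∈ E ↔ A)
      rw [zpow_neg, inv_mul_cancel_left]
      exact hzE
    · show c ^ (-i) * (c ^ i * z) = z
      rw [zpow_neg, inv_mul_cancel_left]
  by_cases hA' : A
  · right
    refine hbad.subset fun z hz => ⟨hz.1, fun h => hz.2 (h.2 hA')⟩
  · left
    refine hbad.subset fun z hz => ⟨hz.1, fun h => hA' (h.1 hz.2)⟩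

/-- B0b: the ends of the line of a half-space -/
theorem sb0b (b1 : SB1) : SB0b := by
  have _ := b1
  exact sb0b_all

end Pool.Agent.QF
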