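import Pool.Agent.QF.Stm
import Pool.Agent.H67.Q.Words

/-!
# MP_bbdce3_al, project QD, row B0c: finitely many strips are met by a finite boundary
-/

set_option autoImplicit false

namespace Pool.Agent.QF

open Pool.Agent.QIS Pool.Agent.QD MulAction

variable {G : Type} [Group G] {S : Set G}

theorem b0c_zpow {H : Set G} {c : G} (h : ∀ x, c * x ∈ H ↔ x ∈ H) (i : ℤ) :
    ∀ x, c ^ i * x ∈ H ↔ x ∈ H := by
  induction i with
  | zero => intro x; simp
  | succ i ih =>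
    intro x
    rw [zpow_add_one, mul_assoc, ih, h]
  | pred i ih =>
    intro x
    rw [zpow_sub_one, mul_assoc, ih, ← h, mul_inv_cancel_left]

theorem b0c_strip {H : Set G} {c : G} {s : ℕ} (h : ∀ x, c * x ∈ H ↔ x ∈ H) (i : ℤ) {x : G}
    (hx : x ∈ Strip S s H) : c ^ i * x ∈ Strip S s H := by
  obtain ⟨h1, y, h2, h3⟩ := hx
  refine ⟨(b0c_zpow h i x).2 h1, c ^ i * y, fun h4 => h2 ((b0c_zpow h i y).1 h4), ?_⟩
  rw [wdist_mul_left]
  exact h3

theorem b0c_sub {HH : Set (Set G)} {s : ℕ} (hd : ∀ H ∈ HH, ∀ H' ∈ HH, H ≠ H' → Disjoint H H')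
    {H : Set G} (hH : H ∈ HH) : Strip S s H ⊆ Yr S s HH := by
  rintro x ⟨h1, y, h2, h3⟩ H' hH' hx
  by_cases he : H = H'
  · subst he
    exact absurd (hx y h2) (by omega)
  · have h4 : x ∉ H' := fun h => Set.disjoint_left.1 (hd H hH H' hH' he) h1 h
    have h5 := hx x h4
    rw [wdist_self] at h5
    omega

theorem b0c_mono {Y : Set G} {r r' : ℕ} (h : r ≤ r') (hc : CConn S Y r) : CConn S Y r' := by
  intro x hx y hy
  have h0 := hc x hx y hy
  clear hy
  induction h0 with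
  | refl => exact Relation.ReflTransGen.refl
  | tail _ h1 ih => exact Relation.ReflTransGen.tail ih ⟨h1.1, h1.2.1, h1.2.2.trans h⟩

theorem b0c_conn (hSg : Subgroup.closure S = ⊤) {H : Set G} {c : G} (hs : HS S H c) (s : ℕ) :
    ∃ R, CConn S (Strip S s H) R := by
  obtain ⟨F, hF, hFs⟩ := hs.bd s
  obtain ⟨R, hR⟩ : ∃ R : ℕ, ∀ f ∈ F, ∀ f' ∈ F, wdist S f f' ≤ R ∧ wdist S f (c * f) ≤ R := by
    have h1 : ((fun p : G × G => wdist S p.1 p.2) '' (F ×ˢ F)).Finite := (hF.prod hF).image _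
    have h2 : ((fun f : G => wdist S f (c * f)) '' F).Finite := hF.image _
    obtain ⟨R₁, hR₁⟩ := h1.bddAbove
    obtain ⟨R₂, hR₂⟩ := h2.bddAbove
    refine ⟨max R₁ R₂, fun f hf f' hf' => ⟨?_, ?_⟩⟩
    · exact (hR₁ ⟨(f, f'), ⟨hf, hf'⟩, rfl⟩).trans (le_max_left _ _)
    · exact (hR₂ ⟨f, hf, rfl⟩).trans (le_max_right _ _)
  have hsym : ∀ a b, Relation.ReflTransGen
      (fun a b => a ∈ Strip S s H ∧ b ∈ Strip S s H ∧ wdist S a b ≤ R) a b →
      Relation.ReflTransGen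
        (fun a b => a ∈ Strip S s H ∧ b ∈ Strip S s H ∧ wdist S a b ≤ R) b a := by
    intro a b hab
    induction hab with
    | refl => exact Relation.ReflTransGen.refl
    | tail _ h ih =>
      refine Relation.ReflTransGen.head ⟨h.2.1, h.1, ?_⟩ ih
      rw [wdist_comm hSg]
      exact h.2.2
  have hst : ∀ z ∈ Strip S s H, ∃ i : ℤ, c ^ i * z ∈ F := by
    rintro z ⟨h1, y, h2, h3⟩
    exact hFs z y h3 h1 h2
  have hone : ∀ z ∈ Strip S s H, wdist S z (c * z) ≤ R := by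
    intro z hz
    obtain ⟨i, hi⟩ := hst z hz
    have h1 := (hR _ hi _ hi).2
    have h2 : c * (c ^ i * z) = c ^ i * (c * z) := by
      rw [← mul_assoc, ← mul_assoc, ← zpow_one_add, ← zpow_add_one, add_comm]
    rw [h2, wdist_mul_left] at h1
    exact h1
  have hnat : ∀ (n : ℕ) (z : G), z ∈ Strip S s H → Relation.ReflTransGen
      (fun a b => a ∈ Strip S s H ∧ b ∈ Strip S s H ∧ wdist S a b ≤ R) z (c ^ (n : ℤ) * z) := by
    intro n z hz
    induction n with
    | zero =>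
      have : c ^ ((0 : ℕ) : ℤ) * z = z := by simp
      rw [this]
    | succ n ih =>
      refine Relation.ReflTransGen.tail ih ⟨b0c_strip hs.inv _ hz, b0c_strip hs.inv _ hz, ?_⟩
      have h1 : c ^ ((n + 1 : ℕ) : ℤ) * z = c * (c ^ (n : ℤ) * z) := by
        rw [← mul_assoc, ← zpow_one_add]
        congr 2
        push_cast
        ring
      rw [h1]
      exact hone _ (b0c_strip hs.inv _ hz)
  have hint : ∀ (i : ℤ) (z : G), z ∈ Strip S s H → Relation.ReflTransGen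
      (fun a b => a ∈ Strip S s H ∧ b ∈ Strip S s H ∧ wdist S a b ≤ R) z (c ^ i * z) := by
    intro i z hz
    obtain ⟨n, rfl | rfl⟩ := i.eq_nat_or_neg
    · exact hnat n z hz
    · have h1 := hnat n _ (b0c_strip (s := s) (S := S) hs.inv (-(n : ℤ)) hz)
      have h2 : c ^ (n : ℤ) * (c ^ (-(n : ℤ)) * z) = z := by
        rw [← mul_assoc, ← zpow_add, add_neg_cancel, zpow_zero, one_mul]
      rw [h2] at h1
      exact hsym _ _ h1
  refine ⟨R, fun z hz z' hz' => ?_⟩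
  obtain ⟨i, hi⟩ := hst z hz
  obtain ⟨j, hj⟩ := hst z' hz'
  refine (hint i z hz).trans (Relation.ReflTransGen.trans ?_ (hsym _ _ (hint j z' hz')))
  exact Relation.ReflTransGen.single ⟨b0c_strip hs.inv _ hz, b0c_strip hs.inv _ hz',
    (hR _ hi _ hj).1⟩

theorem b0c_tl_strip {H : Set G} {s : ℕ} (p x : G) :
    x ∈ Strip S s (tl p H) ↔ p⁻¹ * x ∈ Strip S s H := by
  constructor
  · rintro ⟨h1, y, h2, h3⟩
    refine ⟨h1, p⁻¹ * y, h2, ?_⟩
    rw [wdist_mul_left]
    exact h3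
  · rintro ⟨h1, y, h2, h3⟩
    refine ⟨h1, p * y, ?_, ?_⟩
    · show ¬ (p⁻¹ * (p * y) ∈ H)
      rw [inv_mul_cancel_left]
      exact h2
    · rw [← wdist_mul_left p⁻¹, inv_mul_cancel_left]
      exact h3

theorem b0c_tl {H : Set G} {s R : ℕ} (p : G) (h : CConn S (Strip S s (tl p H)) R) :
    CConn S (Strip S s H) R := by
  intro x hx y hy
  have hx' : p * x ∈ Strip S s (tl p H) := by
    rw [b0c_tl_strip, inv_mul_cancel_left]
    exact hx
  have hy' : p * y ∈ Strip S s (tl p H) := by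
    rw [b0c_tl_strip, inv_mul_cancel_left]
    exact hy
  have h1 := h _ hx' _ hy'
  have h2 : ∀ w, Relation.ReflTransGen
      (fun a b => a ∈ Strip S s (tl p H) ∧ b ∈ Strip S s (tl p H) ∧ wdist S a b ≤ R) (p * x) w →
      Relation.ReflTransGen (fun a b => a ∈ Strip S s H ∧ b ∈ Strip S s H ∧ wdist S a b ≤ R)
        x (p⁻¹ * w) := by
    intro w hw
    induction hw with
    | refl =>
      rw [inv_mul_cancel_left]
    | tail _ h3 ih =>
      refine Relation.ReflTransGen.tail ih ⟨(b0c_tl_strip p _).1 h3.1,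
        (b0c_tl_strip p _).1 h3.2.1, ?_⟩
      rw [wdist_mul_left]
      exact h3.2.2
  have h3 := h2 _ h1
  rw [inv_mul_cancel_left] at h3
  exact h3

theorem b0c_step {Y E : Set G} {R : ℕ} {z z' : G}
    (h : Relation.ReflTransGen (fun a b => a ∈ Y ∧ b ∈ Y ∧ wdist S a b ≤ R) z z')
    (hz : z ∈ E) (hz' : z' ∉ E) : ∃ u v, u ∈ Y ∧ v ∈ Y ∧ wdist S u v ≤ R ∧ u ∈ E ∧ v ∉ E := by
  induction h with
  | refl => exact absurd hz hz'
  | @tail b c _ hbc ih =>
    by_cases hb : b ∈ E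
    · exact ⟨b, c, hbc.1, hbc.2.1, hbc.2.2, hb, hz'⟩
    · exact ih hb

/-- B0c: finitely many strips are met by a finite boundary -/
theorem sb0c (_a9 : SA9) : SB0c := by
  intro G _ S _ hSg P HH hP s E hE
  -- a uniform constant
  obtain ⟨F₀, hF₀, hF₀s⟩ := hP.orb
  have hR : ∃ R : ℕ, ∀ H ∈ F₀, H ∈ HH → CConn S (Strip S s H) R := by
    refine Set.Finite.induction_on
      (motive := fun F _ => ∃ R : ℕ, ∀ H ∈ F, H ∈ HH → CConn S (Strip S s H) R) _ hF₀ ?_ ?_
    · exact ⟨0, fun H hH => absurd hH (Set.notMem_empty H)⟩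
    · rintro H F _ _ ⟨R, hR⟩
      by_cases hH : H ∈ HH
      · obtain ⟨c, _, hc⟩ := hP.hs H hH
        obtain ⟨R', hR'⟩ := b0c_conn hSg hc s
        refine ⟨max R R', ?_⟩
        rintro H' (rfl | hH') hm
        · exact b0c_mono (le_max_right _ _) hR'
        · exact b0c_mono (le_max_left _ _) (hR H' hH' hm)
      · refine ⟨R, ?_⟩
        rintro H' (rfl | hH') hm
        · exact absurd hm hH
        · exact hR H' hH' hm
  obtain ⟨R, hR⟩ := hR
  have hall : ∀ H ∈ HH, CConn S (Strip S s H) R := by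
    intro H hH
    obtain ⟨p, hp, hpH⟩ := hF₀s H hH
    exact b0c_tl p (hR _ hpH (hP.inv p hp H hH))
  -- the finite set of pairs
  have hfin := hE R
  refine (Set.Finite.biUnion (t := fun q : G × G => {H : Set G | H ∈ HH ∧ q.1 ∈ H}) hfin
    (fun q _ => ?_)).subset ?_
  · refine Set.Subsingleton.finite ?_
    rintro H ⟨h1, h2⟩ H' ⟨h1', h2'⟩
    by_contra hne
    exact Set.disjoint_left.1 (hP.disj H h1 H' h1' hne) h2 h2'
  · rintro H ⟨hH, ⟨z, hz, hzE⟩, z', hz', hzE'⟩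
    obtain ⟨u, v, hu, hv, huv, huE, hvE⟩ := b0c_step (hall H hH z hz z' hz') hzE hzE'
    rw [Set.mem_iUnion₂]
    exact ⟨(u, v), ⟨b0c_sub hP.disj hH hu, b0c_sub hP.disj hH hv, huv, huE, hvE⟩, hH, hu.1⟩

end Pool.Agent.QF
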