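import Pool.Agent.QF.Stm

/-!
# The region of a piece (row QI-B1)
-/

set_option autoImplicit false

namespace Pool.Agent.QF

open Pool.Agent.QIS Pool.Agent.QD MulAction

variable {G : Type} [Group G] {S : Set G}

private theorem b1_dp_sub {s : ℕ} {H : Set G} {x : G} (hx : x ∈ Dp S s H) : x ∈ H := by
  by_contra h
  have h1 := hx x h
  rw [wdist_self] at h1
  omega

private theorem b1_tl_mem (H : Set G) (g x : G) : g * x ∈ tl g H ↔ x ∈ H := by
  change g⁻¹ * (g * x) ∈ H ↔ x ∈ H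
  rw [inv_mul_cancel_left]

private theorem b1_tl_inv (H : Set G) (g : G) : tl g (tl g⁻¹ H) = H := by
  ext x
  change g⁻¹⁻¹ * (g⁻¹ * x) ∈ H ↔ x ∈ H
  rw [inv_inv, mul_inv_cancel_left]

private theorem b1_dp_tl (s : ℕ) (H : Set G) (g x : G) :
    g * x ∈ Dp S s (tl g H) ↔ x ∈ Dp S s H := by
  constructor
  · intro h y hy
    have h1 := h (g * y) (fun h' => hy ((b1_tl_mem H g y).1 h'))
    rwa [wdist_mul_left] at h1
  · intro h y hy
    have h1 := h (g⁻¹ * y) hy
    rw [← wdist_mul_left g, mul_inv_cancel_left] at h1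
    exact h1

private theorem b1_strip_tl {s : ℕ} {H : Set G} {g x : G} (hx : x ∈ Strip S s H) :
    g * x ∈ Strip S s (tl g H) := by
  obtain ⟨h1, y, h2, h3⟩ := hx
  refine ⟨(b1_tl_mem H g x).2 h1, g * y, fun h' => h2 ((b1_tl_mem H g y).1 h'), ?_⟩
  rw [wdist_mul_left]
  exact h3

private theorem b1_zpow {H : Set G} {c : G} (h : HS S H c) (i : ℤ) (x : G) :
    c ^ i * x ∈ H ↔ x ∈ H := by
  induction i using Int.induction_on generalizing x with
  | zero => simp
  | succ i ih =>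
    have e : c ^ ((i : ℤ) + 1) * x = c * (c ^ (i : ℤ) * x) := by
      rw [add_comm, zpow_one_add, mul_assoc]
    rw [e, h.inv, ih]
  | pred i ih =>
    have e : c * (c ^ (-(i : ℤ) - 1) * x) = c ^ (-(i : ℤ)) * x := by
      rw [← mul_assoc, ← zpow_one_add]
      congr 2
      ring
    rw [← h.inv, e, ih]

private theorem b1_strip_zpow {s : ℕ} {H : Set G} {c : G} (h : HS S H c) (i : ℤ) {x : G}
    (hx : x ∈ Strip S s H) : c ^ i * x ∈ Strip S s H := by
  obtain ⟨h1, y, h2, h3⟩ := hx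
  refine ⟨(b1_zpow h i x).2 h1, c ^ i * y, fun h' => h2 ((b1_zpow h i y).1 h'), ?_⟩
  rw [wdist_mul_left]
  exact h3

private theorem b1_symm (hSg : Subgroup.closure S = ⊤) (Y : Set G) (r : ℕ) {x y : G}
    (h : Relation.ReflTransGen (fun a b => a ∈ Y ∧ b ∈ Y ∧ wdist S a b ≤ r) x y) :
    Relation.ReflTransGen (fun a b => a ∈ Y ∧ b ∈ Y ∧ wdist S a b ≤ r) y x := by
  induction h with
  | refl => exact Relation.ReflTransGen.refl
  | tail _ h2 ih =>
    refine Relation.ReflTransGen.head ⟨h2.2.1, h2.1, ?_⟩ ih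
    rw [wdist_comm hSg]
    exact h2.2.2

private theorem b1_mono {Y Y' : Set G} {r r' : ℕ} (hY : Y ⊆ Y') (hr : r ≤ r') {x y : G}
    (h : Relation.ReflTransGen (fun a b => a ∈ Y ∧ b ∈ Y ∧ wdist S a b ≤ r) x y) :
    Relation.ReflTransGen (fun a b => a ∈ Y' ∧ b ∈ Y' ∧ wdist S a b ≤ r') x y := by
  induction h with
  | refl => exact Relation.ReflTransGen.refl
  | tail _ h2 ih => exact ih.tail ⟨hY h2.1, hY h2.2.1, h2.2.2.trans hr⟩

/-- a strip is connected at a large scale -/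
private theorem b1_strip_conn (hSg : Subgroup.closure S = ⊤) {H : Set G} {c : G} (h : HS S H c)
    (s : ℕ) : ∃ R, CConn S (Strip S s H) R := by
  obtain ⟨F, hF, hb⟩ := h.bd s
  obtain ⟨K₁, hK₁⟩ := ((hF.prod hF).image (fun p : G × G => wdist S p.1 p.2)).bddAbove
  obtain ⟨K₂, hK₂⟩ := (hF.image (fun f : G => wdist S f (c * f))).bddAbove
  refine ⟨max K₁ K₂, ?_⟩
  have hline : ∀ f ∈ F, f ∈ Strip S s H → ∀ j : ℤ,
      Relation.ReflTransGen (fun a b => a ∈ Strip S s H ∧ b ∈ Strip S s H ∧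
        wdist S a b ≤ max K₁ K₂) f (c ^ j * f) := by
    intro f hf hfs j
    have hd : wdist S f (c * f) ≤ max K₁ K₂ :=
      (hK₂ ⟨f, hf, rfl⟩).trans (le_max_right _ _)
    induction j using Int.induction_on with
    | zero => simpa using Relation.ReflTransGen.refl
    | succ i ih =>
      refine ih.tail ⟨b1_strip_zpow h _ hfs, b1_strip_zpow h _ hfs, ?_⟩
      have e : c ^ ((i : ℤ) + 1) * f = c ^ (i : ℤ) * (c * f) := by
        rw [zpow_add_one, mul_assoc]
      rw [e, wdist_mul_left]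
      exact hd
    | pred i ih =>
      refine ih.tail ⟨b1_strip_zpow h _ hfs, b1_strip_zpow h _ hfs, ?_⟩
      have e : c ^ (-(i : ℤ)) * f = c ^ (-(i : ℤ) - 1) * (c * f) := by
        rw [← mul_assoc, ← zpow_add_one]
        congr 2
        ring
      rw [e, wdist_mul_left, wdist_comm hSg]
      exact hd
  have hpt : ∀ x ∈ Strip S s H, ∃ f ∈ F, f ∈ Strip S s H ∧
      Relation.ReflTransGen (fun a b => a ∈ Strip S s H ∧ b ∈ Strip S s H ∧
        wdist S a b ≤ max K₁ K₂) f x := by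
    intro x hx
    obtain ⟨y, hy, hxy⟩ := hx.2
    obtain ⟨i, hi⟩ := hb x y hxy hx.1 hy
    have h1 := hline _ hi (b1_strip_zpow h i hx) (-i)
    have e : c ^ (-i) * (c ^ i * x) = x := by
      rw [← mul_assoc, ← zpow_add]
      simp
    rw [e] at h1
    exact ⟨_, hi, b1_strip_zpow h i hx, h1⟩
  intro x hx y hy
  obtain ⟨f, hf, hfs, h1⟩ := hpt x hx
  obtain ⟨f', hf', hfs', h2⟩ := hpt y hy
  refine ((b1_symm hSg _ _ h1).tail ⟨hfs, hfs', ?_⟩).trans h2
  exact (hK₁ ⟨(f, f'), ⟨hf, hf'⟩, rfl⟩).trans (le_max_left _ _)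

private theorem b1_conn_tl {s R : ℕ} {H : Set G} {g : G}
    (h : CConn S (Strip S s (tl g H)) R) : CConn S (Strip S s H) R := by
  intro x hx y hy
  have h1 := h (g * x) (b1_strip_tl hx) (g * y) (b1_strip_tl hy)
  have hs : ∀ z, z ∈ Strip S s (tl g H) → g⁻¹ * z ∈ Strip S s H := by
    intro z hz
    obtain ⟨h3, w, h4, h5⟩ := hz
    refine ⟨h3, g⁻¹ * w, h4, ?_⟩
    rw [wdist_mul_left]
    exact h5
  have h2 : ∀ u v : G, Relation.ReflTransGen (fun a b => a ∈ Strip S s (tl g H) ∧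
      b ∈ Strip S s (tl g H) ∧ wdist S a b ≤ R) u v →
      Relation.ReflTransGen (fun a b => a ∈ Strip S s H ∧ b ∈ Strip S s H ∧ wdist S a b ≤ R)
        (g⁻¹ * u) (g⁻¹ * v) := by
    intro u v huv
    induction huv with
    | refl => exact Relation.ReflTransGen.refl
    | tail _ h3 ih =>
      refine ih.tail ⟨hs _ h3.1, hs _ h3.2.1, ?_⟩
      rw [wdist_mul_left]
      exact h3.2.2
  have h3 := h2 _ _ h1
  rw [inv_mul_cancel_left, inv_mul_cancel_left] at h3
  exact h3

/-- uniform connectedness of the strips of a piece -/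
private theorem b1_unif (hSg : Subgroup.closure S = ⊤) {P : Subgroup G} {HH : Set (Set G)}
    (hP : Piece S P HH) (s : ℕ) : ∃ R, ∀ H ∈ HH, CConn S (Strip S s H) R := by
  obtain ⟨F0, hF0, horb⟩ := hP.orb
  have h1 : ∀ H : Set G, ∃ R, H ∈ HH → CConn S (Strip S s H) R := by
    intro H
    by_cases hH : H ∈ HH
    · obtain ⟨c, _, hc⟩ := hP.hs H hH
      obtain ⟨R, hR⟩ := b1_strip_conn hSg hc s
      exact ⟨R, fun _ => hR⟩
    · exact ⟨0, fun h => absurd h hH⟩
  choose ρ hρ using h1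
  obtain ⟨R, hR⟩ := (hF0.image ρ).bddAbove
  refine ⟨R, fun H hH => ?_⟩
  obtain ⟨p, hp, hpF⟩ := horb H hH
  refine b1_conn_tl (g := p) ?_
  intro x hx y hy
  exact b1_mono (le_refl _) (hR ⟨_, hpF, rfl⟩) (hρ _ (hP.inv p hp H hH) x hx y hy)

private theorem b1_strip_sub {P : Subgroup G} {HH : Set (Set G)}
    (hP : Piece S P HH) {s : ℕ} {H : Set G} (hH : H ∈ HH) : Strip S s H ⊆ Yr S s HH := by
  intro x hx H' hH' hd
  obtain ⟨hxH, y, hy, hxy⟩ := hx
  by_cases e : H = H'
  · subst e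
    exact absurd hxy (not_le.2 (hd y hy))
  · exact Set.disjoint_left.1 (hP.disj H hH H' hH' e) hxH (b1_dp_sub hd)

theorem sb1 (_a9 : SA9) : SB1 := by
  intro G _ S hS hSg P HH hP s
  refine ⟨?_, ?_, ?_⟩
  · intro p hp y hy H hH hd
    refine hy (tl p⁻¹ H) (hP.inv _ (P.inv_mem hp) H hH) ?_
    rw [← b1_tl_inv H p] at hd
    exact (b1_dp_tl s _ p y).1 hd
  · obtain ⟨F0, hF0, horb⟩ := hP.orb
    obtain ⟨F1, hF1, hcore⟩ := hP.core
    have h1 : ∀ H : Set G, ∃ F : Set G, F.Finite ∧ (H ∈ HH → ∀ x ∈ Strip S s H,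
        ∃ p ∈ P, p * x ∈ F) := by
      intro H
      by_cases hH : H ∈ HH
      · obtain ⟨c, hcP, hc⟩ := hP.hs H hH
        obtain ⟨F, hF, hb⟩ := hc.bd s
        refine ⟨F, hF, fun _ x hx => ?_⟩
        obtain ⟨y, hy, hxy⟩ := hx.2
        obtain ⟨i, hi⟩ := hb x y hxy hx.1 hy
        exact ⟨c ^ i, P.zpow_mem hcP i, hi⟩
      · exact ⟨∅, Set.finite_empty, fun h => absurd h hH⟩
    choose Φ hΦ hΦ' using h1
    refine ⟨F1 ∪ ⋃ H ∈ F0, Φ H, hF1.union (hF0.biUnion (fun H _ => hΦ H)), ?_⟩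
    intro y hy
    by_cases hc : ∀ H ∈ HH, y ∉ H
    · obtain ⟨p, hp, h2⟩ := hcore y hc
      exact ⟨p, hp, Or.inl h2⟩
    · push Not at hc
      obtain ⟨H, hH, hyH⟩ := hc
      have hys : y ∈ Strip S s H := by
        have h3 := hy H hH
        have h4 : ∃ z, z ∉ H ∧ wdist S y z ≤ s := by
          by_contra h5
          push Not at h5
          exact h3 (fun z hz => h5 z hz)
        exact ⟨hyH, h4⟩
      obtain ⟨q, hq, hqF⟩ := horb H hH
      obtain ⟨p, hp, h6⟩ := hΦ' (tl q H) (hP.inv q hq H hH) (q * y) (b1_strip_tl hys)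
      refine ⟨p * q, P.mul_mem hp hq, Or.inr ?_⟩
      rw [Set.mem_iUnion₂]
      exact ⟨_, hqF, by rw [mul_assoc]; exact h6⟩
  · intro hs1
    obtain ⟨R, hR⟩ := b1_unif hSg hP s
    refine ⟨max R 1, fun r' hr' => ?_⟩
    have hRr : R ≤ r' := (le_max_left _ _).trans hr'
    have h1r : 1 ≤ r' := (le_max_right _ _).trans hr'
    have hstr : ∀ H ∈ HH, ∀ x ∈ Strip S s H, ∀ y ∈ Strip S s H,
        Relation.ReflTransGen (fun a b => a ∈ Yr S s HH ∧ b ∈ Yr S s HH ∧ wdist S a b ≤ r')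
          x y := fun H hH x hx y hy =>
      b1_mono (b1_strip_sub hP hH) hRr (hR H hH x hx y hy)
    intro x hx y hy
    have hstep : ∀ z z' : G, wdist S z z' ≤ 1 →
        ((z ∈ Yr S s HH ∧ Relation.ReflTransGen (fun a b => a ∈ Yr S s HH ∧ b ∈ Yr S s HH ∧
          wdist S a b ≤ r') x z) ∨ ∃ H ∈ HH, z ∈ Dp S s H ∧ ∀ w ∈ Strip S s H,
            Relation.ReflTransGen (fun a b => a ∈ Yr S s HH ∧ b ∈ Yr S s HH ∧
              wdist S a b ≤ r') x w) →
        ((z' ∈ Yr S s HH ∧ Relation.ReflTransGen (fun a b => a ∈ Yr S s HH ∧ b ∈ Yr S s HH ∧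
          wdist S a b ≤ r') x z') ∨ ∃ H ∈ HH, z' ∈ Dp S s H ∧ ∀ w ∈ Strip S s H,
            Relation.ReflTransGen (fun a b => a ∈ Yr S s HH ∧ b ∈ Yr S s HH ∧
              wdist S a b ≤ r') x w) := by
      intro z z' hz h
      have hz' : wdist S z' z ≤ 1 := by rw [wdist_comm hSg]; exact hz
      rcases h with ⟨h1, h2⟩ | ⟨H, hH, h1, h2⟩
      · by_cases h3 : z' ∈ Yr S s HH
        · exact Or.inl ⟨h3, h2.tail ⟨h1, h3, hz.trans h1r⟩⟩
        · have h4 : ∃ H ∈ HH, z' ∈ Dp S s H := by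
            by_contra h5
            push Not at h5
            exact h3 h5
          obtain ⟨H, hH, h5⟩ := h4
          refine Or.inr ⟨H, hH, h5, ?_⟩
          have h6 : z ∈ H := by
            by_contra h7
            have h8 := h5 z h7
            omega
          have h7 : z ∈ Strip S s H := by
            refine ⟨h6, ?_⟩
            by_contra h8
            push Not at h8
            exact h1 H hH (fun w hw => h8 w hw)
          intro w hw
          exact h2.trans (hstr H hH z h7 w hw)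
      · by_cases h3 : z' ∈ Yr S s HH
        · refine Or.inl ⟨h3, h2 z' ?_⟩
          refine ⟨?_, ?_⟩
          · by_contra h4
            have h5 := h1 z' h4
            omega
          · by_contra h8
            push Not at h8
            exact h3 H hH (fun w hw => h8 w hw)
        · have h4 : ∃ H ∈ HH, z' ∈ Dp S s H := by
            by_contra h5
            push Not at h5
            exact h3 h5
          obtain ⟨H', hH', h5⟩ := h4
          by_cases e : H = H'
          · subst e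
            exact Or.inr ⟨H, hH, h5, h2⟩
          · exfalso
            have h6 : z' ∉ H := fun h7 =>
              Set.disjoint_left.1 (hP.disj H hH H' hH' e) h7 (b1_dp_sub h5)
            have h8 := h1 z' h6
            omega
    have hlist : ∀ (l : List G), (∀ a ∈ l, a ∈ S ∨ a⁻¹ ∈ S) → ∀ z : G,
        ((z ∈ Yr S s HH ∧ Relation.ReflTransGen (fun a b => a ∈ Yr S s HH ∧ b ∈ Yr S s HH ∧
          wdist S a b ≤ r') x z) ∨ ∃ H ∈ HH, z ∈ Dp S s H ∧ ∀ w ∈ Strip S s H,
            Relation.ReflTransGen (fun a b => a ∈ Yr S s HH ∧ b ∈ Yr S s HH ∧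
              wdist S a b ≤ r') x w) →
        ((z * l.prod ∈ Yr S s HH ∧ Relation.ReflTransGen (fun a b => a ∈ Yr S s HH ∧
          b ∈ Yr S s HH ∧ wdist S a b ≤ r') x (z * l.prod)) ∨
          ∃ H ∈ HH, z * l.prod ∈ Dp S s H ∧ ∀ w ∈ Strip S s H,
            Relation.ReflTransGen (fun a b => a ∈ Yr S s HH ∧ b ∈ Yr S s HH ∧
              wdist S a b ≤ r') x w) := by
      intro l
      induction l with
      | nil => intro _ z h; simpa using h
      | cons a l ih =>
        intro hl z h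
        rw [List.prod_cons, ← mul_assoc]
        refine ih (fun b hb => hl b (List.mem_cons_of_mem _ hb)) (z * a) ?_
        exact hstep z (z * a) (q6_gen (hl a List.mem_cons_self) z) h
    obtain ⟨l, hl, hprod, _⟩ := q6_exists_word hSg (x⁻¹ * y)
    have h9 := hlist l hl x (Or.inl ⟨hx, Relation.ReflTransGen.refl⟩)
    rw [hprod, mul_inv_cancel_left] at h9
    rcases h9 with h9 | ⟨H, hH, h9, _⟩
    · exact h9.2
    · exact absurd h9 (hy H hH)

end Pool.Agent.QF
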