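import Pool.Agent.QF.Stm

/-!
# MP_bbdce3_al, project QD, row B12: the group of a piece is finitely generated
-/

set_option autoImplicit false

namespace Pool.Agent.QF

open Pool.Agent.QIS Pool.Agent.QD

section

variable {G : Type} [Group G] {S : Set G}

/-- a set that is neither empty nor everything has a boundary pair -/
theorem b12_pair (hSg : Subgroup.closure S = ⊤) {H : Set G} {x y : G} (hx : x ∈ H) (hy : y ∉ H) :
    ∃ u ∈ H, ∃ v, v ∉ H ∧ wdist S u v ≤ 1 := by
  have key : ∀ l : List G, (∀ a ∈ l, a ∈ S ∨ a⁻¹ ∈ S) → ∀ z : G, z ∈ H → z * l.prod ∉ H →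
      ∃ u ∈ H, ∃ v, v ∉ H ∧ wdist S u v ≤ 1 := by
    intro l
    induction l with
    | nil =>
      intro _ z hz hz'
      rw [List.prod_nil, mul_one] at hz'
      exact absurd hz hz'
    | cons s l ih =>
      intro hl z hz hz'
      rw [List.prod_cons, ← mul_assoc] at hz'
      by_cases h : z * s ∈ H
      · exact ih (fun a ha => hl a (List.mem_cons_of_mem _ ha)) (z * s) h hz'
      · exact ⟨z, hz, z * s, h, q6_gen (hl s List.mem_cons_self) z⟩
  obtain ⟨l, hl, hp, _⟩ := q6_exists_word hSg (x⁻¹ * y)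
  refine key l hl x hx ?_
  rw [hp, mul_inv_cancel_left]
  exact hy

/-- the strip of width one is not empty -/
theorem b12_strip (hSg : Subgroup.closure S = ⊤) {H : Set G} {c : G} (hH : HS S H c) :
    ∃ y, y ∈ Strip S 1 H := by
  obtain ⟨x, hx, _⟩ := hH.deep ∅ Set.finite_empty
  obtain ⟨y, hy, _⟩ := hH.deep' ∅ Set.finite_empty
  obtain ⟨u, hu, v, hv, huv⟩ := b12_pair hSg hx hy
  exact ⟨u, hu, v, hv, huv⟩

private theorem b12_yr {P : Subgroup G} {HH : Set (Set G)} (hP : Piece S P HH) {H : Set G}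
    (hH : H ∈ HH) {u : G} (hu : u ∈ Strip S 1 H) : u ∈ Yr S 1 HH := by
  obtain ⟨huH, v, hv, huv⟩ := hu
  intro H' hH' hD
  by_cases h : H = H'
  · subst h
    have h1 := hD v hv
    omega
  · have hu' : u ∉ H' := fun h' => Set.disjoint_left.1 (hP.disj H hH H' hH' h) huH h'
    have h1 := hD u hu'
    rw [wdist_self] at h1
    exact absurd h1 (by omega)

end

/-- B12: the group of a piece is finitely generated -/
theorem sb12 (b1 : SB1) : SB12 := by
  intro G _ S hS hSg P HH hP
  obtain ⟨hI, ⟨F, hF, hFo⟩, hr⟩ := b1 G S hS hSg P HH hP 1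
  obtain ⟨r, hr⟩ := hr le_rfl
  have hconn := hr r le_rfl
  obtain ⟨H, hH⟩ := hP.ne
  obtain ⟨c, _, hc⟩ := hP.hs H hH
  obtain ⟨y0, hy0⟩ := b12_strip hSg hc
  have hy0Y := b12_yr hP hH hy0
  have hF' : (insert y0 F).Finite := hF.insert y0
  have hy0F : y0 ∈ insert y0 F := Set.mem_insert y0 F
  obtain ⟨A, hAdef⟩ : ∃ A : Set G, A = {p | p ∈ P ∧ ∃ f ∈ insert y0 F, ∃ f' ∈ insert y0 F,
      wdist S f (p * f') ≤ r} := ⟨_, rfl⟩
  have hA : A.Finite := by
    have h1 : (⋃ f ∈ insert y0 F, {y | wdist S f y ≤ r}).Finite :=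
      hF'.biUnion fun f _ => ball_finite hS hSg f r
    refine (h1.image2 (fun b f' => b * f'⁻¹) hF').subset ?_
    intro p hp
    rw [hAdef] at hp
    obtain ⟨_, f, hf, f', hf', hd⟩ := hp
    refine ⟨p * f', ?_, f', hf', by group⟩
    simp only [Set.mem_iUnion]
    exact ⟨f, hf, hd⟩
  have hAP : A ⊆ P := by
    intro p hp
    rw [hAdef] at hp
    exact hp.1
  refine ⟨hA.toFinset, ?_⟩
  rw [Set.Finite.coe_toFinset]
  apply le_antisymm
  · exact (Subgroup.closure_le P).2 hAP
  · intro p hp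
    have inv : ∀ x : G, Relation.ReflTransGen (fun a b => a ∈ Yr S 1 HH ∧ b ∈ Yr S 1 HH ∧
        wdist S a b ≤ r) y0 x → ∀ q ∈ P, q⁻¹ * x ∈ insert y0 F → q ∈ Subgroup.closure A := by
      intro x hx
      induction hx with
      | refl =>
        intro q hq hqF
        apply Subgroup.subset_closure
        rw [hAdef]
        refine ⟨hq, y0, hy0F, q⁻¹ * y0, hqF, ?_⟩
        rw [mul_inv_cancel_left, wdist_self]
        exact Nat.zero_le r
      | @tail a b _ hab ih =>
        intro q' hq' hqF'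
        obtain ⟨p1, hp1, hp1F⟩ := hFo a hab.1
        have h1 : p1⁻¹ ∈ Subgroup.closure A := by
          apply ih p1⁻¹ (P.inv_mem hp1)
          rw [inv_inv]
          exact Set.mem_insert_of_mem _ hp1F
        have h2 : p1 * q' ∈ A := by
          rw [hAdef]
          refine ⟨P.mul_mem hp1 hq', p1 * a, Set.mem_insert_of_mem _ hp1F, q'⁻¹ * b, hqF', ?_⟩
          have e : p1 * q' * (q'⁻¹ * b) = p1 * b := by group
          rw [e, wdist_mul_left]
          exact hab.2.2
        have h3 := (Subgroup.closure A).mul_mem h1 (Subgroup.subset_closure h2)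
        rwa [inv_mul_cancel_left] at h3
    refine inv (p * y0) (hconn y0 hy0Y (p * y0) (hI p hp y0 hy0Y)) p hp ?_
    rw [inv_mul_cancel_left]
    exact hy0F

end Pool.Agent.QF
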