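import Pool.Agent.QF.Stm
import Pool.Agent.H67.Q.Words

/-!
# Project QD (MP_bbdce3_al), row B4: a bad cocycle gives a cut that crosses exactly two lines
-/

set_option autoImplicit false

namespace Pool.Agent.QF

open Pool.Agent.QIS Pool.Agent.QD

section

variable {G : Type} [Group G] {S : Set G} {HH : Set (Set G)} {s : ℕ}

private theorem b4_zpow_inv {H : Set G} {c : G} (h : HS S H c) (i : ℤ) (x : G) :
    c ^ i * x ∈ H ↔ x ∈ H := by
  have h1 : ∀ (n : ℕ) (x : G), c ^ n * x ∈ H ↔ x ∈ H := by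
    intro n
    induction n with
    | zero =>
      intro x
      rw [pow_zero, one_mul]
    | succ n ih =>
      intro x
      rw [pow_succ, mul_assoc, ih, h.inv]
  rcases Int.eq_nat_or_neg i with ⟨n, rfl | rfl⟩
  · rw [zpow_natCast]
    exact h1 n x
  · have h2 := h1 n (c ^ (-(n : ℤ)) * x)
    rw [zpow_neg, zpow_natCast, mul_inv_cancel_left] at h2
    rw [zpow_neg, zpow_natCast]
    exact h2.symm

private theorem b4_strip {H : Set G} {c y : G} (h : HS S H c) (hy : y ∈ Strip S s H) (i : ℤ) :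
    c ^ i * y ∈ Strip S s H := by
  obtain ⟨h1, z, h2, h3⟩ := hy
  refine ⟨(b4_zpow_inv h i y).2 h1, c ^ i * z, fun h4 => h2 ((b4_zpow_inv h i z).1 h4), ?_⟩
  rw [wdist_mul_left]
  exact h3

private theorem b4_sub (hd : ∀ H ∈ HH, ∀ H' ∈ HH, H ≠ H' → Disjoint H H') {H : Set G}
    (hH : H ∈ HH) : Strip S s H ⊆ Yr S s HH := by
  rintro x ⟨h1, z, h2, h3⟩ H' hH' h4
  by_cases e : H = H'
  · rw [← e] at h4
    exact absurd (h4 z h2) (not_lt.2 h3)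
  · have h5 : x ∉ H' := Set.disjoint_left.1 (hd H hH H' hH' e) h1
    have h6 := h4 x h5
    rw [wdist_self] at h6
    exact absurd h6 (Nat.not_lt_zero s)

private theorem b4_inj {H : Set G} {c : G} (h : HS S H c) (y : G) :
    Function.Injective (fun i : ℤ => c ^ i * y) := by
  have h1 : ¬ IsOfFinOrder c := by
    intro h2
    obtain ⟨n, hn, h3⟩ := isOfFinOrder_iff_pow_eq_one.1 h2
    exact h.ord n hn h3
  intro i j hij
  exact injective_zpow_iff_not_isOfFinOrder.2 h1 (mul_right_cancel hij)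

private theorem b4_tele {k : Type} [Field k] (F : ℤ → k) (a : ℤ) (n : ℕ) :
    ∑ i ∈ Finset.Ico a (a + n), (F (i + 1) - F i) = F (a + n) - F a := by
  induction n with
  | zero => simp
  | succ n ih =>
    have h1 : Finset.Ico a (a + ((n + 1 : ℕ) : ℤ)) = insert (a + n) (Finset.Ico a (a + n)) := by
      ext i
      simp only [Finset.mem_Ico, Finset.mem_insert]
      push_cast
      omega
    rw [h1, Finset.sum_insert (by simp), ih]
    push_cast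
    rw [← add_assoc]
    ring

private theorem b4_up {k : Type} [Field k] (F : ℤ → k) (N : ℤ)
    (h : ∀ i, N ≤ i → F (i + 1) = F i) (i : ℤ) (hi : N ≤ i) : F i = F N := by
  obtain ⟨n, rfl⟩ : ∃ n : ℕ, i = N + n := ⟨(i - N).toNat, by omega⟩
  induction n with
  | zero => simp
  | succ n ih =>
    have h1 := h (N + n) (by omega)
    rw [ih (by omega)] at h1
    push_cast
    rw [← add_assoc]
    exact h1

private theorem b4_down {k : Type} [Field k] (F : ℤ → k) (N : ℤ)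
    (h : ∀ i, i < N → F (i + 1) = F i) (i : ℤ) (hi : i ≤ N) : F i = F N := by
  obtain ⟨n, rfl⟩ : ∃ n : ℕ, i = N - n := ⟨(N - i).toNat, by omega⟩
  induction n with
  | zero => simp
  | succ n ih =>
    have h1 := h (N - ((n + 1 : ℕ) : ℤ)) (by omega)
    have h2 : N - ((n + 1 : ℕ) : ℤ) + 1 = N - n := by
      push_cast
      ring
    rw [h2, ih (by omega)] at h1
    exact h1.symm

/-- a function on the integers whose differences have finite support -/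
private theorem b4_fun {k : Type} [Field k] (F : ℤ → k) (g : ℤ → k)
    (hg : ∀ i, g i = F (i + 1) - F i) (hf : (Function.support g).Finite) :
    ∃ N : ℕ, (∀ i : ℤ, (N : ℤ) ≤ i → F i = F N) ∧ (∀ i : ℤ, i ≤ -(N : ℤ) → F i = F (-(N : ℤ))) ∧
      ∑ᶠ i, g i = F N - F (-(N : ℤ)) := by
  obtain ⟨N, hN⟩ : ∃ N : ℕ, ∀ i ∈ Function.support g, i.natAbs < N := by
    obtain ⟨M, hM⟩ := (hf.image Int.natAbs).bddAbove
    refine ⟨M + 1, fun i hi => ?_⟩
    have := hM (Set.mem_image_of_mem _ hi)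
    omega
  have h0 : ∀ i : ℤ, N ≤ i.natAbs → F (i + 1) = F i := by
    intro i hi
    by_contra h
    have h1 : i ∈ Function.support g := by
      rw [Function.mem_support, hg]
      exact sub_ne_zero.2 h
    have := hN i h1
    omega
  refine ⟨N, fun i hi => b4_up F N (fun j hj => h0 j (by omega)) i hi,
    fun i hi => b4_down F (-(N : ℤ)) (fun j hj => h0 j (by omega)) i hi, ?_⟩
  have h2 : Function.support g ⊆ ↑(Finset.Ico (-(N : ℤ)) (-(N : ℤ) + ((2 * N : ℕ) : ℤ))) := by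
    intro i hi
    have h3 := hN i hi
    rw [Finset.coe_Ico, Set.mem_Ico]
    push_cast
    omega
  rw [finsum_eq_sum_of_support_subset g h2, Finset.sum_congr rfl fun i _ => hg i, b4_tele F]
  congr 2
  push_cast
  ring

private theorem b4_line {k : Type} [Field k] {φ : G → G → k} {f : G → k} {n r : ℕ} (hrn : r ≤ n)
    (hd : ∀ H ∈ HH, ∀ H' ∈ HH, H ≠ H' → Disjoint H H')
    (hfin : FinC S (Yr S s HH) n φ) (hp : Prim S (Yr S s HH) r φ f) {H : Set G} (hH : H ∈ HH)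
    {c y : G} (hc : HS S H c) (hy : y ∈ Strip S s H) (hw : wdist S y (c * y) ≤ r) :
    ∃ N : ℕ, (∀ i : ℤ, (N : ℤ) ≤ i → f (c ^ i * y) = f (c ^ (N : ℤ) * y)) ∧
      (∀ i : ℤ, i ≤ -(N : ℤ) → f (c ^ i * y) = f (c ^ (-(N : ℤ)) * y)) ∧
      Jp c y φ = f (c ^ (N : ℤ) * y) - f (c ^ (-(N : ℤ)) * y) := by
  have hin : ∀ i : ℤ, c ^ i * y ∈ Yr S s HH := fun i => b4_sub hd hH (b4_strip hc hy i)
  have hww : ∀ i : ℤ, wdist S (c ^ i * y) (c ^ (i + 1) * y) ≤ r := by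
    intro i
    rw [zpow_add_one, mul_assoc, wdist_mul_left]
    exact hw
  refine b4_fun (fun i => f (c ^ i * y)) (fun i => φ (c ^ i * y) (c ^ (i + 1) * y))
    (fun i => hp _ (hin i) _ (hin (i + 1)) (hww i)) ?_
  refine Set.Finite.of_finite_image (f := fun i : ℤ => (c ^ i * y, c ^ (i + 1) * y))
    (hfin.subset ?_) ?_
  · rintro _ ⟨i, hi, rfl⟩
    exact ⟨hin i, hin (i + 1), (hww i).trans hrn, hi⟩
  · intro i _ j _ hij
    exact b4_inj hc y (congrArg Prod.fst hij)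

private theorem b4_strip_ne (hSg : Subgroup.closure S = ⊤) (hs : 1 ≤ s) {H : Set G} {c : G}
    (h : HS S H c) : (Strip S s H).Nonempty := by
  obtain ⟨x, hx, -⟩ := h.deep ∅ Set.finite_empty
  obtain ⟨x', hx', -⟩ := h.deep' ∅ Set.finite_empty
  have key : ∀ (l : List G), (∀ a ∈ l, a ∈ S ∨ a⁻¹ ∈ S) → ∀ x ∈ H, x * l.prod ∉ H →
      (Strip S s H).Nonempty := by
    intro l
    induction l with
    | nil =>
      intro _ x hx h1
      exact absurd (by simpa using hx) h1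
    | cons t l ih =>
      intro hl x hx h1
      rw [List.prod_cons, ← mul_assoc] at h1
      by_cases h2 : x * t ∈ H
      · exact ih (fun a ha => hl a (by simp [ha])) _ h2 h1
      · exact ⟨x, hx, x * t, h2, (q6_gen (hl t (by simp)) x).trans hs⟩
  obtain ⟨l, h1, h2, -⟩ := q6_exists_word hSg (x⁻¹ * x')
  refine key l h1 x hx ?_
  rw [h2, mul_inv_cancel_left]
  exact hx'

private theorem b4_tl_tl (p : G) (H : Set G) : tl p⁻¹ (tl p H) = H := by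
  ext x
  show p⁻¹ * (p⁻¹⁻¹ * x) ∈ H ↔ x ∈ H
  rw [inv_inv, inv_mul_cancel_left]

/-- translation of test pairs -/
private theorem b4_tr (a9 : SA9) (hS : S.Finite) (hSg : Subgroup.closure S = ⊤) {H : Set G}
    {c y : G} (h : HS S H c) (hy : y ∈ Strip S s H) (g : G) :
    HS S (tl g H) (g * c * g⁻¹) ∧ g * y ∈ Strip S s (tl g H) ∧
      wdist S (g * y) (g * c * g⁻¹ * (g * y)) = wdist S y (c * y) := by
  refine ⟨(a9 G S hS hSg H c h).2.2.2.1 g, ?_, ?_⟩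
  · obtain ⟨h1, z, h2, h3⟩ := hy
    refine ⟨?_, g * z, ?_, ?_⟩
    · show g⁻¹ * (g * y) ∈ H
      rw [inv_mul_cancel_left]
      exact h1
    · show g⁻¹ * (g * z) ∉ H
      rw [inv_mul_cancel_left]
      exact h2
    · rw [wdist_mul_left]
      exact h3
  · have e : g * c * g⁻¹ * (g * y) = g * (c * y) := by group
    rw [e, wdist_mul_left]

/-- test pairs of bounded length for all half-spaces -/
private theorem b4_test (a9 : SA9) (hS : S.Finite) (hSg : Subgroup.closure S = ⊤)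
    {P : Subgroup G} (hP : Piece S P HH) (hs : 1 ≤ s) :
    ∃ m₀ : ℕ, ∀ H ∈ HH, ∃ c y, HS S H c ∧ y ∈ Strip S s H ∧ wdist S y (c * y) ≤ m₀ := by
  classical
  have h1 : ∀ H : Set G, ∃ c y : G, H ∈ HH → HS S H c ∧ y ∈ Strip S s H := by
    intro H
    by_cases hH : H ∈ HH
    · obtain ⟨c, -, hc⟩ := hP.hs H hH
      obtain ⟨y, hy⟩ := b4_strip_ne (s := s) hSg hs hc
      exact ⟨c, y, fun _ => ⟨hc, hy⟩⟩
    · exact ⟨1, 1, fun h => absurd h hH⟩
  choose c y hcy using h1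
  obtain ⟨F, hF, hF'⟩ := hP.orb
  obtain ⟨m, hm⟩ := (hF.image fun H => wdist S (y H) (c H * y H)).bddAbove
  refine ⟨m, fun H hH => ?_⟩
  obtain ⟨p, hp, hpF⟩ := hF' H hH
  have h2 : tl p H ∈ HH := hP.inv p hp H hH
  obtain ⟨h3, h4⟩ := hcy _ h2
  have h5 := b4_tr a9 hS hSg h3 h4 p⁻¹
  rw [b4_tl_tl] at h5
  refine ⟨_, _, h5.1, h5.2.1, ?_⟩
  rw [h5.2.2]
  exact hm (Set.mem_image_of_mem _ hpF)

end

theorem sb4 (a9 : SA9) (b0a : SB0a) (b0b : SB0b) (b1 : SB1) (b8 : SB8) : SB4 := by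
  classical
  intro G _ S hS hSg h1e k _ hpfs P hst HH hP H₀ hH₀ s hs
  obtain ⟨hinv, hcof, hconn⟩ := b1 G S hS hSg P HH hP s
  obtain ⟨r₁, hr₁⟩ := hconn hs
  obtain ⟨m₀, hm₀⟩ := b4_test a9 hS hSg hP hs
  refine ⟨m₀, fun m hm => ?_⟩
  obtain ⟨r, hr⟩ : ∃ r, r = max m r₁ := ⟨_, rfl⟩
  have hmr : m ≤ r := hr ▸ le_max_left _ _
  have hcr : CConn S (Yr S s HH) r := hr₁ r (hr ▸ le_max_right _ _)
  obtain ⟨n₂, hrn, hn₂⟩ := hst (Yr S s HH) hinv hcof ⟨r, hcr⟩ r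
  refine ⟨n₂, fun n hn => ?_⟩
  rintro ⟨φ, hcoc, hfin, ⟨c₀, y₀, hc₀, hy₀, hw₀, hJ₀⟩, H₁, hH₁, hz⟩
  obtain ⟨f, hf⟩ := hn₂ φ
    (fun x hx y hy z hz' h1 h2 h3 => hcoc x hx y hy z hz' (h1.trans hn) (h2.trans hn) (h3.trans hn))
    (hfin.subset fun p hp => ⟨hp.1, hp.2.1, hp.2.2.1.trans hn, hp.2.2.2⟩)
  have hrn' : r ≤ n := hrn.trans hn
  obtain ⟨N₀, hp₀, hq₀, hJ⟩ := b4_line hrn' hP.disj hfin hf hH₀ hc₀ hy₀ (hw₀.trans hmr)
  obtain ⟨a, ha⟩ : ∃ a, a = f (c₀ ^ (N₀ : ℤ) * y₀) := ⟨_, rfl⟩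
  obtain ⟨b, hb⟩ : ∃ b, b = f (c₀ ^ (-(N₀ : ℤ)) * y₀) := ⟨_, rfl⟩
  rw [← ha] at hp₀
  rw [← hb] at hq₀
  rw [← ha, ← hb] at hJ
  have hab : a ≠ b := by
    intro h
    rw [h, sub_self] at hJ
    exact hJ₀ hJ
  obtain ⟨E, hE⟩ : ∃ E : Set G, E = {x | x ∈ Yr S s HH ∧ f x = a} := ⟨_, rfl⟩
  have hmE : ∀ x, x ∈ E ↔ (x ∈ Yr S s HH ∧ f x = a) := fun x => by rw [hE]; rfl
  have hEs : E ⊆ Yr S s HH := fun x hx => ((hmE x).1 hx).1
  have hFb : FinBd S (Yr S s HH) r E := by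
    refine hfin.subset ?_
    rintro ⟨x, y⟩ ⟨h1, h2, h3, h4, h5⟩
    refine ⟨h1, h2, h3.trans hrn', ?_⟩
    show φ x y ≠ 0
    rw [hf x h1 y h2 h3]
    intro h6
    apply h5
    refine (hmE y).2 ⟨h2, ?_⟩
    rw [← ((hmE x).1 h4).2]
    exact sub_eq_zero.1 h6
  have hFR : ∀ R, FinBd S (Yr S s HH) R E := b0a G S hS hSg P _ hinv hcof r hcr E hFb
  have hin₀ : ∀ i : ℤ, c₀ ^ i * y₀ ∈ Yr S s HH :=
    fun i => b4_sub hP.disj hH₀ (b4_strip hc₀ hy₀ i)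
  have hE1 : ∀ i : ℤ, (N₀ : ℤ) ≤ i → c₀ ^ i * y₀ ∈ E := fun i hi =>
    (hmE _).2 ⟨hin₀ i, hp₀ i hi⟩
  have hE2 : ∀ i : ℤ, i ≤ -(N₀ : ℤ) → c₀ ^ i * y₀ ∉ E := by
    intro i hi h
    have h1 := ((hmE _).1 h).2
    rw [hq₀ i hi] at h1
    exact hab h1.symm
  have hSep₀ : Sep S s H₀ E :=
    (b0b G S hS hSg P HH hP s E hFR H₀ hH₀ c₀ y₀ hc₀ hy₀).2.2.1.2
      (Or.inl ⟨⟨N₀, hE1⟩, ⟨-(N₀ : ℤ), hE2⟩⟩)
  have hSep : ∀ H ∈ HH, Sep S s H E → H = H₀ ∨ H = H₁ := by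
    intro H hH hsep
    by_contra hne
    rw [not_or] at hne
    obtain ⟨c, y, hc, hy, hw⟩ := hm₀ H hH
    have hwm : wdist S y (c * y) ≤ m := hw.trans hm
    obtain ⟨N, hp, hq, hJ1⟩ := b4_line hrn' hP.disj hfin hf hH hc hy (hwm.trans hmr)
    have hJ0 : Jp c y φ = 0 := hz H hH hne.1 hne.2 c y hc hy hwm
    rw [hJ0] at hJ1
    have hEq : f (c ^ (N : ℤ) * y) = f (c ^ (-(N : ℤ)) * y) := (sub_eq_zero.1 hJ1.symm)
    have hin : ∀ i : ℤ, c ^ i * y ∈ Yr S s HH := fun i => b4_sub hP.disj hH (b4_strip hc hy i)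
    have hiff : ∀ i j : ℤ, (N : ℤ) ≤ i → j ≤ -(N : ℤ) → (c ^ i * y ∈ E ↔ c ^ j * y ∈ E) := by
      intro i j hi hj
      rw [hmE, hmE, hp i hi, hq j hj, hEq]
      exact ⟨fun h => ⟨hin j, h.2⟩, fun h => ⟨hin i, h.2⟩⟩
    have h1 := (b0b G S hS hSg P HH hP s E hFR H hH c y hc hy).2.2.1.1 hsep
    rcases h1 with ⟨⟨i₀, h2⟩, j₀, h3⟩ | ⟨⟨i₀, h2⟩, j₀, h3⟩
    · exact h3 (min j₀ (-(N : ℤ))) (min_le_left _ _)
        ((hiff (max i₀ N) _ (le_max_right _ _) (min_le_right _ _)).1 (h2 _ (le_max_left _ _)))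
    · exact h2 (max i₀ N) (le_max_left _ _)
        ((hiff _ (min j₀ (-(N : ℤ))) (le_max_right _ _) (min_le_right _ _)).2
          (h3 _ (min_le_left _ _)))
  have hkey : H₁ ≠ H₀ ∧ Sep S s H₁ E := by
    by_contra hno
    have h1 : ∀ H ∈ HH, Sep S s H E → H = H₀ := by
      intro H hH hsep
      rcases hSep H hH hsep with h | h
      · exact h
      · by_contra h2
        exact hno ⟨fun h3 => h2 (h.trans h3), h ▸ hsep⟩
    rcases b8 G S hS hSg h1e k hpfs P HH hP s r hs hcr E hEs hFb ⟨H₀, h1⟩ with h2 | h2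
    · have h3 : Set.Infinite ((fun i : ℤ => c₀ ^ i * y₀) '' Set.Ici (N₀ : ℤ)) :=
        (Set.Ici_infinite _).image (b4_inj hc₀ y₀).injOn
      exact h3 (h2.subset (by rintro _ ⟨i, hi, rfl⟩; exact hE1 i hi))
    · have h3 : Set.Infinite ((fun i : ℤ => c₀ ^ i * y₀) '' Set.Iic (-(N₀ : ℤ))) :=
        (Set.Iic_infinite _).image (b4_inj hc₀ y₀).injOn
      exact h3 (h2.subset (by rintro _ ⟨i, hi, rfl⟩; exact ⟨hin₀ i, hE2 i hi⟩))
  exact ⟨r, E, hs, hcr, hEs, hFb, H₀, hH₀, H₁, hH₁, hkey.1.symm, fun H hH =>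
    ⟨hSep H hH, by
      rintro (h | h)
      · rw [h]
        exact hSep₀
      · rw [h]
        exact hkey.2⟩⟩

end Pool.Agent.QF
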