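import Pool.Agent.QF.Stm

/-!
# MP_bbdce3_al, project QD, row B6: equivariant generators and lines
-/

set_option autoImplicit false

namespace Pool.Agent.QF

open Pool.Agent.QIS Pool.Agent.QD

section

variable {G : Type} [Group G] {S : Set G}

private theorem b6_tl_mul (g h : G) (H : Set G) : tl (g * h) H = tl g (tl h H) := by
  ext x
  show (g * h)⁻¹ * x ∈ H ↔ h⁻¹ * (g⁻¹ * x) ∈ H
  rw [mul_inv_rev, mul_assoc]

private theorem b6_tl_one (H : Set G) : tl 1 H = H := by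
  ext x
  show (1 : G)⁻¹ * x ∈ H ↔ x ∈ H
  rw [inv_one, one_mul]

private theorem b6_tl_inv {g : G} {H H' : Set G} (h : tl g H = H') : tl g⁻¹ H' = H := by
  rw [← h, ← b6_tl_mul, inv_mul_cancel, b6_tl_one]

private theorem b6_tl_mem (g : G) (H : Set G) (x : G) : g * x ∈ tl g H ↔ x ∈ H := by
  show g⁻¹ * (g * x) ∈ H ↔ x ∈ H
  rw [inv_mul_cancel_left]

private theorem b6_inv_of_tl {g : G} {H : Set G} (h : tl g H = H) (x : G) :
    g * x ∈ H ↔ x ∈ H := by
  conv_lhs => rw [← h]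
  exact b6_tl_mem g H x

private theorem b6_tl_of_inv {g : G} {H : Set G} (h : ∀ x, g * x ∈ H ↔ x ∈ H) : tl g H = H := by
  ext x
  show g⁻¹ * x ∈ H ↔ x ∈ H
  rw [← h (g⁻¹ * x), mul_inv_cancel_left]

private theorem b6_pair (hSg : Subgroup.closure S = ⊤) {H : Set G} {x y : G} (hx : x ∈ H)
    (hy : y ∉ H) : ∃ u ∈ H, ∃ v, v ∉ H ∧ wdist S u v ≤ 1 := by
  have key : ∀ l : List G, (∀ a ∈ l, a ∈ S ∨ a⁻¹ ∈ S) → ∀ z : G, z ∈ H → z * l.prod ∉ H →
      ∃ u ∈ H, ∃ v, v ∉ H ∧ wdist S u v ≤ 1 := by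
    intro l
    induction l with
    | nil =>
      intro _ z hz hz'
      rw [List.prod_nil, mul_one] at hz'
      exact absurd hz hz'
    | cons s l ih =>
      intro hl z hz hz'
      rw [List.prod_cons, ← mul_assoc] at hz'
      by_cases h : z * s ∈ H
      · exact ih (fun a ha => hl a (List.mem_cons_of_mem _ ha)) (z * s) h hz'
      · exact ⟨z, hz, z * s, h, q6_gen (hl s List.mem_cons_self) z⟩
  obtain ⟨l, hl, hp, _⟩ := q6_exists_word hSg (x⁻¹ * y)
  refine key l hl x hx ?_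
  rw [hp, mul_inv_cancel_left]
  exact hy

private theorem b6_strip (hSg : Subgroup.closure S = ⊤) {H : Set G} {c : G} (hH : HS S H c) :
    ∃ y, y ∈ Strip S 1 H := by
  obtain ⟨x, hx, _⟩ := hH.deep ∅ Set.finite_empty
  obtain ⟨y, hy, _⟩ := hH.deep' ∅ Set.finite_empty
  obtain ⟨u, hu, v, hv, huv⟩ := b6_pair hSg hx hy
  exact ⟨u, hu, v, hv, huv⟩

private theorem b6_strip_tl {s : ℕ} {H : Set G} (g : G) {y : G} (hy : y ∈ Strip S s H) :
    g * y ∈ Strip S s (tl g H) := by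
  obtain ⟨h1, v, hv, hd⟩ := hy
  refine ⟨(b6_tl_mem g H y).2 h1, g * v, fun h => hv ((b6_tl_mem g H v).1 h), ?_⟩
  rw [wdist_mul_left]
  exact hd

/-- deep points for a root -/
private theorem b6_deep {e : G} {n : ℕ} (hn : 0 < n) {D : Set G}
    (h : ∀ F : Set G, F.Finite → ∃ x ∈ D, ∀ i : ℤ, (e ^ n) ^ i * x ∉ F) (F : Set G)
    (hF : F.Finite) : ∃ x ∈ D, ∀ i : ℤ, e ^ i * x ∉ F := by
  obtain ⟨x, hx, hxF⟩ := h (Set.image2 (fun (j : ℤ) f => e ^ (-j) * f) (Set.Ico 0 (n : ℤ)) F)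
    ((Set.finite_Ico _ _).image2 _ hF)
  refine ⟨x, hx, fun i hi => ?_⟩
  apply hxF (i / n)
  have hn' : (0 : ℤ) < n := by exact_mod_cast hn
  refine ⟨i % n, ⟨Int.emod_nonneg _ hn'.ne', Int.emod_lt_of_pos _ hn'⟩, e ^ i * x, hi, ?_⟩
  show e ^ (-(i % (n : ℤ))) * (e ^ i * x) = (e ^ n) ^ (i / (n : ℤ)) * x
  rw [← mul_assoc, ← zpow_add, ← zpow_natCast, ← zpow_mul]
  congr 2
  have := Int.emod_add_mul_ediv i n
  omega

/-- a root of the translation of a half-space -/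
private theorem b6_root {H : Set G} {e : G} {n : ℕ} (hn : 0 < n) (hH : HS S H (e ^ n))
    (he : ∀ x, e * x ∈ H ↔ x ∈ H) : HS S H e where
  ord := by
    intro k hk h1
    apply hH.ord k hk
    rw [← pow_mul, mul_comm, pow_mul, h1, one_pow]
  inv := he
  bd := by
    intro N
    obtain ⟨F, hF, h⟩ := hH.bd N
    refine ⟨F, hF, fun x y hxy hx hy => ?_⟩
    obtain ⟨i, hi⟩ := h x y hxy hx hy
    refine ⟨n * i, ?_⟩
    rw [zpow_mul, zpow_natCast]
    exact hi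
  deep := fun F hF => b6_deep (D := H) hn (fun F hF => hH.deep F hF) F hF
  deep' := by
    intro F hF
    obtain ⟨x, hx, h⟩ := b6_deep (D := Hᶜ) hn (fun F hF => by
      obtain ⟨x, hx, h⟩ := hH.deep' F hF
      exact ⟨x, hx, h⟩) F hF
    exact ⟨x, hx, h⟩

/-- the stabilizer of a set in a subgroup -/
private def b6C (P : Subgroup G) (H : Set G) : Subgroup G where
  carrier := {p | p ∈ P ∧ tl p H = H}
  mul_mem' := by
    rintro a b ⟨h1, h2⟩ ⟨h3, h4⟩
    refine ⟨P.mul_mem h1 h3, ?_⟩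
    rw [b6_tl_mul, h4, h2]
  one_mem' := ⟨P.one_mem, b6_tl_one H⟩
  inv_mem' := by
    rintro a ⟨h1, h2⟩
    exact ⟨P.inv_mem h1, b6_tl_inv h2⟩

/-- the generator of the stabilizer of a half-space -/
private theorem b6_gen (a9 : SA9) (b5 : SB5) (hS : S.Finite) (hSg : Subgroup.closure S = ⊤)
    {P : Subgroup G} (hT : QE.TFs P) {H : Set G} {c : G} (hcP : c ∈ P) (hc : HS S H c) :
    ∃ e ∈ P, HS S H e ∧ tl e H = H ∧ ∀ p ∈ P, tl p H = H → ∃ j : ℤ, e ^ j = p := by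
  obtain ⟨_, _, _, _, h5⟩ := a9 G S hS hSg H c hc
  have hcC : c ∈ b6C P H := ⟨hcP, b6_tl_of_inv hc.inv⟩
  have hTE := h5 (b6C P H) hcC (fun g hg => hg.2)
  have hTF : TF (b6C P H) := by
    intro g hg n hn h1
    apply hT (g : G) g.2.1 (fun h => hg (Subtype.ext h)) n hn
    have := congrArg (Subtype.val) h1
    simpa using this
  obtain ⟨e, he⟩ := b5 (b6C P H) hTF hTE
  have hgen : ∀ p ∈ P, tl p H = H → ∃ j : ℤ, (e : G) ^ j = p := by
    intro p hp hpH
    obtain ⟨j, hj⟩ := Subgroup.mem_zpowers_iff.1 (he ⟨p, hp, hpH⟩)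
    refine ⟨j, ?_⟩
    have := congrArg Subtype.val hj
    simpa using this
  have heP : (e : G) ∈ P := e.2.1
  have heH : tl (e : G) H = H := e.2.2
  obtain ⟨m, hm⟩ := hgen c hcP (b6_tl_of_inv hc.inv)
  have hm0 : m ≠ 0 := by
    rintro rfl
    rw [zpow_zero] at hm
    apply hc.ord 1 Nat.one_pos
    rw [← hm, one_pow]
  have hroot : HS S H (e : G) := by
    rcases lt_or_gt_of_ne hm0 with h | h
    · have h2 := (a9 G S hS hSg H c hc).2.1
      have e1 : c⁻¹ = (e : G) ^ (m.natAbs) := by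
        rw [← hm, ← zpow_neg, ← zpow_natCast]
        congr 1
        omega
      rw [e1] at h2
      exact b6_root (by omega) h2 (b6_inv_of_tl heH)
    · have e1 : c = (e : G) ^ (m.natAbs) := by
        rw [← hm, ← zpow_natCast]
        congr 1
        omega
      rw [e1] at hc
      exact b6_root (by omega) hc (b6_inv_of_tl heH)
  exact ⟨e, heP, hroot, heH, hgen⟩

open Classical in
/-- a choice of a member -/
private noncomputable def b6pick (X : Set (Set G)) : Set G := if h : X.Nonempty then h.some else ∅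

private theorem b6pick_mem {X : Set (Set G)} (h : X.Nonempty) : b6pick X ∈ X := by
  rw [b6pick, dif_pos h]
  exact h.some_mem

end

/-- B6: equivariant generators and lines -/
theorem sb6 (a9 : SA9) (b5 : SB5) : SB6 := by
  intro G _ S hS hSg P hT HH hP
  obtain ⟨rep, hrep⟩ : ∃ rep : Set G → Set G,
      ∀ H, rep H = b6pick {H' | ∃ p ∈ P, tl p H' = H} := ⟨_, fun _ => rfl⟩
  have hrep1 : ∀ p ∈ P, ∀ H, rep (tl p H) = rep H := by
    intro p hp H
    rw [hrep, hrep]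
    congr 1
    ext H'
    constructor
    · rintro ⟨q, hq, h⟩
      refine ⟨p⁻¹ * q, P.mul_mem (P.inv_mem hp) hq, ?_⟩
      rw [b6_tl_mul, h]
      exact b6_tl_inv rfl
    · rintro ⟨q, hq, h⟩
      refine ⟨p * q, P.mul_mem hp hq, ?_⟩
      rw [b6_tl_mul, h]
  have hrep2 : ∀ H, ∃ q ∈ P, tl q (rep H) = H := by
    intro H
    have h := b6pick_mem (X := {H' | ∃ p ∈ P, tl p H' = H}) ⟨H, 1, P.one_mem, b6_tl_one H⟩
    rw [← hrep] at h
    exact h
  choose q hqP hq using hrep2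
  have hch : ∀ H : Set G, ∃ (e y : G), e ∈ P ∧ (H ∈ HH → HS S H e ∧ tl e H = H ∧
      (∀ p ∈ P, tl p H = H → ∃ j : ℤ, e ^ j = p) ∧ y ∈ Strip S 1 H) := by
    intro H
    by_cases h : H ∈ HH
    · obtain ⟨c, hcP, hc⟩ := hP.hs H h
      obtain ⟨e, heP, h1, h2, h3⟩ := b6_gen a9 b5 hS hSg hT hcP hc
      obtain ⟨y, hy⟩ := b6_strip hSg h1
      exact ⟨e, y, heP, fun _ => ⟨h1, h2, h3, hy⟩⟩
    · exact ⟨1, 1, P.one_mem, fun h' => absurd h' h⟩
  choose e y heP he using hch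
  refine ⟨fun H => ⟨q H * e (rep H) * (q H)⁻¹,
    P.mul_mem (P.mul_mem (hqP H) (heP _)) (P.inv_mem (hqP H))⟩,
    fun H => {x | ∃ i : ℤ, x = q H * (e (rep H)) ^ i * y (rep H)}, ?_⟩
  intro H hH
  have hR : rep H ∈ HH := by
    have h := hP.inv (q H)⁻¹ (P.inv_mem (hqP H)) H hH
    rwa [b6_tl_inv (hq H)] at h
  obtain ⟨h1, h2, h3, h4⟩ := he (rep H) hR
  have hqe : ∀ p ∈ P, ∃ j : ℤ, q (tl p H) = p * q H * (e (rep H)) ^ j := by
    intro p hp
    have h5 := hq (tl p H)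
    rw [hrep1 p hp H] at h5
    obtain ⟨j, hj⟩ := h3 ((q H)⁻¹ * p⁻¹ * q (tl p H))
      (P.mul_mem (P.mul_mem (P.inv_mem (hqP H)) (P.inv_mem hp)) (hqP _)) (by
        rw [b6_tl_mul, h5, b6_tl_mul, b6_tl_inv (rfl : tl p H = tl p H)]
        exact b6_tl_inv (hq H))
    refine ⟨j, ?_⟩
    rw [hj]
    group
  refine ⟨?_, ?_, ?_, ?_, ?_⟩
  · have h5 := (a9 G S hS hSg (rep H) (e (rep H)) h1).2.2.2.1 (q H)
    rw [hq H] at h5
    exact h5
  · intro p hpH
    obtain ⟨j, hj⟩ := h3 ((q H)⁻¹ * p * q H)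
      (P.mul_mem (P.mul_mem (P.inv_mem (hqP H)) p.2) (hqP H)) (by
        rw [b6_tl_mul, hq H, b6_tl_mul, hpH]
        exact b6_tl_inv (hq H))
    rw [Subgroup.mem_zpowers_iff]
    refine ⟨j, ?_⟩
    apply Subtype.ext
    rw [Subgroup.coe_zpow]
    show (q H * e (rep H) * (q H)⁻¹) ^ j = (p : G)
    rw [conj_zpow, hj]
    group
  · intro p
    apply Subtype.ext
    show q (tl (p : G) H) * e (rep (tl (p : G) H)) * (q (tl (p : G) H))⁻¹ =
      (p : G) * (q H * e (rep H) * (q H)⁻¹) * (p : G)⁻¹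
    rw [hrep1 p p.2 H]
    obtain ⟨j, hj⟩ := hqe p p.2
    rw [hj]
    have e1 : e (rep H) ^ j * e (rep H) * (e (rep H) ^ j)⁻¹ = e (rep H) := by
      rw [mul_inv_eq_iff_eq_mul, ← zpow_add_one, ← zpow_one_add, add_comm]
    calc (p : G) * q H * e (rep H) ^ j * e (rep H) * ((p : G) * q H * e (rep H) ^ j)⁻¹
        = (p : G) * q H * (e (rep H) ^ j * e (rep H) * (e (rep H) ^ j)⁻¹) *
          ((p : G) * q H)⁻¹ := by group
      _ = (p : G) * (q H * e (rep H) * (q H)⁻¹) * (p : G)⁻¹ := by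
          rw [e1]
          group
  · refine ⟨q H * y (rep H), ?_, ?_⟩
    · have h5 := b6_strip_tl (q H) h4
      rw [hq H] at h5
      exact h5
    · ext x
      show (∃ i : ℤ, x = q H * e (rep H) ^ i * y (rep H)) ↔
        ∃ i : ℤ, x = (q H * e (rep H) * (q H)⁻¹) ^ i * (q H * y (rep H))
      have e1 : ∀ i : ℤ, (q H * e (rep H) * (q H)⁻¹) ^ i * (q H * y (rep H)) =
          q H * e (rep H) ^ i * y (rep H) := by
        intro i
        rw [conj_zpow]
        group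
      simp only [e1]
  · intro p
    obtain ⟨j, hj⟩ := hqe p p.2
    ext x
    show (∃ i : ℤ, x = q (tl (p : G) H) * e (rep (tl (p : G) H)) ^ i *
      y (rep (tl (p : G) H))) ↔ ∃ i : ℤ, (p : G)⁻¹ * x = q H * e (rep H) ^ i * y (rep H)
    rw [hrep1 p p.2 H, hj]
    constructor
    · rintro ⟨i, hi⟩
      refine ⟨j + i, ?_⟩
      rw [hi, zpow_add]
      group
    · rintro ⟨i, hi⟩
      refine ⟨-j + i, ?_⟩
      rw [inv_mul_eq_iff_eq_mul] at hi
      rw [hi, zpow_add]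
      group

end Pool.Agent.QF
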