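import Pool.Agent.QF.Stm
import Pool.Agent.QD.A7a
import Pool.Agent.QD.A4
import Pool.Agent.H67.Q.Ends

/-!
# Project QD (MP_bbdce3), B8: a cut that crosses at most one line is trivial
-/

set_option autoImplicit false

namespace Pool.Agent.QF

open Pool.Agent.QIS Pool.Agent.QD

section

variable {G : Type} [Group G] {S : Set G} {P : Subgroup G} {HH : Set (Set G)} {s : ℕ}

theorem b8_dp {H : Set G} {x : G} (hx : x ∈ Dp S s H) : x ∈ H := by
  by_contra h
  have h1 := hx x h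
  rw [wdist_self] at h1
  omega

/-- the strips lie in the region -/
theorem b8_strip (hP : Piece S P HH) {H : Set G} (hH : H ∈ HH) {z : G} (hz : z ∈ Strip S s H) :
    z ∈ Yr S s HH := by
  intro H' hH' h
  obtain ⟨hzH, y, hy, hzy⟩ := hz
  by_cases e : H = H'
  · subst e
    have := h y hy
    omega
  · exact Set.disjoint_left.1 (hP.disj H hH H' hH' e) hzH (b8_dp h)

/-- leaving the deep part -/
theorem b8_leave (hSg : Subgroup.closure S = ⊤) (hs : 1 ≤ s) {H : Set G} {n : ℕ} {x y : G}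
    (hx : x ∈ Dp S s H) (hy : y ∉ Dp S s H) (hxy : wdist S x y ≤ n) :
    ∃ z ∈ Strip S s H, wdist S x z ≤ n := by
  by_contra hne
  apply hy
  refine a7_path hSg x n (fun v => v ∈ Dp S s H) (fun a b hab _ hb ha => ?_) hx y hxy
  by_contra hbD
  apply hne
  refine ⟨b, ⟨?_, ?_⟩, hb⟩
  · by_contra hbH
    have := ha b hbH
    omega
  · have hbD' : ¬ ∀ z, z ∉ H → s < wdist S b z := hbD
    push Not at hbD'
    obtain ⟨z, hz, h⟩ := hbD'
    exact ⟨z, hz, h⟩

/-- the extension of the cut over the half-spaces -/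
def b8E (S : Set G) (s : ℕ) (HH : Set (Set G)) (E : Set G) (v : Set G → Prop) : Set G :=
  {x | x ∈ E ∨ ∃ H ∈ HH, x ∈ Dp S s H ∧ v H}

theorem b8E_Y {E : Set G} {v : Set G → Prop} {x : G} (hx : x ∈ Yr S s HH) :
    x ∈ b8E S s HH E v ↔ x ∈ E :=
  ⟨fun h => h.elim id fun ⟨H, hH, h1, _⟩ => absurd h1 (hx H hH), fun h => Or.inl h⟩

theorem b8E_D (hP : Piece S P HH) {E : Set G} (hE : E ⊆ Yr S s HH) {v : Set G → Prop} {x : G}
    {H : Set G} (hH : H ∈ HH) (hx : x ∈ Dp S s H) : x ∈ b8E S s HH E v ↔ v H := by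
  constructor
  · rintro (h | ⟨H', hH', h1, h2⟩)
    · exact absurd hx (hE h H hH)
    · by_cases e : H = H'
      · rw [e]
        exact h2
      · exact absurd (b8_dp h1) (Set.disjoint_left.1 (hP.disj H hH H' hH' e) (b8_dp hx))
  · exact fun h => Or.inr ⟨H, hH, hx, h⟩

theorem b8_star (hSg : Subgroup.closure S = ⊤) (hP : Piece S P HH) (hs : 1 ≤ s) {E : Set G}
    (hE : E ⊆ Yr S s HH) {v : Set G → Prop} {Z : Set G}
    (hZ : ∀ H ∈ HH, ¬ Sep S s H E → ∀ z ∈ Strip S s H, ¬ (z ∈ E ↔ v H) → z ∈ Z) {n : ℕ} {x y : G}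
    (hx : ∀ H ∈ HH, Sep S s H E → x ∉ H) (hxy : wdist S x y ≤ n)
    (hne : ¬ (x ∈ b8E S s HH E v ↔ y ∈ b8E S s HH E v)) :
    (∃ z ∈ Z, wdist S z x ≤ n) ∨
      ∃ x' ∈ Yr S s HH, wdist S x x' ≤ n ∧ (x' ∈ E ↔ x ∈ b8E S s HH E v) := by
  by_cases hxY : x ∈ Yr S s HH
  · exact Or.inr ⟨x, hxY, by rw [wdist_self]; exact Nat.zero_le _, (b8E_Y hxY).symm⟩
  · have h1 : ∃ H ∈ HH, x ∈ Dp S s H := by
      by_contra h
      apply hxY
      intro H hH h2
      exact h ⟨H, hH, h2⟩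
    obtain ⟨H, hH, hxD⟩ := h1
    have hsep : ¬ Sep S s H E := fun h => hx H hH h (b8_dp hxD)
    have hyD : y ∉ Dp S s H := by
      intro h
      apply hne
      rw [b8E_D hP hE hH hxD, b8E_D hP hE hH h]
    obtain ⟨z, hz, hxz⟩ := b8_leave hSg hs hxD hyD hxy
    by_cases hzv : z ∈ E ↔ v H
    · refine Or.inr ⟨z, b8_strip hP hH hz, hxz, ?_⟩
      rw [b8E_D hP hE hH hxD]
      exact hzv
    · exact Or.inl ⟨z, hZ H hH hsep z hz hzv, by rw [wdist_comm hSg]; exact hxz⟩

/-- the extension has finite boundary away from the separated half-spaces -/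
theorem b8_claim (hS : S.Finite) (hSg : Subgroup.closure S = ⊤) (hP : Piece S P HH) (hs : 1 ≤ s)
    {E : Set G} (hE : E ⊆ Yr S s HH) (hfb : ∀ R, FinBd S (Yr S s HH) R E) {v : Set G → Prop}
    {Z : Set G} (hZf : Z.Finite)
    (hZ : ∀ H ∈ HH, ¬ Sep S s H E → ∀ z ∈ Strip S s H, ¬ (z ∈ E ↔ v H) → z ∈ Z) (n : ℕ) :
    {p : G × G | (∀ H ∈ HH, Sep S s H E → p.1 ∉ H) ∧ (∀ H ∈ HH, Sep S s H E → p.2 ∉ H) ∧
      wdist S p.1 p.2 ≤ n ∧ ¬ (p.1 ∈ b8E S s HH E v ↔ p.2 ∈ b8E S s HH E v)}.Finite := by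
  have hball : ∀ (x : G) (m : ℕ), {y | wdist S x y ≤ m}.Finite := fun x m =>
    ball_finite hS hSg x m
  have h1 : (⋃ z ∈ Z, {x | wdist S z x ≤ 2 * n} ×ˢ {x | wdist S z x ≤ 2 * n}).Finite :=
    hZf.biUnion fun z _ => (hball _ _).prod (hball _ _)
  set B : Set (G × G) := {p : G × G | p.1 ∈ Yr S s HH ∧ p.2 ∈ Yr S s HH ∧
    wdist S p.1 p.2 ≤ 3 * n ∧ p.1 ∈ E ∧ p.2 ∉ E} with hB
  have hBf : B.Finite := hfb (3 * n)
  have h2 : (⋃ p ∈ B, {x | wdist S (p : G × G).1 x ≤ n} ×ˢ {x | wdist S p.2 x ≤ n}).Finite :=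
    hBf.biUnion fun z _ => (hball _ _).prod (hball _ _)
  have h3 : (⋃ p ∈ B, {x | wdist S (p : G × G).2 x ≤ n} ×ˢ {x | wdist S p.1 x ≤ n}).Finite :=
    hBf.biUnion fun z _ => (hball _ _).prod (hball _ _)
  refine ((h1.union h2).union h3).subset ?_
  rintro ⟨x, y⟩ ⟨hx, hy, hxy, hne⟩
  have hx : ∀ H ∈ HH, Sep S s H E → x ∉ H := hx
  have hy : ∀ H ∈ HH, Sep S s H E → y ∉ H := hy
  have hxy : wdist S x y ≤ n := hxy
  have hne : ¬ (x ∈ b8E S s HH E v ↔ y ∈ b8E S s HH E v) := hne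
  have hyx : wdist S y x ≤ n := by rw [wdist_comm hSg]; exact hxy
  rcases b8_star hSg hP hs hE hZ hx hxy hne with ⟨z, hz, hzx⟩ | ⟨x', hx', hxx, hxE⟩
  · refine Or.inl (Or.inl (Set.mem_biUnion hz ⟨?_, ?_⟩))
    · show wdist S z x ≤ 2 * n
      omega
    · show wdist S z y ≤ 2 * n
      have := wdist_triangle hSg z x y
      omega
  · rcases b8_star hSg hP hs hE hZ hy hyx (fun h => hne h.symm) with
      ⟨z, hz, hzy⟩ | ⟨y', hy', hyy, hyE⟩
    · refine Or.inl (Or.inl (Set.mem_biUnion hz ⟨?_, ?_⟩))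
      · show wdist S z x ≤ 2 * n
        have := wdist_triangle hSg z y x
        omega
      · show wdist S z y ≤ 2 * n
        omega
    · have hd : wdist S x' y' ≤ 3 * n := by
        have e1 := wdist_triangle hSg x' x y'
        have e2 := wdist_triangle hSg x y y'
        rw [wdist_comm hSg x' x] at e1
        omega
      have hd' : wdist S y' x' ≤ 3 * n := by rw [wdist_comm hSg]; exact hd
      have hx'x : wdist S x' x ≤ n := by rw [wdist_comm hSg]; exact hxx
      have hy'y : wdist S y' y ≤ n := by rw [wdist_comm hSg]; exact hyy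
      by_cases e1 : x' ∈ E
      · by_cases e2 : y' ∈ E
        · exact absurd ⟨fun _ => hyE.1 e2, fun _ => hxE.1 e1⟩ hne
        · exact Or.inl (Or.inr (Set.mem_biUnion (x := (x', y')) ⟨hx', hy', hd, e1, e2⟩
            ⟨hx'x, hy'y⟩))
      · by_cases e2 : y' ∈ E
        · exact Or.inr (Set.mem_biUnion (x := (y', x')) ⟨hy', hx', hd', e2, e1⟩
            ⟨hx'x, hy'y⟩)
        · exact absurd ⟨fun h => absurd (hxE.2 h) e1, fun h => absurd (hyE.2 h) e2⟩ hne

/-- a sequence without finite repetition leaves a finite set -/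
theorem b8_leave_fin {X : Type} {f : ℤ → X} (hf : Function.Injective f) {F : Set X}
    (hF : F.Finite) : ∃ N : ℤ, 0 ≤ N ∧ ∀ i, N ≤ i → f i ∉ F ∧ f (-i) ∉ F := by
  have h1 : (f ⁻¹' F).Finite := hF.preimage hf.injOn
  obtain ⟨N, hN⟩ := (h1.image fun i => |i|).bddAbove
  refine ⟨max N 0 + 1, by omega, fun i hi => ⟨fun h => ?_, fun h => ?_⟩⟩
  · have := hN ⟨i, h, rfl⟩
    have h2 := le_abs_self i
    simp only at this
    omega
  · have := hN ⟨-i, h, rfl⟩
    have h2 := le_abs_self i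
    rw [← abs_neg] at h2
    simp only at this
    omega

end

theorem sb8 (a4 : SA4) (a9 : SA9) (b0a : SB0a) (b0b : SB0b) (b0c : SB0c) (b1 : SB1) :
    SB8 := by
  classical
  intro G _ S hS hSg hone k _ hSt P HH hP s r hs hc E hE hfb hsep
  obtain ⟨hInv, hCof, -⟩ := b1 G S hS hSg P HH hP s
  have hfb' : ∀ R, FinBd S (Yr S s HH) R E := b0a G S hS hSg P _ hInv hCof r hc E hfb
  have hb := b0b G S hS hSg P HH hP s E hfb'
  -- the values on the strips
  have hv : ∀ H : Set G, ∃ v : Prop, H ∈ HH → ¬ Sep S s H E →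
      {z | z ∈ Strip S s H ∧ ¬ (z ∈ E ↔ v)}.Finite ∧
      (¬ ((∃ z ∈ Strip S s H, z ∈ E) ∧ ∃ z ∈ Strip S s H, z ∉ E) →
        ∀ z ∈ Strip S s H, (z ∈ E ↔ v)) := by
    intro H
    by_cases h1 : ∀ z ∈ Strip S s H, z ∈ E
    · refine ⟨True, fun _ _ => ⟨?_, fun _ z hz => iff_true_intro (h1 z hz)⟩⟩
      convert Set.finite_empty
      ext z
      simp only [iff_true, Set.mem_ofPred_eq, Set.mem_empty_iff_false, iff_false, not_and, not_not]
      exact h1 z
    · by_cases h2 : ∀ z ∈ Strip S s H, z ∉ E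
      · refine ⟨False, fun _ _ => ⟨?_, fun _ z hz => iff_false_intro (h2 z hz)⟩⟩
        convert Set.finite_empty
        ext z
        simp only [iff_false, not_not, Set.mem_ofPred_eq, Set.mem_empty_iff_false, not_and]
        exact h2 z
      · push Not at h1 h2
        by_cases hH : H ∈ HH
        · by_cases hs' : Sep S s H E
          · exact ⟨True, fun _ h => absurd hs' h⟩
          · obtain ⟨c, _, hHS⟩ := hP.hs H hH
            obtain ⟨y, hy⟩ := a4_strip hSg hHS
            have h3 := (hb H hH c y hHS (a4_strip_mono hs hy)).2.2.2 hs'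
            rcases h3 with h3 | h3
            · refine ⟨False, fun _ _ => ⟨h3.subset ?_, fun h => absurd ⟨h2, h1⟩ h⟩⟩
              rintro z ⟨hz, hzE⟩
              rw [iff_false, not_not] at hzE
              exact ⟨hz, hzE⟩
            · refine ⟨True, fun _ _ => ⟨h3.subset ?_, fun h => absurd ⟨h2, h1⟩ h⟩⟩
              rintro z ⟨hz, hzE⟩
              rw [iff_true] at hzE
              exact ⟨hz, hzE⟩
        · exact ⟨True, fun h => absurd h hH⟩
  choose v hv using hv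
  set Z : Set G := {z | ∃ H ∈ HH, ¬ Sep S s H E ∧ z ∈ Strip S s H ∧ ¬ (z ∈ E ↔ v H)} with hZdef
  have hZf : Z.Finite := by
    have h1 := b0c G S hS hSg P HH hP s E hfb'
    have h2 : (⋃ H ∈ {H | H ∈ HH ∧ (∃ z ∈ Strip S s H, z ∈ E) ∧ ∃ z ∈ Strip S s H, z ∉ E},
        {z | z ∈ Strip S s H ∧ ¬ Sep S s H E ∧ ¬ (z ∈ E ↔ v H)}).Finite := by
      refine h1.biUnion fun H hH => ?_
      by_cases h3 : Sep S s H E
      · convert Set.finite_empty
        ext z
        simp only [Set.mem_ofPred_eq, Set.mem_empty_iff_false, iff_false]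
        rintro ⟨_, h, _⟩
        exact h h3
      · exact (hv H hH.1 h3).1.subset fun z hz => ⟨hz.1, hz.2.2⟩
    refine h2.subset ?_
    rintro z ⟨H, hH, h3, h4, h5⟩
    refine Set.mem_biUnion (x := H) ⟨hH, ?_⟩ ⟨h4, h3, h5⟩
    by_contra h6
    exact h5 ((hv H hH h3).2 h6 z h4)
  have hZ : ∀ H ∈ HH, ¬ Sep S s H E → ∀ z ∈ Strip S s H, ¬ (z ∈ E ↔ v H) → z ∈ Z :=
    fun H hH h1 z hz h2 => ⟨H, hH, h1, hz, h2⟩
  have hclaim := b8_claim hS hSg hP hs hE hfb' hZf hZ
  by_cases hB : ∃ H₁ ∈ HH, Sep S s H₁ E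
  · -- one separated half-space: impossible
    exfalso
    obtain ⟨H₁, hH₁, hsep₁⟩ := hB
    obtain ⟨H', hH'⟩ := hsep
    have huniq : ∀ H ∈ HH, Sep S s H E → H = H₁ := fun H hH h =>
      (hH' H hH h).trans (hH' H₁ hH₁ hsep₁).symm
    obtain ⟨c, hcP, hHS⟩ := hP.hs H₁ hH₁
    obtain ⟨y, hy⟩ := a4_strip hSg hHS
    have hyS : y ∈ Strip S s H₁ := a4_strip_mono hs hy
    have hyY : y ∈ Yr S s HH := b8_strip hP hH₁ hyS
    obtain ⟨hyH, y', hy'H, hyy'⟩ := hyS
    have hyS : y ∈ Strip S s H₁ := a4_strip_mono hs hy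
    have hy'Y : y' ∈ Yr S s HH := by
      intro H hH h
      by_cases e : H = H₁
      · subst e
        exact hy'H (b8_dp h)
      · have h1 : y ∉ H := fun h2 => Set.disjoint_left.1 (hP.disj H hH H₁ hH₁ e) h2 hyH
        have h2 := h y h1
        rw [wdist_comm hSg] at h2
        omega
    have hcz : ∀ i : ℤ, c ^ i ∈ P := fun i => P.zpow_mem hcP i
    have hY' : ∀ i : ℤ, c ^ i * y' ∈ Yr S s HH := fun i => hInv _ (hcz i) _ hy'Y
    have hY : ∀ i : ℤ, c ^ i * y ∈ Yr S s HH := fun i => hInv _ (hcz i) _ hyY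
    have hQ' : ∀ i : ℤ, c ^ i * y' ∉ H₁ := fun i h => hy'H ((a4_zpow hHS.inv i y').1 h)
    -- the cocycle on the complement
    have hHSc : HS S H₁ᶜ c := (a9 G S hS hSg H₁ c hHS).1
    have hpfs : PFS S k H₁ᶜ := a4 G S hS hSg k hSt _ c hHSc
    obtain ⟨n, hn, hprim⟩ := hpfs (wdist S y' (c * y'))
    obtain ⟨g, hgf, hg⟩ := hprim (fun a b => ind k (b8E S s HH E v) b - ind k (b8E S s HH E v) a)
      (fun a _ b _ d _ _ _ _ => by ring) (by
        refine (hclaim n).subset ?_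
        rintro ⟨a, b⟩ ⟨ha, hb', hab, h⟩
        refine ⟨fun H hH h1 h2 => ?_, fun H hH h1 h2 => ?_, hab, fun h3 => h ?_⟩
        · rw [huniq H hH h1] at h2
          exact ha h2
        · rw [huniq H hH h1] at h2
          exact hb' h2
        · have h3 : a ∈ b8E S s HH E v ↔ b ∈ b8E S s HH E v := h3
          show ind k (b8E S s HH E v) b - ind k (b8E S s HH E v) a = 0
          unfold ind
          by_cases h4 : a ∈ b8E S s HH E v
          · rw [if_pos h4, if_pos (h3.1 h4), sub_self]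
          · rw [if_neg h4, if_neg (fun h5 => h4 (h3.2 h5)), sub_self])
    -- the value along the outer line is constant
    have hstep : ∀ i : ℤ, ind k E (c ^ (i + 1) * y') - g (c ^ (i + 1) * y') =
        ind k E (c ^ i * y') - g (c ^ i * y') := by
      intro i
      have h1 : ind k (b8E S s HH E v) (c ^ (i + 1) * y') - ind k (b8E S s HH E v) (c ^ i * y') =
          g (c ^ (i + 1) * y') - g (c ^ i * y') :=
        hg (c ^ i * y') (hQ' i) (c ^ (i + 1) * y') (hQ' (i + 1)) (by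
          rw [zpow_add_one, mul_assoc, wdist_mul_left])
      have h2 : ∀ j : ℤ, ind k (b8E S s HH E v) (c ^ j * y') = ind k E (c ^ j * y') := by
        intro j
        unfold ind
        have h3 := b8E_Y (E := E) (v := v) (hY' j)
        by_cases h4 : c ^ j * y' ∈ E
        · rw [if_pos h4, if_pos (h3.2 h4)]
        · rw [if_neg h4, if_neg (fun h => h4 (h3.1 h))]
      rw [h2, h2] at h1
      linear_combination h1
    have hconst : ∀ i : ℤ, ind k E (c ^ i * y') - g (c ^ i * y') =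
        ind k E (c ^ (0 : ℤ) * y') - g (c ^ (0 : ℤ) * y') := by
      intro i
      induction i using Int.induction_on with
      | zero => rfl
      | succ n ih => rw [hstep, ih]
      | pred n ih =>
        rw [← ih, ← hstep (-(n : ℤ) - 1), sub_add_cancel]
    -- far out
    have hinj' := a4_inj hHS.ord y'
    have hinj := a4_inj hHS.ord y
    obtain ⟨N1, hN1, hg0⟩ := b8_leave_fin hinj' hgf
    have hdiff : {i : ℤ | ¬ (c ^ i * y ∈ E ↔ c ^ i * y' ∈ E)}.Finite := by
      have h1 := hfb' s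
      have hi1 : Function.Injective fun i : ℤ => (c ^ i * y, c ^ i * y') := fun i j h =>
        hinj (Prod.mk.inj h).1
      have hi2 : Function.Injective fun i : ℤ => (c ^ i * y', c ^ i * y) := fun i j h =>
        hinj (Prod.mk.inj h).2
      refine ((h1.preimage hi1.injOn).union (h1.preimage hi2.injOn)).subset ?_
      intro i hi
      by_cases h2 : c ^ i * y ∈ E
      · by_cases h3 : c ^ i * y' ∈ E
        · exact absurd ⟨fun _ => h3, fun _ => h2⟩ hi
        · exact Or.inl ⟨hY i, hY' i, by rw [wdist_mul_left]; exact hyy', h2, h3⟩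
      · by_cases h3 : c ^ i * y' ∈ E
        · exact Or.inr ⟨hY' i, hY i, by rw [wdist_mul_left, wdist_comm hSg]; exact hyy', h3, h2⟩
        · exact absurd ⟨fun h => absurd h h2, fun h => absurd h h3⟩ hi
    obtain ⟨N2, hN2, hdf⟩ := b8_leave_fin (f := fun i : ℤ => i) (fun _ _ h => h) hdiff
    have hends : ∀ i j : ℤ, N1 ≤ i → N2 ≤ i → N1 ≤ j → N2 ≤ j →
        (c ^ i * y ∈ E ↔ c ^ (-j) * y ∈ E) := by
      intro i j h1 h2 h3 h4
      have e1 : g (c ^ i * y') = 0 := by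
        by_contra h
        exact (hg0 i h1).1 h
      have e2 : g (c ^ (-j) * y') = 0 := by
        by_contra h
        exact (hg0 j h3).2 h
      have e3 := (hconst i).trans (hconst (-j)).symm
      rw [e1, e2, sub_zero, sub_zero] at e3
      have e4 : c ^ i * y' ∈ E ↔ c ^ (-j) * y' ∈ E := by
        unfold ind at e3
        by_cases h5 : c ^ i * y' ∈ E
        · by_cases h6 : c ^ (-j) * y' ∈ E
          · exact ⟨fun _ => h6, fun _ => h5⟩
          · rw [if_pos h5, if_neg h6] at e3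
            exact absurd e3 one_ne_zero
        · by_cases h6 : c ^ (-j) * y' ∈ E
          · rw [if_neg h5, if_pos h6] at e3
            exact absurd e3 zero_ne_one
          · exact ⟨fun h => absurd h h5, fun h => absurd h h6⟩
      have e5 : c ^ i * y ∈ E ↔ c ^ i * y' ∈ E := by
        by_contra h
        exact (hdf i h2).1 h
      have e6 : c ^ (-j) * y ∈ E ↔ c ^ (-j) * y' ∈ E := by
        by_contra h
        exact (hdf j h4).2 h
      exact (e5.trans e4).trans e6.symm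
    have hSA : SepAt c y E := (hb H₁ hH₁ c y hHS hyS).2.2.1.1 hsep₁
    rcases hSA with ⟨⟨i₀, h1⟩, j₀, h2⟩ | ⟨⟨i₀, h1⟩, j₀, h2⟩
    · have h3 := hends (max i₀ (max N1 N2)) (max (-j₀) (max N1 N2)) (by omega) (by omega)
        (by omega) (by omega)
      exact h2 _ (by omega) (h3.1 (h1 _ (by omega)))
    · have h3 := hends (max i₀ (max N1 N2)) (max (-j₀) (max N1 N2)) (by omega) (by omega)
        (by omega) (by omega)
      exact h1 _ (by omega) (h3.2 (h2 _ (by omega)))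
  · -- no separated half-space
    have hcl := hclaim 1
    have hbd : (q5_bd S (b8E S s HH E v)).Finite := by
      refine (hcl.image Prod.fst).subset ?_
      rintro x ⟨a, ha, hne⟩
      exact ⟨(x, x * a), ⟨fun H hH h => absurd ⟨H, hH, h⟩ hB, fun H hH h => absurd ⟨H, hH, h⟩ hB,
        wdist_gen ha x, hne⟩, rfl⟩
    rcases q5_crit hone _ hbd with h | h
    · exact Or.inl (h.subset fun x hx => Or.inl hx)
    · refine Or.inr (h.subset ?_)
      rintro x ⟨hxY, hxE⟩ hx
      exact hxE ((b8E_Y hxY).1 hx)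

end Pool.Agent.QF
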