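import Pool.Agent.QE.Stm

/-!
# Splittings over two-ended groups and quasi-isometries: no finite index subgroup of the whole group

Statements of the rows of the project QF (MP_bbdce3_al).  They are the statements of the projects QD
and QE with pieces without the nesting condition, and with group algebras in Noetherian rings.
-/

set_option autoImplicit false

namespace Pool.Agent.QF

open Pool.Agent.QIS Pool.Agent.QD MulAction

/-- a weak piece: a subgroup `P` with a family of disjoint half-spaces around it -/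
structure Piece {G : Type} [Group G] (S : Set G) (P : Subgroup G) (HH : Set (Set G)) : Prop where
  inv : ∀ p ∈ P, ∀ H ∈ HH, tl p H ∈ HH
  disj : ∀ H ∈ HH, ∀ H' ∈ HH, H ≠ H' → Disjoint H H'
  hs : ∀ H ∈ HH, ∃ c ∈ P, HS S H c
  orb : ∃ F : Set (Set G), F.Finite ∧ ∀ H ∈ HH, ∃ p ∈ P, tl p H ∈ F
  core : ∃ F : Set G, F.Finite ∧ ∀ x, (∀ H ∈ HH, x ∉ H) → ∃ p ∈ P, p * x ∈ F
  ne : HH.Nonempty

/-- the group algebra over `k` embeds in a left Noetherian ring -/
def NType (k : Type) [Field k] (A : Type) [Group A] : Prop :=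
  ∃ (R : Type) (_ : Ring R) (ι : MonoidAlgebra k A →+* R), IsNoetherianRing R ∧
    Function.Injective ι

/-- crossed homomorphisms `P → R` -/
def DerR {G : Type} [Group G] {k R : Type} [Field k] [Ring R] (ι : MonoidAlgebra k G →+* R)
    (P : Subgroup G) : Submodule R (P → R) where
  carrier := {d | ∀ g h : P, d (g * h) =
    d g + d h * ι (MonoidAlgebra.of k G ((g : G)⁻¹))}
  zero_mem' := by intro g h; simp
  add_mem' := by
    intro a b ha hb g h
    simp only [Pi.add_apply, Set.mem_ofPred_eq] at ha hb ⊢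
    rw [ha, hb, add_mul]; abel
  smul_mem' := by
    intro m a ha g h
    simp only [Pi.smul_apply, Set.mem_ofPred_eq, smul_eq_mul] at ha ⊢
    rw [ha, mul_add, mul_assoc]

/-! ## stability -/

/-- NT: subgroups whose group algebra embeds in a Noetherian ring are stable -/
def SNT : Prop := ∀ (G : Type) [Group G] (S : Set G), S.Finite → Subgroup.closure S = ⊤ →
  ∀ (k : Type) [Field k] (P : Subgroup G), NType k P → QE.StP S k P

/-- A5: uniformity over the half-spaces of a piece -/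
def SA5 : Prop := ∀ (G : Type) [Group G] (S : Set G), S.Finite → Subgroup.closure S = ⊤ →
  ∀ (k : Type) [Field k] (P : Subgroup G) (HH : Set (Set G)), Piece S P HH →
    (∀ H ∈ HH, PFS S k H) → ∀ r : ℕ, ∃ n : ℕ, r ≤ n ∧ ∀ H ∈ HH, ∀ φ : G → G → k,
      Coc S H n φ → FinC S H n φ → ∃ f : G → k, (Function.support f).Finite ∧ Prim S H r φ f

/-! ## B: crossing gives nested cuts -/

/-- B1: the region of a piece -/
def SB1 : Prop := ∀ (G : Type) [Group G] (S : Set G), S.Finite → Subgroup.closure S = ⊤ →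
  ∀ (P : Subgroup G) (HH : Set (Set G)), Piece S P HH → ∀ s : ℕ,
    Inv P (Yr S s HH) ∧ Cof P (Yr S s HH) ∧ (1 ≤ s → ∃ r, ∀ r', r ≤ r' → CConn S (Yr S s HH) r')

/-- B0b: the ends of the line of a half-space -/
def SB0b : Prop := ∀ (G : Type) [Group G] (S : Set G), S.Finite → Subgroup.closure S = ⊤ →
  ∀ (P : Subgroup G) (HH : Set (Set G)), Piece S P HH → ∀ (s : ℕ) (E : Set G),
    (∀ R, FinBd S (Yr S s HH) R E) → ∀ H ∈ HH, ∀ c y : G, HS S H c → y ∈ Strip S s H →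
      ((∃ i₀ : ℤ, ∀ i, i₀ ≤ i → c ^ i * y ∈ E) ∨ ∃ i₀ : ℤ, ∀ i, i₀ ≤ i → c ^ i * y ∉ E) ∧
      ((∃ i₀ : ℤ, ∀ i, i ≤ i₀ → c ^ i * y ∈ E) ∨ ∃ i₀ : ℤ, ∀ i, i ≤ i₀ → c ^ i * y ∉ E) ∧
      (Sep S s H E ↔ SepAt c y E) ∧
      (¬ Sep S s H E → {z | z ∈ Strip S s H ∧ z ∈ E}.Finite ∨ {z | z ∈ Strip S s H ∧ z ∉ E}.Finite)

/-- B0c: finitely many strips are met by a finite boundary -/
def SB0c : Prop := ∀ (G : Type) [Group G] (S : Set G), S.Finite → Subgroup.closure S = ⊤ →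
  ∀ (P : Subgroup G) (HH : Set (Set G)), Piece S P HH → ∀ (s : ℕ) (E : Set G),
    (∀ R, FinBd S (Yr S s HH) R E) →
    {H | H ∈ HH ∧ (∃ z ∈ Strip S s H, z ∈ E) ∧ ∃ z ∈ Strip S s H, z ∉ E}.Finite

/-- B3: crossing gives a bad cocycle -/
def SB3 : Prop := ∀ (G : Type) [Group G] (S : Set G), S.Finite → Subgroup.closure S = ⊤ →
  OneEnded S → ∀ (k : Type) [Field k], PFS S k Set.univ → ∀ (P : Subgroup G) (HH : Set (Set G)),
    Piece S P HH → ∀ H₀ ∈ HH, ∃ s₁, ∀ s, s₁ ≤ s → ∃ m₁, ∀ m, m₁ ≤ m → ∃ n₁, ∀ n, n₁ ≤ n →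
      ¬ Bad S k HH s m n H₀ → Uncr S H₀

/-- B4: a bad cocycle gives a cut that crosses exactly two lines -/
def SB4 : Prop := ∀ (G : Type) [Group G] (S : Set G), S.Finite → Subgroup.closure S = ⊤ →
  OneEnded S → ∀ (k : Type) [Field k], PFS S k Set.univ → ∀ (P : Subgroup G), QE.StP S k P →
    ∀ (HH : Set (Set G)), Piece S P HH → ∀ H₀ ∈ HH, ∀ s, 1 ≤ s → ∃ m₂, ∀ m, m₂ ≤ m →
      ∃ n₂, ∀ n, n₂ ≤ n → Bad S k HH s m n H₀ → ∃ (r : ℕ) (E : Set G), IsCut2 S HH s r E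

/-- B6: equivariant generators and lines -/
def SB6 : Prop := ∀ (G : Type) [Group G] (S : Set G), S.Finite → Subgroup.closure S = ⊤ →
  ∀ (P : Subgroup G), QE.TFs P → ∀ (HH : Set (Set G)), Piece S P HH →
    ∃ (c : Set G → P) (Λ : Set G → Set G),
    ∀ H ∈ HH, HS S H (c H : G) ∧ (∀ p : P, tl (p : G) H = H → p ∈ Subgroup.zpowers (c H)) ∧
      (∀ p : P, c (tl (p : G) H) = p * c H * p⁻¹) ∧
      (∃ y ∈ Strip S 1 H, Λ H = {x | ∃ i : ℤ, x = (c H : G) ^ i * y}) ∧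
      ∀ p : P, Λ (tl (p : G) H) = tl (p : G) (Λ H)

/-- B8: a cut that crosses at most one line is trivial -/
def SB8 : Prop := ∀ (G : Type) [Group G] (S : Set G), S.Finite → Subgroup.closure S = ⊤ →
  OneEnded S → ∀ (k : Type) [Field k], PFS S k Set.univ → ∀ (P : Subgroup G) (HH : Set (Set G)),
    Piece S P HH → ∀ s r : ℕ, 1 ≤ s → CConn S (Yr S s HH) r → ∀ E : Set G, E ⊆ Yr S s HH →
      FinBd S (Yr S s HH) r E → (∃ H₁, ∀ H ∈ HH, Sep S s H E → H = H₁) →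
        E.Finite ∨ (Yr S s HH \ E).Finite

/-- B9: a nested cut that crosses exactly two lines -/
def SB9 : Prop := ∀ (G : Type) [Group G] (S : Set G), S.Finite → Subgroup.closure S = ⊤ →
  OneEnded S → ∀ (k : Type) [Field k], PFS S k Set.univ →
    ∀ (P : Subgroup G), QE.TFs P → ∀ (HH : Set (Set G)), Piece S P HH → ∀ (s r : ℕ) (E : Set G),
      IsCut2 S HH s r E → ∃ (r' : ℕ) (A : Set G), IsCut2 S HH s r' A ∧
        (∀ p ∈ P, NestIn (Yr S s HH) A (tl p A)) ∧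
        ∀ x ∈ Yr S s HH, ∀ y ∈ Yr S s HH,
          {B : Set G | (∃ p ∈ P, B = tl p A) ∧ x ∈ B ∧ y ∉ B}.Finite

/-- B11: the tree with lines -/
def SB11 : Prop := ∀ (G : Type) [Group G] (S : Set G), S.Finite → Subgroup.closure S = ⊤ →
  ∀ (P : Subgroup G), QE.TFs P → ∀ (HH : Set (Set G)), Piece S P HH → ∀ (s r : ℕ) (A : Set G),
    IsCut2 S HH s r A → (∀ p ∈ P, NestIn (Yr S s HH) A (tl p A)) →
    (∀ x ∈ Yr S s HH, ∀ y ∈ Yr S s HH,
      {B : Set G | (∃ p ∈ P, B = tl p A) ∧ x ∈ B ∧ y ∉ B}.Finite) → Nonempty (LT S P HH)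

/-- B12: the group of a piece is finitely generated -/
def SB12 : Prop := ∀ (G : Type) [Group G] (S : Set G), S.Finite → Subgroup.closure S = ⊤ →
  ∀ (P : Subgroup G) (HH : Set (Set G)), Piece S P HH → P.FG

/-! ## C: the new pieces -/

/-- C2: the chain of lines around a vertex -/
def SC2 : Prop := ∀ (G : Type) [Group G] (S : Set G), S.Finite → Subgroup.closure S = ⊤ →
  ∀ (P : Subgroup G) (HH : Set (Set G)), Piece S P HH → ∀ (t : LT S P HH) (u z : t.E.V),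
    t.E.T.Adj u z → ∃ q : P, q • u = u ∧ Rch t u (Sum.inl z) (Sum.inl (q • z)) ∧
      ∃ F : Set t.E.V, F.Finite ∧ ∀ z', t.E.T.Adj u z' → Rch t u (Sum.inl z) (Sum.inl z') →
        ∃ i : ℤ, q ^ i • z' ∈ F

/-- C4: the new half-spaces, without the half-space property -/
def SC4 : Prop := ∀ (G : Type) [Group G] (S : Set G), S.Finite → Subgroup.closure S = ⊤ →
  ∀ (P : Subgroup G) (HH : Set (Set G)), Piece S P HH → ∀ (t : LT S P HH) (π : G → t.E.V),
    (∀ (p : P) (x : G), π ((p : G) * x) = p • π x) → ∀ u : t.E.V,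
      (∀ p ∈ Sb t u, ∀ H ∈ HHu t π u, tl p H ∈ HHu t π u) ∧
      (∀ H ∈ HHu t π u, ∀ H' ∈ HHu t π u, H ≠ H' → Disjoint H H') ∧
      (∃ F : Set (Set G), F.Finite ∧ ∀ H ∈ HHu t π u, ∃ p ∈ Sb t u, tl p H ∈ F) ∧
      (∃ F : Set G, F.Finite ∧ ∀ x, (∀ H ∈ HHu t π u, x ∉ H) → ∃ p ∈ Sb t u, p * x ∈ F) ∧
      (HHu t π u).Nonempty

/-- C5: the boundaries of the new half-spaces -/
def SC5 : Prop := ∀ (G : Type) [Group G] (S : Set G), S.Finite → Subgroup.closure S = ⊤ →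
  ∀ (P : Subgroup G) (HH : Set (Set G)), Piece S P HH → ∀ (t : LT S P HH) (π : G → t.E.V),
    (∀ (p : P) (x : G), π ((p : G) * x) = p • π x) → ∀ u z : t.E.V, t.E.T.Adj u z →
      ∀ q : P, q • u = u → Rch t u (Sum.inl z) (Sum.inl (q • z)) →
      (∃ F : Set t.E.V, F.Finite ∧ ∀ z', t.E.T.Adj u z' → Rch t u (Sum.inl z) (Sum.inl z') →
        ∃ i : ℤ, q ^ i • z' ∈ F) →
      (∀ x, (q : G) * x ∈ Zc t π u (Sum.inl z) ↔ x ∈ Zc t π u (Sum.inl z)) ∧
      ∀ n : ℕ, ∃ F : Set G, F.Finite ∧ ∀ x y, wdist S x y ≤ n → x ∈ Zc t π u (Sum.inl z) →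
        y ∉ Zc t π u (Sum.inl z) → ∃ i : ℤ, (q : G) ^ i * x ∈ F

/-- C6: the new half-spaces are deep -/
def SC6 : Prop := ∀ (G : Type) [Group G] (S : Set G), S.Finite → Subgroup.closure S = ⊤ →
  ∀ (P : Subgroup G) (HH : Set (Set G)), Piece S P HH → ∀ (t : LT S P HH) (π : G → t.E.V),
    (∀ (p : P) (x : G), π ((p : G) * x) = p • π x) → ∀ u z : t.E.V, t.E.T.Adj u z →
      Infinite (stabilizer P u) → ∀ F : Set G, F.Finite →
        ∃ x ∈ Zc t π u (Sum.inl z), ∀ p ∈ Sb t u, p * x ∉ F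

/-- C17: the new half-spaces are half-spaces -/
def SC17 : Prop := ∀ (G : Type) [Group G] (S : Set G), S.Finite → Subgroup.closure S = ⊤ →
  OneEnded S → ∀ (P : Subgroup G), QE.TFs P → ∀ (HH : Set (Set G)), Piece S P HH →
    ∀ (t : LT S P HH) (π : G → t.E.V), (∀ (p : P) (x : G), π ((p : G) * x) = p • π x) →
      ∀ u : t.E.V, ¬ Group.IsFinitelyPresented (stabilizer P u) →
        ∀ Z ∈ HHu t π u, ∃ c ∈ Sb t u, HS S Z c

/-- C7: crossed homomorphisms of a vertex group -/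
def SC7 : Prop := ∀ (G A : Type) [Group G] [Group A] (j : A →* G), Function.Injective j →
  ∀ (k R : Type) [Field k] [Ring R] (ι : MonoidAlgebra k A →+* R),
    Function.Injective ι → ∀ P : Subgroup G, P ≤ j.range → ∀ E : Splitting P,
      E.edgeGroup = ⊥ → ∀ u : E.V,
        (∀ d ∈ DerR ι (((stabilizer P u).map P.subtype).comap j), ∃ d' ∈ DerR ι (P.comap j),
          ∀ (x : A) (hx : x ∈ ((stabilizer P u).map P.subtype).comap j) (hx' : x ∈ P.comap j),
            d' ⟨x, hx'⟩ = d ⟨x, hx⟩) ∧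
        ∃ d' ∈ DerR ι (P.comap j), (∀ (x : A) (hx' : x ∈ P.comap j),
          x ∈ ((stabilizer P u).map P.subtype).comap j → d' ⟨x, hx'⟩ = 0) ∧ d' ≠ 0

/-! ## the target -/

/-- the main step: a piece with uncrossed half-spaces -/
def SM1 : Prop := ∀ (G : Type) [Group G] (S : Set G), S.Finite → Subgroup.closure S = ⊤ →
  OneEnded S → ∀ (k : Type) [Field k], PFS S k Set.univ →
    ∀ (P : Subgroup G) (HH : Set (Set G)), QE.TFs P → NType k P → Piece S P HH →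
      ¬ Group.IsFinitelyPresented P → ∃ (P' : Subgroup G) (HH' : Set (Set G)),
        ¬ Group.IsFinitelyPresented P' ∧ Piece S P' HH' ∧ ∀ H ∈ HH', Uncr S H

end Pool.Agent.QF
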