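import Pool.Agent.QF.Stm

/-!
# The graph of the tree and the half-spaces: basic facts
-/

set_option autoImplicit false

namespace Pool.Agent.QF

open Pool.Agent.QIS Pool.Agent.QD MulAction

/-! ## lines -/

section Lines

variable {P V : Type} [Group P] [MulAction P V] {T : SimpleGraph V}

theorem c0_crs_symm {c : P} {x y : V} (h : Crs T c x y) : Crs T c y x := by
  intro v
  rcases h v with h1 | h1
  · exact Or.inr h1
  · exact Or.inl h1

theorem c0_crs_inv {c : P} {x y : V} (h : Crs T c x y) : Crs T c⁻¹ x y := by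
  intro v
  rw [inv_inv]
  rcases h v with h1 | h1
  · exact Or.inr ⟨h1.2, h1.1⟩
  · exact Or.inl ⟨h1.2, h1.1⟩

theorem c0_ple_smul (hact : ∀ (g : P) {x y : V}, T.Adj x y → T.Adj (g • x) (g • y)) (p : P)
    {c : P} {v x y : V} (h : PlE T c v x y) : PlE T (p * c * p⁻¹) (p • v) (p • x) (p • y) := by
  obtain ⟨i₀, hi⟩ := h
  refine ⟨i₀, fun i hi0 => ?_⟩
  have h1 : (p * c * p⁻¹) ^ i • p • v = p • c ^ i • v := by
    rw [conj_zpow, mul_smul, mul_smul, inv_smul_smul]
  rw [h1, side_map hact]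
  exact hi i hi0

theorem c0_crs_smul (hact : ∀ (g : P) {x y : V}, T.Adj x y → T.Adj (g • x) (g • y)) (p : P)
    {c : P} {x y : V} (h : Crs T c x y) : Crs T (p * c * p⁻¹) (p • x) (p • y) := by
  intro v
  have hv : p • p⁻¹ • v = v := smul_inv_smul p v
  have hc : (p * c * p⁻¹)⁻¹ = p * c⁻¹ * p⁻¹ := by group
  rw [hc]
  rcases h (p⁻¹ • v) with h1 | h1
  · left
    have h2 := c0_ple_smul hact p h1.1
    have h3 := c0_ple_smul hact p h1.2
    rw [hv] at h2 h3
    exact ⟨h2, h3⟩
  · right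
    have h2 := c0_ple_smul hact p h1.1
    have h3 := c0_ple_smul hact p h1.2
    rw [hv] at h2 h3
    exact ⟨h2, h3⟩

theorem c0_tau_smul (hact : ∀ (g : P) {x y : V}, T.Adj x y → T.Adj (g • x) (g • y)) (p : P)
    {c : P} {w : V} (h : Tau T c w) : Tau T (p * c * p⁻¹) (p • w) := by
  rcases h with h | ⟨z, hz, hc⟩
  · left
    rw [mul_smul, inv_smul_smul, mul_smul, h]
  · exact Or.inr ⟨p • z, hact p hz, c0_crs_smul hact p hc⟩

end Lines

/-! ## trees -/

section Trees

variable {V : Type} {T : SimpleGraph V}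

/-- branches at a vertex are disjoint -/
theorem c0_disj (hT : T.IsTree) {w z z' x : V} (h : T.Adj w z) (h' : T.Adj w z') (hne : z ≠ z')
    (hx : side T z w x) : side T w z' x := by
  by_contra hx'
  have h1 : s(w, z) ≠ s(w, z') := by
    intro h2
    rcases Sym2.eq_iff.1 h2 with ⟨_, h3⟩ | ⟨h3, h4⟩
    · exact hne h3
    · exact h.ne h4.symm
  have h2 : s(z, w) ≠ s(w, z') := by rwa [Sym2.eq_swap]
  have h3 : side T w z' z := (side_adj h h1).1 (side_self _ _)
  have h5 : side T w z z' := by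
    have h6 : s(w, z') ≠ s(w, z) := Ne.symm h1
    exact (side_adj h' h6).1 (side_self _ _)
  have h4 : ¬ side T z w z' := by
    rw [side_swap hT h, not_not]
    exact h5
  exact (side_beyond hT h.symm h' h3 h4 h2).2 x hx' hx

/-- the first vertex on the way to another vertex -/
theorem c0_first (hT : T.IsTree) {x y : V} (hne : x ≠ y) : ∃ z, T.Adj x z ∧ side T z x y := by
  obtain ⟨z, h1, h2⟩ := exists_first hT hne
  exact ⟨z, h1, (side_swap hT h1 y).2 h2⟩

/-- the first vertex is unique -/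
theorem c0_first_unique (hT : T.IsTree) {w z z' x : V} (h : T.Adj w z) (h' : T.Adj w z')
    (hx : side T z w x) (hx' : side T z' w x) : z = z' := by
  by_contra hne
  have h1 := c0_disj hT h h' hne hx
  exact (side_swap hT h' x).1 hx' h1

/-- neighbours in a branch -/
theorem c0_adj_branch (hT : T.IsTree) {u z z' : V} (h : T.Adj u z) (h' : T.Adj u z')
    (hx : side T z u z') : z = z' := by
  exact c0_first_unique hT h h' hx (side_self _ _)

/-- if `z` is the first vertex from `u` to `v` and `z'` the first vertex from `v` to `u`, then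
the side of `v` of the edge `v, z'` is contained in the branch of `z` at `u` -/
theorem c0_beyond (hT : T.IsTree) {u v z z' x : V} (h : T.Adj u z) (hz : side T z u v)
    (h' : T.Adj v z') (hz' : side T z' v u) (hx : side T v z' x) : side T z u x := by
  have hu : side T z' v u := hz'
  by_cases he : s(u, z) = s(z', v)
  · rcases Sym2.eq_iff.1 he with ⟨h1, h2⟩ | ⟨h1, h2⟩
    · subst h1 h2; exact hx
    · subst h1
      exact absurd (side_self _ _) ((side_swap hT h u).1 hz)
  · have h3 : ¬ side T u z v := (side_swap hT h v).1 hz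
    have h4 := side_beyond hT h h'.symm hu h3 he
    exact (side_swap hT h x).2 (h4.2 x ((side_swap hT h'.symm x).1 hx))

end Trees

/-! ## free action on edges, orbits of neighbours -/

section Free

variable {P : Type} [Group P] (E : Splitting P)

theorem c0_free (hE : E.edgeGroup = ⊥) {g : P} {x y : E.V} (h : E.T.Adj x y) (hx : g • x = x)
    (hy : g • y = y) : g = 1 := by
  obtain ⟨k, hk⟩ := E.edge_trans h
  have h1 : k⁻¹ * g * k ∈ E.edgeGroup := by
    rw [Splitting.edgeGroup, Subgroup.mem_inf, mem_stabilizer_iff, mem_stabilizer_iff]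
    rcases hk with ⟨h1, h2⟩ | ⟨h1, h2⟩
    · rw [mul_smul, mul_smul, mul_smul, mul_smul, h1, h2, hx, hy, ← h1, ← h2, inv_smul_smul,
        inv_smul_smul]
      exact ⟨rfl, rfl⟩
    · rw [mul_smul, mul_smul, mul_smul, mul_smul, h1, h2, hx, hy, ← h1, ← h2, inv_smul_smul,
        inv_smul_smul]
      exact ⟨rfl, rfl⟩
  rw [hE, Subgroup.mem_bot] at h1
  have h2 : g = k * (k⁻¹ * g * k) * k⁻¹ := by group
  rw [h2, h1]
  group

/-- free action on unoriented edges -/
theorem c0_free' (hE : E.edgeGroup = ⊥) {g : P} {x y : E.V} (h : E.T.Adj x y)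
    (hg : s(g • x, g • y) = s(x, y)) : g = 1 := by
  rcases Sym2.eq_iff.1 hg with ⟨h1, h2⟩ | ⟨h1, h2⟩
  · exact c0_free E hE h h1 h2
  · exact absurd ⟨h1, h2⟩ (E.no_inv g h)

/-- the neighbours of a vertex form at most two orbits under its stabilizer -/
theorem c0_nbr_orb (u : E.V) : ∃ F : Set E.V, F.Finite ∧ (∀ z ∈ F, E.T.Adj u z) ∧
    ∀ z, E.T.Adj u z → ∃ p : P, p • u = u ∧ p • z ∈ F := by
  classical
  by_cases h1 : ∃ g : P, g • E.a = u
  · obtain ⟨g, hg⟩ := h1
    by_cases h2 : ∃ g : P, g • E.b = u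
    · obtain ⟨g', hg'⟩ := h2
      refine ⟨{g • E.b, g' • E.a}, Set.toFinite _, ?_, ?_⟩
      · rintro z (rfl | hz)
        · rw [← hg]; exact E.map_adj g E.adj
        · rw [Set.mem_singleton_iff] at hz
          rw [hz, ← hg']; exact E.map_adj g' E.adj.symm
      · intro z hz
        obtain ⟨k, hk⟩ := E.edge_trans hz
        rcases hk with ⟨h3, h4⟩ | ⟨h3, h4⟩
        · refine ⟨g * k⁻¹, ?_, Or.inl ?_⟩
          · rw [← h3, mul_smul, inv_smul_smul, hg, h3]
          · rw [← h4, mul_smul, inv_smul_smul]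
        · refine ⟨g' * k⁻¹, ?_, Or.inr ?_⟩
          · rw [← h4, mul_smul, inv_smul_smul, hg', h4]
          · rw [← h3, mul_smul, inv_smul_smul]; rfl
    · refine ⟨{g • E.b}, Set.toFinite _, ?_, ?_⟩
      · rintro z hz
        rw [Set.mem_singleton_iff] at hz
        rw [hz, ← hg]; exact E.map_adj g E.adj
      · intro z hz
        obtain ⟨k, hk⟩ := E.edge_trans hz
        rcases hk with ⟨h3, h4⟩ | ⟨h3, h4⟩
        · refine ⟨g * k⁻¹, ?_, ?_⟩
          · rw [← h3, mul_smul, inv_smul_smul, hg, h3]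
          · rw [← h4, mul_smul, inv_smul_smul]; rfl
        · exact absurd ⟨k, h4⟩ h2
  · by_cases h2 : ∃ g : P, g • E.b = u
    · obtain ⟨g', hg'⟩ := h2
      refine ⟨{g' • E.a}, Set.toFinite _, ?_, ?_⟩
      · rintro z hz
        rw [Set.mem_singleton_iff] at hz
        rw [hz, ← hg']; exact E.map_adj g' E.adj.symm
      · intro z hz
        obtain ⟨k, hk⟩ := E.edge_trans hz
        rcases hk with ⟨h3, h4⟩ | ⟨h3, h4⟩
        · exact absurd ⟨k, h3⟩ h1
        · refine ⟨g' * k⁻¹, ?_, ?_⟩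
          · rw [← h4, mul_smul, inv_smul_smul, hg', h4]
          · rw [← h3, mul_smul, inv_smul_smul]; rfl
    · refine ⟨∅, Set.toFinite _, by simp, ?_⟩
      intro z hz
      obtain ⟨k, hk⟩ := E.edge_trans hz
      rcases hk with ⟨h3, h4⟩ | ⟨h3, h4⟩
      · exact absurd ⟨k, h3⟩ h1
      · exact absurd ⟨k, h4⟩ h2

end Free

/-! ## the graph -/

section Graph

variable {G : Type} [Group G] {S : Set G} {P : Subgroup G} {HH : Set (Set G)}

theorem c0_tl_mul (g h : G) (A : Set G) : tl (g * h) A = tl g (tl h A) := by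
  ext x
  simp only [tl, Set.mem_ofPred_eq, mul_inv_rev, mul_assoc]

theorem c0_tl_one (A : Set G) : tl (1 : G) A = A := by
  ext x
  simp only [tl, Set.mem_ofPred_eq, inv_one, one_mul]

theorem c0_tl_inv (g : G) (A : Set G) : tl g⁻¹ (tl g A) = A := by
  rw [← c0_tl_mul, inv_mul_cancel, c0_tl_one]

theorem c0_tl_inv' (g : G) (A : Set G) : tl g (tl g⁻¹ A) = A := by
  rw [← c0_tl_mul, mul_inv_cancel, c0_tl_one]

theorem c0_mem_tl (g : G) (A : Set G) (x : G) : g * x ∈ tl g A ↔ x ∈ A := by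
  simp only [tl, Set.mem_ofPred_eq, inv_mul_cancel_left]

/-- translation of a vertex of the graph -/
def ptr (t : LT S P HH) (p : P) : (t.E.V ⊕ Set G) → (t.E.V ⊕ Set G)
  | Sum.inl w => Sum.inl (p • w)
  | Sum.inr H => Sum.inr (tl (p : G) H)

@[simp] theorem c0_ptr_inl (t : LT S P HH) (p : P) (w : t.E.V) :
    ptr t p (Sum.inl w) = Sum.inl (p • w) := rfl

@[simp] theorem c0_ptr_inr (t : LT S P HH) (p : P) (H : Set G) :
    ptr t p (Sum.inr H) = Sum.inr (tl (p : G) H) := rfl

theorem c0_ptr_mul (t : LT S P HH) (p q : P) (a : t.E.V ⊕ Set G) :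
    ptr t (p * q) a = ptr t p (ptr t q a) := by
  rcases a with w | H
  · simp only [c0_ptr_inl, mul_smul]
  · simp only [c0_ptr_inr, Subgroup.coe_mul, c0_tl_mul]

theorem c0_ptr_one (t : LT S P HH) (a : t.E.V ⊕ Set G) : ptr t (1 : P) a = a := by
  rcases a with w | H
  · simp only [c0_ptr_inl, one_smul]
  · simp only [c0_ptr_inr, Subgroup.coe_one, c0_tl_one]

theorem c0_ptr_inv (t : LT S P HH) (p : P) (a : t.E.V ⊕ Set G) :
    ptr t p⁻¹ (ptr t p a) = a := by
  rw [← c0_ptr_mul, inv_mul_cancel, c0_ptr_one]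

theorem c0_ptr_inv' (t : LT S P HH) (p : P) (a : t.E.V ⊕ Set G) :
    ptr t p (ptr t p⁻¹ a) = a := by
  rw [← c0_ptr_mul, mul_inv_cancel, c0_ptr_one]

theorem c0_ptr_inj (t : LT S P HH) (p : P) {a b : t.E.V ⊕ Set G} (h : ptr t p a = ptr t p b) :
    a = b := by
  rw [← c0_ptr_inv t p a, h, c0_ptr_inv]

theorem c0_ad_symm (t : LT S P HH) {a b : t.E.V ⊕ Set G} (h : Ad1 t a b) : Ad1 t b a := by
  rcases a with w | H <;> rcases b with w' | H'
  · exact SimpleGraph.Adj.symm h
  · exact h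
  · exact h
  · exact h

/-- translates of lines -/
theorem c0_tau_tl (t : LT S P HH) {H : Set G} (hH : H ∈ HH) (p : P) {w : t.E.V}
    (h : Tau t.E.T (t.c H) w) : Tau t.E.T (t.c (tl (p : G) H)) (p • w) := by
  rw [t.eqv p H hH]
  exact c0_tau_smul (fun g {x y} hxy => t.E.map_adj g hxy) p h

theorem c0_crs_tl (t : LT S P HH) {H : Set G} (hH : H ∈ HH) (p : P) {x y : t.E.V}
    (h : Crs t.E.T (t.c H) x y) : Crs t.E.T (t.c (tl (p : G) H)) (p • x) (p • y) := by
  rw [t.eqv p H hH]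
  exact c0_crs_smul (fun g {x y} hxy => t.E.map_adj g hxy) p h

theorem c0_ad_tr (hP : Piece S P HH) (t : LT S P HH) (p : P) {a b : t.E.V ⊕ Set G}
    (h : Ad1 t a b) : Ad1 t (ptr t p a) (ptr t p b) := by
  rcases a with w | H <;> rcases b with w' | H'
  · exact t.E.map_adj p h
  · exact ⟨hP.inv p p.2 _ h.1, c0_tau_tl t h.1 p h.2⟩
  · exact ⟨hP.inv p p.2 _ h.1, c0_tau_tl t h.1 p h.2⟩
  · exact h

theorem c0_rch_symm (t : LT S P HH) {u : t.E.V} {a b : t.E.V ⊕ Set G} (h : Rch t u a b) :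
    Rch t u b a := by
  unfold Rch at h ⊢
  induction h with
  | refl => exact Relation.ReflTransGen.refl
  | tail _ h1 ih => exact Relation.ReflTransGen.head ⟨c0_ad_symm t h1.1, h1.2.2, h1.2.1⟩ ih

theorem c0_rch_trans (t : LT S P HH) {u : t.E.V} {a b c : t.E.V ⊕ Set G} (h : Rch t u a b)
    (h' : Rch t u b c) : Rch t u a c := Relation.ReflTransGen.trans h h'

theorem c0_rch_refl (t : LT S P HH) (u : t.E.V) (a : t.E.V ⊕ Set G) : Rch t u a a :=
  Relation.ReflTransGen.refl

theorem c0_rch_one (t : LT S P HH) {u : t.E.V} {a b : t.E.V ⊕ Set G} (h : Ad1 t a b)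
    (ha : a ≠ Sum.inl u) (hb : b ≠ Sum.inl u) : Rch t u a b :=
  Relation.ReflTransGen.single ⟨h, ha, hb⟩

theorem c0_rch_tr (hP : Piece S P HH) (t : LT S P HH) (p : P) {u : t.E.V}
    {a b : t.E.V ⊕ Set G} (h : Rch t u a b) : Rch t (p • u) (ptr t p a) (ptr t p b) := by
  unfold Rch at h ⊢
  induction h with
  | refl => exact Relation.ReflTransGen.refl
  | tail _ h1 ih =>
    refine ih.tail ⟨c0_ad_tr hP t p h1.1, fun h2 => h1.2.1 ?_, fun h2 => h1.2.2 ?_⟩
    · exact c0_ptr_inj t p h2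
    · exact c0_ptr_inj t p h2

/-- a point reached from `a ≠ u` is not `u` -/
theorem c0_rch_ne (t : LT S P HH) {u : t.E.V} {a b : t.E.V ⊕ Set G} (h : Rch t u a b)
    (ha : a ≠ Sum.inl u) : b ≠ Sum.inl u := by
  unfold Rch at h
  induction h with
  | refl => exact ha
  | tail _ h1 _ => exact h1.2.2

/-! ## classes -/

open Classical in
theorem c0_cls_inr (hP : Piece S P HH) (t : LT S P HH) (π : G → t.E.V) {H : Set G} (hH : H ∈ HH)
    {x : G} (hx : x ∈ H) : cls t π x = Sum.inr H := by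
  have h : ∃ H ∈ HH, x ∈ H := ⟨H, hH, hx⟩
  unfold cls
  rw [dif_pos h]
  congr 1
  by_contra hne
  exact Set.disjoint_left.1 (hP.disj _ h.choose_spec.1 _ hH hne) h.choose_spec.2 hx

open Classical in
theorem c0_cls_inl (t : LT S P HH) (π : G → t.E.V) {x : G} (hx : ∀ H ∈ HH, x ∉ H) :
    cls t π x = Sum.inl (π x) := by
  unfold cls
  rw [dif_neg]
  rintro ⟨H, hH, h⟩
  exact hx H hH h

theorem c0_cls_cases (hP : Piece S P HH) (t : LT S P HH) (π : G → t.E.V) (x : G) :
    (∃ H ∈ HH, x ∈ H ∧ cls t π x = Sum.inr H) ∨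
      ((∀ H ∈ HH, x ∉ H) ∧ cls t π x = Sum.inl (π x)) := by
  by_cases h : ∃ H ∈ HH, x ∈ H
  · obtain ⟨H, hH, hx⟩ := h
    exact Or.inl ⟨H, hH, hx, c0_cls_inr hP t π hH hx⟩
  · push Not at h
    exact Or.inr ⟨h, c0_cls_inl t π h⟩

theorem c0_cls_tr (hP : Piece S P HH) (t : LT S P HH) (π : G → t.E.V)
    (hπ : ∀ (p : P) (x : G), π ((p : G) * x) = p • π x) (p : P) (x : G) :
    cls t π ((p : G) * x) = ptr t p (cls t π x) := by
  rcases c0_cls_cases hP t π x with ⟨H, hH, hx, h1⟩ | ⟨hx, h1⟩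
  · rw [h1, c0_ptr_inr]
    exact c0_cls_inr hP t π (hP.inv p p.2 H hH) ((c0_mem_tl _ _ _).2 hx)
  · rw [h1, c0_ptr_inl, ← hπ]
    refine c0_cls_inl t π fun H hH h2 => ?_
    refine hx _ (hP.inv (p : G)⁻¹ (P.inv_mem p.2) H hH) ?_
    simp only [tl, Set.mem_ofPred_eq, inv_inv]
    exact h2

theorem c0_zc_tr (hP : Piece S P HH) (t : LT S P HH) (π : G → t.E.V)
    (hπ : ∀ (p : P) (x : G), π ((p : G) * x) = p • π x) (p : P) (u : t.E.V)
    (a : t.E.V ⊕ Set G) : Zc t π (p • u) (ptr t p a) = tl (p : G) (Zc t π u a) := by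
  have key : ∀ (p : P) (u : t.E.V) (a : t.E.V ⊕ Set G) (x : G), x ∈ Zc t π u a →
      (p : G) * x ∈ Zc t π (p • u) (ptr t p a) := by
    intro p u a x hx
    refine ⟨?_, ?_⟩
    · rw [c0_cls_tr hP t π hπ]
      intro h
      exact hx.1 (c0_ptr_inj t p h)
    · rw [c0_cls_tr hP t π hπ]
      exact c0_rch_tr hP t p hx.2
  ext x
  constructor
  · intro hx
    have h := key p⁻¹ _ _ _ hx
    rw [inv_smul_smul, c0_ptr_inv] at h
    exact h
  · intro hx
    have h := key p _ _ _ hx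
    rw [mul_inv_cancel_left] at h
    exact h

theorem c0_zc_eq (t : LT S P HH) (π : G → t.E.V) {u : t.E.V} {a a' : t.E.V ⊕ Set G}
    (h : Rch t u a a') : Zc t π u a = Zc t π u a' := by
  ext x
  exact ⟨fun hx => ⟨hx.1, c0_rch_trans t (c0_rch_symm t h) hx.2⟩,
    fun hx => ⟨hx.1, c0_rch_trans t h hx.2⟩⟩

/-- two points of a part are joined -/
theorem c0_zc_join (t : LT S P HH) (π : G → t.E.V) {u : t.E.V} {a a' : t.E.V ⊕ Set G} {x : G}
    (h : x ∈ Zc t π u a) (h' : x ∈ Zc t π u a') : Rch t u a a' :=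
  c0_rch_trans t h.2 (c0_rch_symm t h'.2)

/-! ## connectivity -/

/-- everything in a branch is reached from its first vertex -/
theorem c0_rch_side (t : LT S P HH) {u z w : t.E.V} (h : t.E.T.Adj u z) (hw : side t.E.T z u w) :
    Rch t u (Sum.inl z) (Sum.inl w) := by
  have h1 := (SimpleGraph.reachable_iff_reflTransGen z w).1 hw
  clear hw
  induction h1 with
  | refl => exact c0_rch_refl t u _
  | @tail y y' hr hyy ih =>
    have hy : side t.E.T z u y := (SimpleGraph.reachable_iff_reflTransGen z y).2 hr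
    have hy' : side t.E.T z u y' := (SimpleGraph.reachable_iff_reflTransGen z y').2 (hr.tail hyy)
    have hne : ∀ v, side t.E.T z u v → v ≠ u := by
      rintro v hv rfl
      exact (side_swap t.E.tree h _).1 hv (side_self _ _)
    refine c0_rch_trans t ih (c0_rch_one t ?_ ?_ ?_)
    · rw [SimpleGraph.deleteEdges_adj] at hyy
      exact hyy.1
    · intro h2
      exact hne y hy (Sum.inl.inj h2)
    · intro h2
      exact hne y' hy' (Sum.inl.inj h2)

/-- vertices of the graph -/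
def IsVx (t : LT S P HH) : (t.E.V ⊕ Set G) → Prop
  | Sum.inl _ => True
  | Sum.inr H => H ∈ HH

theorem c0_isVx_cls (hP : Piece S P HH) (t : LT S P HH) (π : G → t.E.V) (x : G) :
    IsVx t (cls t π x) := by
  rcases c0_cls_cases hP t π x with ⟨H, hH, _, h1⟩ | ⟨_, h1⟩
  · rw [h1]; exact hH
  · rw [h1]; trivial

/-- every vertex of the graph other than `u` is reached from a neighbour of `u` -/
theorem c0_exists_nbr (c1 : SC1) (t : LT S P HH) (u : t.E.V) {b : t.E.V ⊕ Set G}
    (hb : IsVx t b) (hne : b ≠ Sum.inl u) :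
    ∃ a, Ad1 t (Sum.inl u) a ∧ Rch t u a b := by
  have key : ∀ w : t.E.V, w ≠ u → ∃ a, Ad1 t (Sum.inl u) a ∧ Rch t u a (Sum.inl w) := by
    intro w hw
    obtain ⟨z, hz, hzw⟩ := c0_first t.E.tree (Ne.symm hw)
    exact ⟨Sum.inl z, hz, c0_rch_side t hz hzw⟩
  rcases b with w | H
  · exact key w fun h => hne (by rw [h])
  · have hH : H ∈ HH := hb
    have hord : ∀ n : ℕ, 0 < n → (t.c H) ^ n ≠ 1 := by
      intro n hn h
      refine (t.hc H hH).ord n hn ?_
      have := congrArg (fun x : P => (x : G)) h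
      simpa using this
    obtain ⟨w, hw⟩ := (c1 P t.E t.triv (t.c H) hord).2.2.1
    by_cases hwu : w = u
    · subst hwu
      exact ⟨Sum.inr H, ⟨hH, hw⟩, c0_rch_refl t _ _⟩
    · obtain ⟨a, ha, har⟩ := key w hwu
      refine ⟨a, ha, c0_rch_trans t har (c0_rch_one t ⟨hH, hw⟩ ?_ hne)⟩
      intro h2
      exact hwu (Sum.inl.inj h2)

/-- the block-cut argument: `z` is the first vertex from `u` to `v`, `z'` the first vertex from
`v` to `u`; what is not reached from `z'` off `v` is reached from `z` off `u` -/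
theorem c0_cut (c1 : SC1) (t : LT S P HH) {u v z z' : t.E.V} (huv : u ≠ v) (hz : t.E.T.Adj u z)
    (hzv : side t.E.T z u v) (hz' : t.E.T.Adj v z') (hzu : side t.E.T z' v u)
    {b : t.E.V ⊕ Set G} (hb : IsVx t b)
    (hn : ¬ (b ≠ Sum.inl v ∧ Rch t v (Sum.inl z') b)) :
    b ≠ Sum.inl u ∧ Rch t u (Sum.inl z) b := by
  have hvu : (Sum.inl v : t.E.V ⊕ Set G) ≠ Sum.inl u := fun h => huv (Sum.inl.inj h).symm
  have hzv' : Rch t u (Sum.inl z) (Sum.inl v) := c0_rch_side t hz hzv
  have hzu' : Rch t v (Sum.inl z') (Sum.inl u) := c0_rch_side t hz' hzu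
  by_cases hbv : b = Sum.inl v
  · subst hbv
    exact ⟨hvu, hzv'⟩
  · have hnr : ¬ Rch t v (Sum.inl z') b := fun h => hn ⟨hbv, h⟩
    obtain ⟨a, ha, hab⟩ := c0_exists_nbr c1 t v hb hbv
    have hanr : ¬ Rch t v (Sum.inl z') a := fun h => hnr (c0_rch_trans t h hab)
    have hau : a ≠ Sum.inl u := by
      rintro rfl
      exact hanr hzu'
    -- the path from `a` to `b` avoids `u`
    have hpath : ∀ c, Rch t v a c → Rch t u a c := by
      intro c hc
      unfold Rch at hc
      induction hc with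
      | refl => exact c0_rch_refl t u a
      | @tail y y' hy h1 ih =>
        have hyv : Rch t v a y := hy
        have hyv' : Rch t v a y' := hy.tail h1
        refine c0_rch_trans t ih (c0_rch_one t h1.1 ?_ ?_)
        · rintro rfl
          exact hanr (c0_rch_trans t hzu' (c0_rch_symm t hyv))
        · rintro rfl
          exact hanr (c0_rch_trans t hzu' (c0_rch_symm t hyv'))
    have h1 : Rch t u (Sum.inl z) a := by
      refine c0_rch_trans t hzv' (c0_rch_one t ha hvu hau)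
    refine ⟨c0_rch_ne t (hpath b hab) hau, c0_rch_trans t h1 (hpath b hab)⟩

end Graph

end Pool.Agent.QF
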