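import Pool.Agent.QF.Stm
import Pool.Agent.QF.C0
import Pool.Agent.H67.Q.Ends

/-!
# Project QD (MP_bbdce3_al), row C17: the new half-spaces are half-spaces
-/

set_option autoImplicit false
set_option linter.unusedVariables false

namespace Pool.Agent.QF

open Pool.Agent.QIS Pool.Agent.QD MulAction

section

variable {G : Type} [Group G] {S : Set G} {P : Subgroup G} {HH : Set (Set G)}

/-- an element of the stabilizer of `u` lies in `Sb t u` -/
private theorem c17_mem (t : LT S P HH) {u : t.E.V} {q : P} (hq : q • u = u) :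
    (q : G) ∈ Sb t u := ⟨q, hq, rfl⟩

/-- the neighbours of a vertex whose stabilizer is large are not all joined -/
private theorem c17_nbr (c10 : SC10) (hTF : QE.TFs P) (t : LT S P HH) {u z : t.E.V}
    (huz : t.E.T.Adj u z) {q : P} (hq : q • u = u)
    (hF : ∃ F : Set t.E.V, F.Finite ∧ ∀ z', t.E.T.Adj u z' → Rch t u (Sum.inl z) (Sum.inl z') →
      ∃ i : ℤ, q ^ i • z' ∈ F)
    (hfp : ¬ Group.IsFinitelyPresented (stabilizer P u)) :
    ∃ z', t.E.T.Adj u z' ∧ ¬ Rch t u (Sum.inl z) (Sum.inl z') := by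
  classical
  by_contra hcon
  push Not at hcon
  obtain ⟨F, hF1, hF2⟩ := hF
  have hinf : ¬ Finite (stabilizer P u) := fun h => hfp (c10.2 _ h)
  have hte : ¬ TwoEnded (stabilizer P u) := fun h => hfp (c10.1 _ h)
  -- the finite set of representatives
  let K : Set (stabilizer P u) := {k | (k : P) • z ∈ F}
  have hK : K.Finite := by
    refine Set.Finite.of_finite_image (f := fun k : stabilizer P u => (k : P) • z)
      (hF1.subset ?_) ?_
    · rintro _ ⟨k, hk, rfl⟩
      exact hk
    · intro k _ k' _ hkk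
      have h1 : (k : P) • z = (k' : P) • z := hkk
      have h2 : ((k' : P)⁻¹ * k) • z = z := by
        rw [mul_smul, h1, inv_smul_smul]
      have h3 : ((k' : P)⁻¹ * k) • u = u := by
        have h4 : (k : P) • u = u := k.2
        have h5 : (k' : P) • u = u := k'.2
        rw [mul_smul, h4, inv_smul_eq_iff, h5]
      have h4 := c0_free t.E t.triv huz h3 h2
      rw [inv_mul_eq_one] at h4
      exact Subtype.ext h4.symm
  let q' : stabilizer P u := ⟨q, hq⟩
  have key : ∀ p : stabilizer P u, ∃ i : ℤ, q' ^ i * p ∈ K := by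
    intro p
    have h1 : t.E.T.Adj u ((p : P) • z) := by
      have h2 := t.E.map_adj (p : P) huz
      have h3 : (p : P) • u = u := p.2
      rw [h3] at h2
      exact h2
    obtain ⟨i, hi⟩ := hF2 _ h1 (hcon _ h1)
    refine ⟨i, ?_⟩
    show ((q' ^ i * p : stabilizer P u) : P) • z ∈ F
    rw [Subgroup.coe_mul, Subgroup.coe_zpow, mul_smul]
    exact hi
  by_cases hq1 : q = 1
  · -- everything is in `K`
    refine hinf ?_
    refine Set.finite_univ_iff.1 (hK.subset fun p _ => ?_)
    obtain ⟨i, hi⟩ := key p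
    have h1 : q' = 1 := Subtype.ext hq1
    rw [h1, one_zpow, one_mul] at hi
    exact hi
  · refine hte ⟨q', ?_, ?_⟩
    · intro n hn h
      have h1 : ((q' ^ n : stabilizer P u) : P) = 1 := by rw [h]; rfl
      rw [Subgroup.coe_pow] at h1
      have h2 : ((q ^ n : P) : G) = 1 := by
        rw [show q ^ n = 1 from h1]; rfl
      rw [Subgroup.coe_pow] at h2
      exact hTF (q : G) q.2 (fun h3 => hq1 (Subtype.ext h3)) n hn h2
    · have h1 : Finite (stabilizer P u ⧸ Subgroup.zpowers q') := by
        have h2 : Finite K := hK.to_subtype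
        refine Finite.of_surjective (f := fun k : K =>
          (QuotientGroup.mk (k : stabilizer P u)⁻¹ : stabilizer P u ⧸ Subgroup.zpowers q')) ?_
        intro x
        obtain ⟨g, rfl⟩ := QuotientGroup.mk_surjective x
        obtain ⟨i, hi⟩ := key g⁻¹
        refine ⟨⟨_, hi⟩, ?_⟩
        show (QuotientGroup.mk (q' ^ i * g⁻¹)⁻¹ : stabilizer P u ⧸ Subgroup.zpowers q') =
          QuotientGroup.mk g
        rw [QuotientGroup.eq]
        have h3 : ((q' ^ i * g⁻¹)⁻¹)⁻¹ * g = q' ^ i := by group
        rw [h3]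
        exact Subgroup.zpow_mem_zpowers q' i
      exact Subgroup.finiteIndex_of_finite_quotient

/-- the parts of `G` seen through an edge -/
private theorem c17_edge (c2 : SC2) (c5 : SC5) (c6 : SC6) (c10 : SC10) (hS : S.Finite)
    (hSg : Subgroup.closure S = ⊤) (hone : OneEnded S) (hTF : QE.TFs P) (hP : Piece S P HH)
    (t : LT S P HH) (π : G → t.E.V) (hπ : ∀ (p : P) (x : G), π ((p : G) * x) = p • π x)
    (u z : t.E.V) (huz : t.E.T.Adj u z) (hfp : ¬ Group.IsFinitelyPresented (stabilizer P u)) :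
    ∃ c ∈ Sb t u, HS S (Zc t π u (Sum.inl z)) c := by
  classical
  have hinf : Infinite (stabilizer P u) :=
    not_finite_iff_infinite.1 fun h => hfp (c10.2 _ h)
  obtain ⟨q, hqu, hqz, hF⟩ := c2 G S hS hSg P HH hP t u z huz
  obtain ⟨hinv, hbd⟩ := c5 G S hS hSg P HH hP t π hπ u z huz q hqu hqz hF
  obtain ⟨z', huz', hzz'⟩ := c17_nbr c10 hTF t huz hqu hF hfp
  have hdeep := c6 G S hS hSg P HH hP t π hπ u z huz hinf
  have hdeep' : ∀ F : Set G, F.Finite → ∃ x, x ∉ Zc t π u (Sum.inl z) ∧
      ∀ p ∈ Sb t u, p * x ∉ F := by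
    intro F hF1
    obtain ⟨x, hx, hx2⟩ := c6 G S hS hSg P HH hP t π hπ u z' huz' hinf F hF1
    exact ⟨x, fun h => hzz' (c0_zc_join t π h hx), hx2⟩
  have hq1 : (q : G) ≠ 1 := by
    intro hq1
    have hbdf : (q5_bd S (Zc t π u (Sum.inl z))).Finite := by
      obtain ⟨F, hF1, hF2⟩ := hbd 1
      have hF3 : ∀ x y, wdist S x y ≤ 1 → x ∈ Zc t π u (Sum.inl z) →
          y ∉ Zc t π u (Sum.inl z) → x ∈ F := by
        intro x y h1 h2 h3
        obtain ⟨i, hi⟩ := hF2 x y h1 h2 h3
        rw [hq1, one_zpow, one_mul] at hi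
        exact hi
      refine (hF1.union (hS.biUnion fun s _ => hF1.image fun x => x * s⁻¹)).subset ?_
      rintro g ⟨s, hs, hne⟩
      by_cases hg : g ∈ Zc t π u (Sum.inl z)
      · left
        exact hF3 g (g * s) (wdist_gen hs g) hg fun h => hne ⟨fun _ => h, fun _ => hg⟩
      · right
        have hgs : g * s ∈ Zc t π u (Sum.inl z) := by
          by_contra h
          exact hne ⟨fun h1 => absurd h1 hg, fun h1 => absurd h1 h⟩
        refine Set.mem_biUnion hs ⟨g * s, ?_, by group⟩
        refine hF3 (g * s) g ?_ hgs hg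
        rw [wdist_comm hSg]
        exact wdist_gen hs g
    rcases q5_crit hone _ hbdf with h | h
    · obtain ⟨x, hx, hx2⟩ := hdeep _ h
      have := hx2 1 (Sb t u).one_mem
      rw [one_mul] at this
      exact this hx
    · obtain ⟨x, hx, hx2⟩ := hdeep' _ h
      have := hx2 1 (Sb t u).one_mem
      rw [one_mul] at this
      exact this hx
  refine ⟨(q : G), c17_mem t hqu, ?_, hinv, hbd, ?_, ?_⟩
  · exact hTF (q : G) q.2 hq1
  · intro F hF1
    obtain ⟨x, hx, hx2⟩ := hdeep F hF1
    exact ⟨x, hx, fun i => hx2 _ ((Sb t u).zpow_mem (c17_mem t hqu) i)⟩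
  · intro F hF1
    obtain ⟨x, hx, hx2⟩ := hdeep' F hF1
    exact ⟨x, hx, fun i => hx2 _ ((Sb t u).zpow_mem (c17_mem t hqu) i)⟩

end

/-- C17 -/
theorem sc17 (c1 : SC1) (c2 : SC2) (c5 : SC5) (c6 : SC6) (c10 : SC10) (a9 : SA9) : SC17 := by
  classical
  intro G _ S hS hSg hone P hTF HH hP t π hπ u hfp Z hZ
  obtain ⟨a, ha, rfl⟩ := hZ
  rcases a with z | H
  · exact c17_edge c2 c5 c6 c10 hS hSg hone hTF hP t π hπ u z ha hfp
  · obtain ⟨hH, hτ⟩ : H ∈ HH ∧ Tau t.E.T (t.c H) u := ha
    have hHu : (Sum.inr H : t.E.V ⊕ Set G) ≠ Sum.inl u := fun h => nomatch h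
    rcases hτ with hfix | ⟨z, huz, hcr⟩
    · have hord : ∀ n : ℕ, 0 < n → (t.c H) ^ n ≠ 1 := by
        intro n hn h
        refine (t.hc H hH).ord n hn ?_
        have := congrArg (fun x : P => (x : G)) h
        simpa using this
      obtain ⟨hno, huniq⟩ := (c1 P t.E t.triv (t.c H) hord).2.2.2.1 u hfix
      have hτu : ∀ w, Tau t.E.T (t.c H) w → w = u := by
        rintro w (hw | ⟨z, hwz, hcr⟩)
        · exact huniq w hw
        · exact absurd hcr (hno w z hwz)
      have hr : ∀ b, Rch t u (Sum.inr H) b → b = Sum.inr H := by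
        intro b hb
        unfold Rch at hb
        induction hb with
        | refl => rfl
        | @tail y y' _ h1 ih =>
          subst ih
          rcases y' with w | H'
          · have h2 : H ∈ HH ∧ Tau t.E.T (t.c H) w := h1.1
            exact absurd (congrArg Sum.inl (hτu w h2.2)) h1.2.2
          · exact absurd h1.1 id
      have hZ : Zc t π u (Sum.inr H) = H := by
        ext x
        constructor
        · intro hx
          have h1 := hr _ hx.2
          rcases c0_cls_cases hP t π x with ⟨H', _, hx', h2⟩ | ⟨_, h2⟩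
          · rw [h1] at h2
            rw [Sum.inr.inj h2]
            exact hx'
          · rw [h1] at h2
            exact nomatch h2
        · intro hx
          have h1 := c0_cls_inr hP t π hH hx
          refine ⟨?_, ?_⟩
          · rw [h1]
            exact hHu
          · rw [h1]
            exact c0_rch_refl t u _
      rw [hZ]
      exact ⟨(t.c H : G), ⟨t.c H, hfix, rfl⟩, t.hc H hH⟩
    · have h1 : Rch t u (Sum.inr H) (Sum.inl z) := by
        refine c0_rch_one t (a := Sum.inr H) (b := Sum.inl z) ⟨hH, Or.inr ⟨u, huz.symm,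
          c0_crs_symm hcr⟩⟩ hHu ?_
        intro h
        exact huz.ne (Sum.inl.inj h).symm
      rw [c0_zc_eq t π h1]
      exact c17_edge c2 c5 c6 c10 hS hSg hone hTF hP t π hπ u z huz hfp

end Pool.Agent.QF
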