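import Pool.Agent.QF.Stm
import Pool.Agent.QF.C0

/-!
# C2: the chain of lines around a vertex
-/

set_option autoImplicit false

namespace Pool.Agent.QF

open Pool.Agent.QIS Pool.Agent.QD MulAction

/-! ## permutations commuting with an action with finitely many orbits -/

section Abs

variable {Q X : Type} [Group Q] [MulAction Q X]

private theorem c2_zpow (Φ : Equiv.Perm X) (hΦ : ∀ (q : Q) (x : X), Φ (q • x) = q • Φ x)
    (q : Q) (i : ℤ) (x : X) : (Φ ^ i) (q • x) = q • (Φ ^ i) x := by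
  have h : Commute Φ (MulAction.toPerm q) := by
    ext y
    exact hΦ q y
  exact congrArg (fun f : Equiv.Perm X => f x) (h.zpow_left i).eq

private theorem c2_abs (Φ : Equiv.Perm X) (hΦ : ∀ (q : Q) (x : X), Φ (q • x) = q • Φ x)
    {F : Set X} (hF : F.Finite) (hcov : ∀ x : X, ∃ q : Q, q • x ∈ F) (x : X) :
    ∃ (q : Q) (m : ℕ), 0 < m ∧ ∀ i : ℤ, (Φ ^ (i + m)) x = q • (Φ ^ i) x := by
  choose r hr using hcov
  obtain ⟨i, j, hij, h⟩ := Set.Finite.exists_lt_map_eq_of_forall_mem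
    (f := fun n : ℕ => r ((Φ ^ (n : ℤ)) x) • (Φ ^ (n : ℤ)) x) (fun n => hr _) hF
  have h1 : (Φ ^ (j : ℤ)) x =
      ((r ((Φ ^ (j : ℤ)) x))⁻¹ * r ((Φ ^ (i : ℤ)) x)) • (Φ ^ (i : ℤ)) x := by
    rw [mul_smul]
    have h' : r ((Φ ^ (i : ℤ)) x) • (Φ ^ (i : ℤ)) x = r ((Φ ^ (j : ℤ)) x) • (Φ ^ (j : ℤ)) x := h
    rw [h', inv_smul_smul]
  refine ⟨(r ((Φ ^ (j : ℤ)) x))⁻¹ * r ((Φ ^ (i : ℤ)) x), j - i, Nat.sub_pos_of_lt hij,
    fun l => ?_⟩
  have h2 : l + ((j - i : ℕ) : ℤ) = (l - i) + j := by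
    rw [Nat.cast_sub hij.le]
    ring
  have h3 : (Φ ^ (l - (i : ℤ) + j)) x = (Φ ^ (l - (i : ℤ))) ((Φ ^ (j : ℤ)) x) := by
    rw [zpow_add]
    rfl
  have h4 : (Φ ^ l) x = (Φ ^ (l - (i : ℤ))) ((Φ ^ (i : ℤ)) x) := by
    conv_lhs => rw [← sub_add_cancel l (i : ℤ), zpow_add]
    rfl
  rw [h2, h3, h4, ← c2_zpow Φ hΦ, ← h1]

private theorem c2_per (Φ : Equiv.Perm X) {q : Q} {m : ℕ} {x : X}
    (h : ∀ i : ℤ, (Φ ^ (i + m)) x = q • (Φ ^ i) x) (l : ℤ) :
    ∀ i : ℤ, (Φ ^ (i + l * m)) x = q ^ l • (Φ ^ i) x := by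
  induction l using Int.induction_on with
  | zero =>
    intro i
    rw [zero_mul, add_zero, zpow_zero, one_smul]
  | succ n ih =>
    intro i
    have h1 : i + ((n : ℤ) + 1) * m = (i + n * m) + m := by ring
    rw [h1, h, ih, ← mul_smul, ← zpow_one_add, add_comm]
  | pred n ih =>
    intro i
    have h1 : i + (-(n : ℤ)) * m = (i + (-(n : ℤ) - 1) * m) + m := by ring
    have h2 := ih i
    rw [h1, h] at h2
    have h3 := congrArg (fun y => q⁻¹ • y) h2
    simp only [inv_smul_smul] at h3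
    rw [h3, ← mul_smul]
    congr 1
    rw [sub_eq_neg_add, zpow_add, zpow_neg_one]

end Abs

/-! ## flags -/

section Flags

variable {G : Type} [Group G] {S : Set G} {P : Subgroup G} {HH : Set (Set G)}

/-- flags at `u`: a neighbour of `u` and a line crossing the edge -/
def c2Fl (t : LT S P HH) (u : t.E.V) : Type :=
  {f : t.E.V × Set G // t.E.T.Adj u f.1 ∧ f.2 ∈ HH ∧ Crs t.E.T (t.c f.2) u f.1}

private theorem c2_ord (t : LT S P HH) {H : Set G} (hH : H ∈ HH) :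
    ∀ n : ℕ, 0 < n → (t.c H) ^ n ≠ 1 := by
  intro n hn h
  refine (t.hc H hH).ord n hn ?_
  have := congrArg (fun x : P => (x : G)) h
  simpa using this

/-- the other edge of the line -/
private theorem c2_oz (c1 : SC1) (t : LT S P HH) (u : t.E.V) (f : c2Fl t u) :
    ∃ g : c2Fl t u, g.1.2 = f.1.2 ∧ g.1.1 ≠ f.1.1 ∧
      ∀ g' : c2Fl t u, g'.1.2 = f.1.2 → g'.1.1 ≠ f.1.1 → g' = g := by
  obtain ⟨z, h1, h2, h3, h4⟩ :=
    (c1 P t.E t.triv (t.c f.1.2) (c2_ord t f.2.2.1)).2.2.2.2.1 u f.1.1 f.2.1 f.2.2.2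
  refine ⟨⟨(z, f.1.2), h2, f.2.2.1, h3⟩, rfl, h1, fun g' hg hne => ?_⟩
  have h5 := h4 g'.1.1 g'.2.1 (by rw [← hg]; exact g'.2.2.2)
  exact Subtype.ext (Prod.ext (h5.resolve_left hne) hg)

/-- the other line of the edge -/
private theorem c2_oh (t : LT S P HH) (u : t.E.V) (f : c2Fl t u) :
    ∃ g : c2Fl t u, g.1.1 = f.1.1 ∧ g.1.2 ≠ f.1.2 ∧
      ∀ g' : c2Fl t u, g'.1.1 = f.1.1 → g'.1.2 ≠ f.1.2 → g' = g := by
  obtain ⟨H₀, h0, H₁, h1, hne, h⟩ := t.two u f.1.1 f.2.1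
  have key : ∀ H ∈ HH, ∀ H' ∈ HH, H ≠ H' → f.1.2 = H →
      (∀ K ∈ HH, Crs t.E.T (t.c K) u f.1.1 ↔ (K = H ∨ K = H')) →
      ∃ g : c2Fl t u, g.1.1 = f.1.1 ∧ g.1.2 ≠ f.1.2 ∧
        ∀ g' : c2Fl t u, g'.1.1 = f.1.1 → g'.1.2 ≠ f.1.2 → g' = g := by
    intro H _ H' hH' hHH hf hK
    refine ⟨⟨(f.1.1, H'), f.2.1, hH', (hK H' hH').2 (Or.inr rfl)⟩, rfl, ?_, ?_⟩
    · exact fun h => hHH (hf.symm.trans (Eq.symm h))
    · intro g' hg hg'
      have h2 : Crs t.E.T (t.c g'.1.2) u f.1.1 := by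
        rw [← hg]
        exact g'.2.2.2
      rcases (hK _ g'.2.2.1).1 h2 with h3 | h3
      · exact absurd (h3.trans hf.symm) hg'
      · exact Subtype.ext (Prod.ext hg h3)
  rcases (h _ f.2.2.1).1 f.2.2.2 with h2 | h2
  · exact key H₀ h0 H₁ h1 hne h2 h
  · exact key H₁ h1 H₀ h0 (Ne.symm hne) h2 fun K hK => (h K hK).trans or_comm

/-- the stabilizer of `u` acts on the flags -/
def c2Act (hP : Piece S P HH) (t : LT S P HH) (u : t.E.V) :
    MulAction (stabilizer P u) (c2Fl t u) where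
  smul p f := ⟨((p : P) • f.1.1, tl ((p : P) : G) f.1.2), by
    have hu : (p : P) • u = u := p.2
    refine ⟨?_, hP.inv _ (p : P).2 _ f.2.2.1, ?_⟩
    · have h := t.E.map_adj (p : P) f.2.1
      rwa [hu] at h
    · have h := c0_crs_tl t f.2.2.1 (p : P) f.2.2.2
      rwa [hu] at h⟩
  one_smul f := Subtype.ext (Prod.ext (one_smul P f.1.1) (c0_tl_one f.1.2))
  mul_smul p q f := Subtype.ext (Prod.ext (mul_smul (p : P) (q : P) f.1.1)
    (c0_tl_mul _ _ f.1.2))

end Flags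

theorem sc2 (c1 : SC1) : SC2 := by
  classical
  intro G _ S _ _ P HH hP t u z hz
  choose oz hz1 hz2 hz3 using c2_oz c1 t u
  choose oh hh1 hh2 hh3 using c2_oh t u
  have zz : ∀ f, oz (oz f) = f := fun f =>
    (hz3 (oz f) f (hz1 f).symm (Ne.symm (hz2 f))).symm
  have hh : ∀ f, oh (oh f) = f := fun f =>
    (hh3 (oh f) f (hh1 f).symm (Ne.symm (hh2 f))).symm
  let Φ : Equiv.Perm (c2Fl t u) :=
    ⟨fun f => oh (oz f), fun f => oz (oh f), fun f => by simp only [hh, zz],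
      fun f => by simp only [hh, zz]⟩
  letI act : MulAction (stabilizer P u) (c2Fl t u) := c2Act hP t u
  have a1 : ∀ (p : stabilizer P u) (f : c2Fl t u), (p • f).1.1 = (p : P) • f.1.1 :=
    fun _ _ => rfl
  have a2 : ∀ (p : stabilizer P u) (f : c2Fl t u), (p • f).1.2 = tl ((p : P) : G) f.1.2 :=
    fun _ _ => rfl
  have ez : ∀ (p : stabilizer P u) (f : c2Fl t u), oz (p • f) = p • oz f := by
    intro p f
    refine (hz3 (p • f) (p • oz f) ?_ ?_).symm
    · rw [a2, a2, hz1]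
    · rw [a1, a1]
      intro h
      exact hz2 f (smul_left_cancel (p : P) h)
  have eh : ∀ (p : stabilizer P u) (f : c2Fl t u), oh (p • f) = p • oh f := by
    intro p f
    refine (hh3 (p • f) (p • oh f) ?_ ?_).symm
    · rw [a1, a1, hh1]
    · rw [a2, a2]
      intro h
      have h1 := congrArg (tl ((p : P) : G)⁻¹) h
      rw [c0_tl_inv, c0_tl_inv] at h1
      exact hh2 f h1
  have hΦ : ∀ (p : stabilizer P u) (f : c2Fl t u), Φ (p • f) = p • Φ f := by
    intro p f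
    show oh (oz (p • f)) = p • oh (oz f)
    rw [ez, eh]
  -- finitely many orbits
  obtain ⟨F, hF, _, hFc⟩ := c0_nbr_orb t.E u
  have hfib : ((fun f : c2Fl t u => f.1.1) ⁻¹' F).Finite := by
    refine hF.preimage' fun b _ => ?_
    by_cases he : ∃ g : c2Fl t u, g.1.1 = b
    · obtain ⟨g, hg⟩ := he
      refine (Set.toFinite {g, oh g}).subset fun f hf => ?_
      have hf' : f.1.1 = b := hf
      by_cases h1 : f.1.2 = g.1.2
      · exact Or.inl (Subtype.ext (Prod.ext (hf'.trans hg.symm) h1))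
      · exact Or.inr (hh3 g f (hf'.trans hg.symm) h1)
    · convert Set.finite_empty
      ext f
      constructor
      · intro hf
        exact absurd ⟨f, hf⟩ he
      · intro hf
        exact absurd hf (Set.notMem_empty f)
  have hcov : ∀ f : c2Fl t u, ∃ p : stabilizer P u, p • f ∈ (fun f : c2Fl t u => f.1.1) ⁻¹' F := by
    intro f
    obtain ⟨p, hp, hpF⟩ := hFc f.1.1 f.2.1
    exact ⟨⟨p, hp⟩, hpF⟩
  -- the first flag
  obtain ⟨H₀, h0, H₁, h1, _, htwo⟩ := t.two u z hz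
  let f₀ : c2Fl t u := ⟨(z, H₀), hz, h0, (htwo H₀ h0).2 (Or.inl rfl)⟩
  obtain ⟨q, m, hm, hq⟩ := c2_abs Φ hΦ hfib hcov f₀
  let f : ℤ → c2Fl t u := fun i => (Φ ^ i) f₀
  have hf0 : f 0 = f₀ := by
    show (Φ ^ (0 : ℤ)) f₀ = f₀
    rw [zpow_zero]
    rfl
  have hfs : ∀ i, f (i + 1) = oh (oz (f i)) := by
    intro i
    show (Φ ^ (i + 1)) f₀ = _
    rw [add_comm, zpow_add, zpow_one]
    rfl
  have hne : ∀ i, (f i).1.1 ≠ u := fun i => (f i).2.1.ne'
  have hzs : ∀ i, (oz (f i)).1.1 = (f (i + 1)).1.1 := by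
    intro i
    rw [hfs, hh1]
  have hTau : ∀ g : c2Fl t u, Tau t.E.T (t.c g.1.2) g.1.1 := fun g =>
    Or.inr ⟨u, g.2.1.symm, c0_crs_symm g.2.2.2⟩
  -- (A)
  have hA1 : ∀ i, Rch t u (Sum.inl (f i).1.1) (Sum.inl (f (i + 1)).1.1) := by
    intro i
    have b1 : Ad1 t (Sum.inl (f i).1.1) (Sum.inr (f i).1.2) := ⟨(f i).2.2.1, hTau _⟩
    have b2 : Ad1 t (Sum.inr (f i).1.2) (Sum.inl (f (i + 1)).1.1) := by
      refine ⟨(f i).2.2.1, ?_⟩
      rw [← hzs, ← hz1]
      exact hTau _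
    refine c0_rch_trans t (c0_rch_one t b1 ?_ ?_) (c0_rch_one t b2 ?_ ?_)
    · exact fun h => hne i (Sum.inl.inj h)
    · exact Sum.inr_ne_inl
    · exact Sum.inr_ne_inl
    · exact fun h => hne (i + 1) (Sum.inl.inj h)
  have hA : ∀ n : ℕ, Rch t u (Sum.inl z) (Sum.inl (f n).1.1) := by
    intro n
    induction n with
    | zero =>
      have : (f ((0 : ℕ) : ℤ)).1.1 = z := by
        rw [Nat.cast_zero, hf0]
      rw [this]
      exact c0_rch_refl t u _
    | succ n ih =>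
      have h2 := hA1 n
      rw [Nat.cast_succ]
      exact c0_rch_trans t ih h2
  -- (B)
  have hB : ∀ b, Rch t u (Sum.inl z) b → match b with
      | Sum.inl w => ∃ i, side t.E.T (f i).1.1 u w
      | Sum.inr H => H ∈ HH ∧ ∃ w, Tau t.E.T (t.c H) w ∧ ∃ i, side t.E.T (f i).1.1 u w := by
    intro b hb
    unfold Rch at hb
    induction hb with
    | refl =>
      refine ⟨0, ?_⟩
      rw [hf0]
      exact side_self _ _
    | @tail y y' _ h ih =>
      obtain ⟨had, hyu, hyu'⟩ := h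
      rcases y with w | H <;> rcases y' with w' | H'
      · obtain ⟨i, hi⟩ := ih
        refine ⟨i, (side_adj had ?_).1 hi⟩
        intro he
        have hw : w ≠ u := fun h => hyu (by rw [h])
        have hw' : w' ≠ u := fun h => hyu' (by rw [h])
        rcases Sym2.eq_iff.1 he with ⟨_, h2⟩ | ⟨h2, _⟩
        · exact hw' h2
        · exact hw h2
      · exact ⟨had.1, w, had.2, ih⟩
      · obtain ⟨hH, w, hw, i, hi⟩ := ih
        have hw' : u ≠ w' := fun h => hyu' (by rw [h])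
        obtain ⟨y, hy, hyw⟩ := c0_first t.E.tree hw'
        by_cases hyi : y = (f i).1.1
        · exact ⟨i, hyi ▸ hyw⟩
        · have c6 := (c1 P t.E t.triv (t.c H) (c2_ord t hH)).2.2.2.2.2
          have d1 : Crs t.E.T (t.c H) u (f i).1.1 :=
            c6 w w' u (f i).1.1 (f i).2.1 hw had.2 hi
              (c0_disj t.E.tree hy (f i).2.1 hyi hyw)
          have d2 : Crs t.E.T (t.c H) u y :=
            c6 w' w u y hy had.2 hw hyw
              (c0_disj t.E.tree (f i).2.1 hy (Ne.symm hyi) hi)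
          let g1 : c2Fl t u := ⟨((f i).1.1, H), (f i).2.1, hH, d1⟩
          let g2 : c2Fl t u := ⟨(y, H), hy, hH, d2⟩
          by_cases hHi : H = (f i).1.2
          · -- the line of the flag
            have e1 : g2 = oz (f i) := hz3 (f i) g2 hHi hyi
            refine ⟨i + 1, ?_⟩
            rw [← hzs, ← e1]
            exact hyw
          · have e1 : g1 = oh (f i) := hh3 (f i) g1 rfl hHi
            have e2 : f i = oh (oz (f (i - 1))) := by
              have := hfs (i - 1)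
              rwa [sub_add_cancel] at this
            have e3 : g1 = oz (f (i - 1)) := by
              rw [e1, e2, hh]
            have e4 : g2 = oz g1 := hz3 g1 g2 rfl hyi
            have e5 : g2 = f (i - 1) := by
              rw [e4, e3, zz]
            refine ⟨i - 1, ?_⟩
            rw [← e5]
            exact hyw
      · exact had.elim
  refine ⟨q, q.2, ?_, (fun j : ℕ => (f j).1.1) '' Set.Iio m, (Set.finite_Iio m).image _, ?_⟩
  · have h2 : (f m).1.1 = (q : P) • z := by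
      have h3 := hq 0
      rw [zero_add] at h3
      show ((Φ ^ (m : ℤ)) f₀).1.1 = _
      rw [h3, a1, zpow_zero]
      rfl
    rw [← h2]
    exact hA m
  · intro z' hz' hr
    obtain ⟨i, hi⟩ := hB _ hr
    have hzi : (f i).1.1 = z' := c0_adj_branch t.E.tree (f i).2.1 hz' hi
    have hm0 : (m : ℤ) ≠ 0 := by exact_mod_cast hm.ne'
    have hr0 : 0 ≤ i % (m : ℤ) := Int.emod_nonneg i hm0
    have hr1 : i % (m : ℤ) < m := Int.emod_lt_of_pos i (by exact_mod_cast hm)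
    have hj : ((i % (m : ℤ)).toNat : ℤ) = i % m := Int.toNat_of_nonneg hr0
    refine ⟨-(i / m), (i % (m : ℤ)).toNat, ?_, ?_⟩
    · rw [Set.mem_Iio]
      omega
    · have h2 := c2_per Φ hq (i / m) (i % m)
      have h3 : i % (m : ℤ) + i / m * m = i := by
        rw [mul_comm]
        exact Int.emod_add_mul_ediv i m
      rw [h3] at h2
      have h4 : z' = ((q ^ (i / (m : ℤ)) : stabilizer P u) : P) • ((Φ ^ (i % (m : ℤ))) f₀).1.1 := by
        rw [← a1, ← h2]
        exact hzi.symm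
      show ((Φ ^ (((i % (m : ℤ)).toNat : ℕ) : ℤ)) f₀).1.1 = _
      rw [hj, h4, smul_smul]
      have h5 : (q : P) ^ (-(i / (m : ℤ))) * ((q ^ (i / (m : ℤ)) : stabilizer P u) : P) = 1 := by
        rw [Subgroup.coe_zpow, ← zpow_add, neg_add_cancel, zpow_zero]
      rw [h5, one_smul]

end Pool.Agent.QF
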