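import Pool.Agent.QF.C0
import Pool.Agent.H67.Q.Ends

/-!
# Row C6 of the project QD (MP_bbdce3_al): the new half-spaces are deep
-/

set_option autoImplicit false

namespace Pool.Agent.QF

open Pool.Agent.QIS Pool.Agent.QD MulAction

section C6

theorem c6_dist_le {P : Type} [Group P] (E : Splitting P) (g : P) (x y : E.V) :
    E.T.dist (g • x) (g • y) ≤ E.T.dist x y := by
  obtain ⟨p, hp⟩ := E.tree.connected.exists_walk_length_eq_dist x y
  let f : E.T →g E.T := ⟨fun v => g • v, fun h => E.map_adj g h⟩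
  have h1 : E.T.dist (f x) (f y) ≤ (p.map f).length := SimpleGraph.dist_le _
  rw [SimpleGraph.Walk.length_map, hp] at h1
  exact h1

theorem c6_dist {P : Type} [Group P] (E : Splitting P) (g : P) (x y : E.V) :
    E.T.dist (g • x) (g • y) = E.T.dist x y := by
  refine le_antisymm (c6_dist_le E g x y) ?_
  have h := c6_dist_le E g⁻¹ (g • x) (g • y)
  rwa [inv_smul_smul, inv_smul_smul] at h

theorem c6_side_dist {V : Type} {T : SimpleGraph V} (hT : T.IsTree) {u w e w' : V}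
    (hwe : T.Adj w e) (hu : side T e w u) (hw' : side T w e w') : T.dist u w ≤ T.dist u w' := by
  classical
  obtain ⟨p, hp⟩ := hT.connected.exists_walk_length_eq_dist u w'
  have hw : w ∈ p.support := by
    by_contra h
    have h1 := (q5_walk_side (T := T) (z := e) p h).2 hw'
    exact (side_swap hT hwe u).1 hu h1
  have h1 := congrArg SimpleGraph.Walk.length (p.take_spec hw)
  rw [SimpleGraph.Walk.length_append] at h1
  have h2 : T.dist u w ≤ (p.takeUntil w hw).length := SimpleGraph.dist_le _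
  omega

/-- far translates of `u` in a branch at `u` -/
theorem c6_far {P : Type} [Group P] (E : Splitting P) {u z : E.V} (huz : E.T.Adj u z) (B : ℕ) :
    ∃ g : P, side E.T z u (g • u) ∧ B < E.T.dist u (g • u) := by
  obtain ⟨y, hy, hd⟩ := q5_unbdd E huz u (B + 3)
  have hy1 : side E.T z u y := (side_swap E.tree huz y).2 hy
  have hyu : y ≠ u := by
    rintro rfl
    rw [SimpleGraph.dist_self] at hd
    omega
  obtain ⟨y', hyy', -⟩ := exists_first E.tree hyu
  have h1 : E.T.dist y y' = 1 := SimpleGraph.dist_eq_one_iff_adj.2 hyy'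
  have h2 : E.T.dist u y ≤ E.T.dist u y' + E.T.dist y' y := E.tree.connected.dist_triangle
  have h3 : E.T.dist y' y = 1 := by rw [SimpleGraph.dist_comm]; exact h1
  have hy'u : y' ≠ u := by
    rintro rfl
    rw [SimpleGraph.dist_self] at h2
    omega
  have hy1' : side E.T z u y' := by
    refine (side_adj hyy' ?_).1 hy1
    intro hEq
    rcases Sym2.eq_iff.1 hEq with h | h
    · exact hy'u h.2
    · exact hyu h.1
  obtain ⟨g, hg⟩ := E.edge_trans hyy'
  obtain ⟨k, hk⟩ := E.edge_trans huz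
  have hku : u = k • E.a ∨ u = k • E.b := by
    rcases hk with ⟨h, -⟩ | ⟨-, h⟩
    · exact Or.inl h.symm
    · exact Or.inr h.symm
  have hgu : (g * k⁻¹) • u = y ∨ (g * k⁻¹) • u = y' := by
    rcases hku with h | h
    · rw [h, mul_smul, inv_smul_smul]
      rcases hg with ⟨h4, -⟩ | ⟨h4, -⟩
      · exact Or.inl h4
      · exact Or.inr h4
    · rw [h, mul_smul, inv_smul_smul]
      rcases hg with ⟨-, h4⟩ | ⟨-, h4⟩
      · exact Or.inr h4
      · exact Or.inl h4
  refine ⟨g * k⁻¹, ?_⟩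
  rcases hgu with h | h
  · rw [h]
    exact ⟨hy1, by omega⟩
  · rw [h]
    exact ⟨hy1', by omega⟩

/-- infinitely many neighbours -/
theorem c6_nbr {P : Type} [Group P] (E : Splitting P) (hE : E.edgeGroup = ⊥) {u e : E.V} (g : P)
    (hinf : Infinite (stabilizer P u)) (he : E.T.Adj (g • u) e) (Z : Set E.V) (hZ : Z.Finite) :
    ∃ y, E.T.Adj (g • u) y ∧ y ∉ Z := by
  by_contra hcon
  push Not at hcon
  have hinj : Function.Injective fun s : stabilizer P u => (g * (s : P) * g⁻¹) • e := by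
    intro s s' hss
    have h1 : (g * (s : P) * g⁻¹) • e = (g * (s' : P) * g⁻¹) • e := hss
    have hfix : ∀ s : stabilizer P u, (g * (s : P) * g⁻¹) • g • u = g • u := by
      intro s
      have hs : (s : P) • u = u := s.2
      rw [mul_smul, mul_smul, inv_smul_smul, hs]
    have h2 : ((g * (s' : P) * g⁻¹)⁻¹ * (g * (s : P) * g⁻¹)) • e = e := by
      rw [mul_smul, h1, inv_smul_smul]
    have h3 : ((g * (s' : P) * g⁻¹)⁻¹ * (g * (s : P) * g⁻¹)) • g • u = g • u := by
      rw [mul_smul, hfix s, inv_smul_eq_iff, hfix s']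
    have h4 := c0_free E hE he h3 h2
    have h5 : g * (s : P) * g⁻¹ = g * (s' : P) * g⁻¹ := (inv_mul_eq_one.1 h4).symm
    exact Subtype.ext (mul_left_cancel (mul_right_cancel h5))
  have hran : Set.range (fun s : stabilizer P u => (g * (s : P) * g⁻¹) • e) ⊆ Z := by
    rintro _ ⟨s, rfl⟩
    refine hcon _ ?_
    have h1 := E.map_adj (g * (s : P) * g⁻¹) he
    have hs : (s : P) • u = u := s.2
    have h2 : (g * (s : P) * g⁻¹) • g • u = g • u := by
      rw [mul_smul, mul_smul, inv_smul_smul, hs]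
    rw [h2] at h1
    exact h1
  exact (Set.infinite_range_of_injective hinj) (hZ.subset hran)

variable {G : Type} [Group G] {S : Set G} {P : Subgroup G} {HH : Set (Set G)}

theorem c6_ord (t : LT S P HH) {H : Set G} (hH : H ∈ HH) :
    ∀ n : ℕ, 0 < n → (t.c H) ^ n ≠ 1 := by
  intro n hn h
  refine (t.hc H hH).ord n hn ?_
  have h1 := congrArg (fun x : P => (x : G)) h
  simpa using h1

/-- a far half-space in a branch -/
theorem c6_claim (c1 : SC1) (t : LT S P HH) {u z : t.E.V} (huz : t.E.T.Adj u z)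
    (hinf : Infinite (stabilizer P u)) (B : ℕ) :
    ∃ H ∈ HH, (∃ w, Tau t.E.T (t.c H) w ∧ side t.E.T z u w) ∧
      ∀ w', Tau t.E.T (t.c H) w' → B < t.E.T.dist u w' := by
  obtain ⟨g, hgs, hgd⟩ := c6_far t.E huz B
  have hne : g • u ≠ u := by
    intro h
    rw [h, SimpleGraph.dist_self] at hgd
    omega
  obtain ⟨e, hwe, heu⟩ := c0_first t.E.tree hne
  obtain ⟨H₀, hH₀, H₁, hH₁, -, htwo⟩ := t.two _ _ hwe
  have hc0 := (htwo H₀ hH₀).2 (Or.inl rfl)
  have hc1 := (htwo H₁ hH₁).2 (Or.inr rfl)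
  obtain ⟨z₀, -, -, -, hz₀⟩ := (c1 P t.E t.triv (t.c H₀) (c6_ord t hH₀)).2.2.2.2.1 _ _ hwe hc0
  obtain ⟨z₁, -, -, -, hz₁⟩ := (c1 P t.E t.triv (t.c H₁) (c6_ord t hH₁)).2.2.2.2.1 _ _ hwe hc1
  obtain ⟨y, hwy, hy⟩ := c6_nbr t.E t.triv g hinf hwe {e, z₀, z₁} (Set.toFinite _)
  simp only [Set.mem_insert_iff, Set.mem_singleton_iff, not_or] at hy
  obtain ⟨H, hH, H₂, -, -, hHy⟩ := t.two _ _ hwy
  have hcy : Crs t.E.T (t.c H) (g • u) y := (hHy H hH).2 (Or.inl rfl)
  have hce : ¬ Crs t.E.T (t.c H) (g • u) e := by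
    intro h
    rcases (htwo H hH).1 h with rfl | rfl
    · rcases hz₀ y hwy hcy with h1 | h1
      · exact hy.1 h1
      · exact hy.2.1 h1
    · rcases hz₁ y hwy hcy with h1 | h1
      · exact hy.1 h1
      · exact hy.2.2 h1
  have htau : Tau t.E.T (t.c H) (g • u) := Or.inr ⟨y, hwy, hcy⟩
  refine ⟨H, hH, ⟨g • u, htau, hgs⟩, fun w' hw' => ?_⟩
  have h1 : ¬ side t.E.T e (g • u) w' := by
    intro h
    exact hce ((c1 P t.E t.triv (t.c H) (c6_ord t hH)).2.2.2.2.2 w' (g • u) (g • u) e hwe hw' htau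
      h (side_self _ _))
  have h2 : side t.E.T (g • u) e w' := (side_swap t.E.tree hwe.symm w').2 h1
  exact lt_of_lt_of_le hgd (c6_side_dist t.E.tree hwe heu h2)

end C6

/-- row C6: the new half-spaces are deep -/
theorem sc6 (c1 : SC1) : SC6 := by
  intro G _ S hS hSg P HH hP t π hπ u z huz hinf F hF
  have hHF : (⋃ f ∈ F, {H : Set G | H ∈ HH ∧ f ∈ H}).Finite := by
    refine hF.biUnion fun f _ => ?_
    refine Set.Subsingleton.finite ?_
    rintro H ⟨hH, hf⟩ H' ⟨hH', hf'⟩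
    by_contra hne
    exact Set.disjoint_left.1 (hP.disj H hH H' hH' hne) hf hf'
  have hw : ∀ H : Set G, ∃ w : t.E.V, H ∈ HH → Tau t.E.T (t.c H) w := by
    intro H
    by_cases hH : H ∈ HH
    · obtain ⟨w, hw⟩ := (c1 P t.E t.triv (t.c H) (c6_ord t hH)).2.2.1
      exact ⟨w, fun _ => hw⟩
    · exact ⟨u, fun h => absurd h hH⟩
  choose wH hwH using hw
  obtain ⟨B, hB⟩ := (hHF.image (fun H => t.E.T.dist u (wH H))).bddAbove
  obtain ⟨H, hH, ⟨w, hw, hws⟩, hfar⟩ := c6_claim c1 t huz hinf B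
  obtain ⟨x, hx, -⟩ := (t.hc H hH).deep ∅ Set.finite_empty
  have hcls := c0_cls_inr hP t π hH hx
  have hwu : w ≠ u := by
    rintro rfl
    exact (side_swap t.E.tree huz w).1 hws (side_self _ _)
  refine ⟨x, ⟨?_, ?_⟩, ?_⟩
  · rw [hcls]
    exact fun h => by cases h
  · rw [hcls]
    refine c0_rch_trans t (c0_rch_side t huz hws) (c0_rch_one t ?_ ?_ ?_)
    · exact ⟨hH, hw⟩
    · exact fun h => hwu (Sum.inl.inj h)
    · exact fun h => by cases h
  · intro p hp hpx
    obtain ⟨q, hq, rfl⟩ := Subgroup.mem_map.1 hp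
    have hqu : q • u = u := hq
    have hq1 : tl (q : G) H ∈ HH := hP.inv q q.2 H hH
    have h1 : t.E.T.dist u (wH (tl (q : G) H)) ≤ B := by
      refine hB ⟨tl (q : G) H, ?_, rfl⟩
      simp only [Set.mem_iUnion]
      exact ⟨(q : G) * x, hpx, hq1, (c0_mem_tl _ _ _).2 hx⟩
    have h2 := c0_tau_tl t hq1 q⁻¹ (hwH _ hq1)
    have h3 : tl ((q⁻¹ : P) : G) (tl (q : G) H) = H := by
      rw [Subgroup.coe_inv]
      exact c0_tl_inv _ _
    rw [h3] at h2
    have h4 := hfar _ h2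
    have h5 := c6_dist t.E q⁻¹ u (wH (tl (q : G) H))
    have h6 : q⁻¹ • u = u := by rw [inv_smul_eq_iff, hqu]
    rw [h6] at h5
    omega

end Pool.Agent.QF
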