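import Pool.Agent.QD.C14
import Pool.Agent.H67.W4.Fin3

/-!
# An uncrossed half-space is enough

Project of MP_bbdce3_al.  If a one-ended group has an uncrossed half-space along a line with three
disjoint translates, then every quasi-isometric group splits over a two-ended subgroup.
-/

set_option autoImplicit false

namespace Pool.Agent.QF

open Pool.Agent.QIS Pool.Agent.QD MulAction

variable {G : Type} [Group G] {S : Set G}

/-- the stabilizer of a half-space -/
def stb (H : Set G) : Subgroup G where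
  carrier := {g | tl g H = H}
  mul_mem' := by
    intro a b ha hb
    have h : tl (a * b) H = tl a (tl b H) := by
      ext x
      show (a * b)⁻¹ * x ∈ H ↔ b⁻¹ * (a⁻¹ * x) ∈ H
      rw [mul_inv_rev, mul_assoc]
    show tl (a * b) H = H
    rw [h, show tl b H = H from hb]
    exact ha
  one_mem' := by
    ext x
    show (1 : G)⁻¹ * x ∈ H ↔ x ∈ H
    rw [inv_one, one_mul]
  inv_mem' := by
    intro a ha
    have ha' : tl a H = H := ha
    ext x
    show (a⁻¹)⁻¹ * x ∈ H ↔ x ∈ H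
    rw [inv_inv]
    exact c14_tl ha' x

theorem mem_stb {H : Set G} {g : G} : g ∈ stb H ↔ tl g H = H := Iff.rfl

theorem half_splits (a9 : SA9) (c12 : SC12) (G H : Type) [Group G] [Group H] (S : Set G)
    (S' : Set H) (hS : S.Finite) (hS' : S'.Finite) (hSg : Subgroup.closure S = ⊤)
    (hS'g : Subgroup.closure S' = ⊤) (hone : OneEnded S) (H₁ : Set G) (c : G)
    (hs : HS S H₁ c) (hU : Uncr S H₁) (k : Fin 3 → G)
    (hk : ∀ i j, i ≠ j → Disjoint (tl (k i) H₁) (tl (k j) H₁))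
    (hqi : ∃ (K : ℕ) (F : G → H), IsQI S S' K F) : SplitsOverTwoEnded H := by
  obtain ⟨hs', -, -, -, h2e⟩ := a9 G S hS hSg H₁ c hs
  have hcC : c ∈ stb H₁ := mem_stb.2 (c14_mem hs)
  have hst : ∀ g ∈ stb H₁, tl g H₁ = H₁ := fun g hg => hg
  have hte : TwoEnded (stb H₁) := h2e (stb H₁) hcC hst
  have hcj : ∀ j : ℤ, c ^ j ∈ stb H₁ := fun j => (stb H₁).zpow_mem hcC j
  obtain ⟨K, F, hF⟩ := hqi
  obtain ⟨K', F', hF', h1, h2⟩ := exists_quasiInverse hSg hS'g K F hF
  obtain ⟨c', hc', hinf, Dc, hcov⟩ := line_of_twoEnded (S := S) hte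
  -- crossing points are near the line
  have hcr : ∃ e : ℕ, ∀ x y : G, ¬ (x ∈ H₁ ↔ y ∈ H₁) →
      x ∈ nbhd S (wdist S x y + e) (stb H₁ : Set G) := by
    obtain ⟨R1, hR1⟩ := c14_deep hs 1
    obtain ⟨R2, hR2⟩ := c14_deep hs' 1
    refine ⟨R1 + R2 + 1, fun x y hxy => ?_⟩
    have hW : ∀ g, ∀ s ∈ S, (¬ (g ∈ H₁ ↔ g * s ∈ H₁)) →
        g ∈ nbhd S (R1 + R2) (stb H₁ : Set G) := by
      intro g s hsS hne
      have hd := wdist_gen hsS g
      by_cases hg : g ∈ H₁
      · have hgs : g * s ∉ H₁ := fun h => hne ⟨fun _ => h, fun _ => hg⟩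
        obtain ⟨j, hj⟩ := hR1 g hg (fun h => by
          have := h _ hgs
          omega)
        exact ⟨c ^ j, hcj j, by omega⟩
      · have hgs : g * s ∈ H₁ := by
          by_contra h
          exact hne ⟨fun h' => absurd h' hg, fun h' => absurd h' h⟩
        obtain ⟨j, hj⟩ := hR2 g hg (fun h => by
          have := h (g * s) (fun h' => h' hgs)
          omega)
        exact ⟨c ^ j, hcj j, by omega⟩
    have h3 := near_of_cross hSg H₁ (stb H₁ : Set G) (R1 + R2) hW x y hxy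
    exact nbhd_mono (by omega) _ h3
  -- deep points
  have hfar : ∀ d : ℕ, ∃ F₀ : Set G, F₀.Finite ∧ ∀ t, (∀ i : ℤ, c ^ i * t ∉ F₀) →
      t ∉ nbhd S d (stb H₁ : Set G) := by
    intro d
    obtain ⟨ρ, hρ⟩ := c14_near hs hst
    refine ⟨{y | wdist S 1 y ≤ ρ + d}, ball_finite hS hSg 1 _, fun t ht => ?_⟩
    rintro ⟨g, hg, hd⟩
    obtain ⟨j, hj⟩ := hρ g hg
    refine ht (-j) ?_
    show wdist S 1 (c ^ (-j) * t) ≤ ρ + d
    rw [← wdist_mul_left (c ^ j), mul_one, zpow_neg, mul_inv_cancel_left]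
    have e1 := wdist_triangle hSg (c ^ j) g t
    rw [wdist_comm hSg] at hj hd
    omega
  have hdeep : ∀ d : ℕ, (∃ t ∈ H₁, t ∉ nbhd S d (stb H₁ : Set G)) ∧
      (∃ t, t ∉ H₁ ∧ t ∉ nbhd S d (stb H₁ : Set G)) := by
    intro d
    obtain ⟨F₀, hF₀, hF₀'⟩ := hfar d
    obtain ⟨x, hx, hx'⟩ := hs.deep F₀ hF₀
    obtain ⟨y, hy, hy'⟩ := hs.deep' F₀ hF₀
    exact ⟨⟨x, hx, hF₀' x hx'⟩, ⟨y, hy, hF₀' y hy'⟩⟩
  -- uncrossed
  have hnc : ∀ K : ℕ, ∃ R : ℕ, ∀ φ : G → G, IsQI S S K φ →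
      (∀ g ∈ stb H₁, φ g ∉ nbhd S R (stb H₁ : Set G) → φ g ∈ H₁) ∨
      (∀ g ∈ stb H₁, φ g ∉ nbhd S R (stb H₁ : Set G) → φ g ∉ H₁) := by
    intro K
    obtain ⟨κ, Dd, M', hw⟩ := c12 G S hS hSg H₁ c hs K
    obtain ⟨M, hM⟩ := hU κ Dd M'
    obtain ⟨ρ, hρ⟩ := c14_near hs hst
    obtain ⟨R1, hR1⟩ := c14_deep hs (M + (K * ρ + K))
    obtain ⟨R2, hR2⟩ := c14_deep hs' (M + (K * ρ + K))
    refine ⟨R1 + R2, fun φ hφ => ?_⟩
    obtain ⟨w, hww, hwL⟩ := hw φ hφ
    have hline : ∀ g ∈ stb H₁, ∃ j : ℤ, wdist S (φ g) (w.L j) ≤ K * ρ + K := by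
      intro g hg
      obtain ⟨j, hj⟩ := hρ g hg
      refine ⟨j, ?_⟩
      rw [hwL j]
      have h1 := hφ.1 g (c ^ j)
      have h2 : K * wdist S g (c ^ j) ≤ K * ρ := Nat.mul_le_mul_left K hj
      omega
    rcases hM w hww with h | h
    · right
      intro g hg hgn h1
      have h2 : φ g ∈ Dp S (M + (K * ρ + K)) H₁ := by
        by_contra h3
        obtain ⟨j, hj⟩ := hR1 _ h1 h3
        exact hgn ⟨c ^ j, hcj j, by omega⟩
      obtain ⟨j, hj⟩ := hline g hg
      exact h j (c14_dp hSg h2 hj)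
    · left
      intro g hg hgn
      by_contra h1
      have h2 : φ g ∈ Dp S (M + (K * ρ + K)) H₁ᶜ := by
        by_contra h3
        obtain ⟨j, hj⟩ := hR2 _ h1 h3
        exact hgn ⟨c ^ j, hcj j, by omega⟩
      obtain ⟨j, hj⟩ := hline g hg
      exact h j (c14_dp hSg h2 hj)
  let D : QIT.Sp G :=
    { S := S, hS := hS, gS := hSg, hone := hone, Cg := stb H₁, hC := hte, H0 := H₁
      hinv := fun x hx g => c14_tl hx g
      hcr := hcr, hdeep := hdeep, nc := hnc
      three := ⟨k, fun i j hij v hv => Set.disjoint_left.1 (hk i j hij) hv.1 hv.2⟩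
      c := c', hc := hc', hinf := hinf, Dc := Dc, hcov := hcov }
  let P : QIT.Ht G H :=
    { D := D
      S' := S', hS' := hS', gS' := hS'g
      K := max (max K K') 1
      hK := le_max_right _ _
      F :=
        { f := F
          f' := F'
          hf := hF.mono ((le_max_left _ _).trans (le_max_left _ _))
          hf' := hF'.mono ((le_max_right _ _).trans (le_max_left _ _))
          h1 := fun y => (h1 y).trans ((le_max_right _ _).trans (le_max_left _ _))
          h2 := fun x => (h2 x).trans ((le_max_right _ _).trans (le_max_left _ _)) } }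
  exact P.splits

end Pool.Agent.QF
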