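import Pool.Agent.QF.Asm
import Pool.Agent.QF.Half
import Pool.Agent.QE.Fin

/-!
# The final theorem of the project QF (MP_bbdce3_al)
-/

set_option autoImplicit false

namespace Pool.Agent.QF

open Pool.Agent.QIS Pool.Agent.QD MulAction

/-- a piece and a subgroup of finite index -/
theorem first_piece (a9 : SA9) {G : Type} [Group G] {S : Set G} (hS : S.Finite)
    (hSg : Subgroup.closure S = ⊤) {P : Subgroup G} {HH : Set (Set G)} (hP : QD.Piece S P HH)
    (L : Subgroup P) (hL : L.FiniteIndex) : Piece S (L.map P.subtype) HH := by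
  classical
  have hle : L.map P.subtype ≤ P := Subgroup.map_subtype_le L
  -- representatives
  obtain ⟨T, hT, hTc⟩ : ∃ T : Set G, T.Finite ∧ ∀ p ∈ P, ∃ r ∈ T, ∃ l ∈ L.map P.subtype,
      p = r * l := by
    have hfin : Finite (P ⧸ L) := Subgroup.finite_quotient_of_finiteIndex
    refine ⟨Set.range (fun q : P ⧸ L => ((q.out : P) : G)), Set.finite_range _, ?_⟩
    intro p hp
    obtain ⟨l, hl⟩ := QuotientGroup.mk_out_eq_mul L (⟨p, hp⟩ : P)
    refine ⟨_, ⟨QuotientGroup.mk (⟨p, hp⟩ : P), rfl⟩, ((l : P) : G)⁻¹, ?_, ?_⟩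
    · exact Subgroup.inv_mem _ ⟨(l : P), l.2, rfl⟩
    · show p = (((QuotientGroup.mk (⟨p, hp⟩ : P) : P ⧸ L).out : P) : G) * ((l : P) : G)⁻¹
      rw [hl, Subgroup.coe_mul, mul_inv_cancel_right]
  have htl : ∀ (a b : G) (H : Set G), tl (a * b) H = tl a (tl b H) := by
    intro a b H
    ext x
    show (a * b)⁻¹ * x ∈ H ↔ b⁻¹ * (a⁻¹ * x) ∈ H
    rw [mul_inv_rev, mul_assoc]
  refine ⟨fun p hp => hP.inv p (hle hp), hP.disj, ?_, ?_, ?_, hP.ne⟩
  · intro H hH
    obtain ⟨c, hc, hHS⟩ := hP.hs H hH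
    obtain ⟨n, hn, -, hmem⟩ := Subgroup.exists_pow_mem_of_index_ne_zero hL.index_ne_zero
      (⟨c, hc⟩ : P)
    exact ⟨c ^ n, ⟨_, hmem, rfl⟩, (a9 G S hS hSg H c hHS).2.2.1 n hn⟩
  · obtain ⟨F, hF, hFc⟩ := hP.orb
    refine ⟨Set.image2 (fun r f => tl r⁻¹ f) T F, hT.image2 _ hF, fun H hH => ?_⟩
    obtain ⟨p, hp, hpF⟩ := hFc H hH
    obtain ⟨r, hr, l, hl, rfl⟩ := hTc p hp
    refine ⟨l, hl, r, hr, _, hpF, ?_⟩
    show tl r⁻¹ (tl (r * l) H) = tl l H
    rw [← htl, inv_mul_cancel_left]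
  · obtain ⟨F, hF, hFc⟩ := hP.core
    refine ⟨Set.image2 (fun r f => r⁻¹ * f) T F, hT.image2 _ hF, fun x hx => ?_⟩
    obtain ⟨p, hp, hpF⟩ := hFc x hx
    obtain ⟨r, hr, l, hl, rfl⟩ := hTc p hp
    refine ⟨l, hl, r, hr, _, hpF, ?_⟩
    show r⁻¹ * (r * l * x) = l * x
    rw [mul_assoc, inv_mul_cancel_left]

/-- three disjoint translates -/
theorem three_translates (a9 : SA9) (c10 : SC10) {G : Type} [Group G] {S : Set G} (hS : S.Finite)
    (hSg : Subgroup.closure S = ⊤) {P : Subgroup G} {HH : Set (Set G)} (hP : Piece S P HH)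
    (hfp : ¬ Group.IsFinitelyPresented P) {H : Set G} (hH : H ∈ HH) :
    ∃ k : Fin 3 → G, ∀ i j, i ≠ j → Disjoint (tl (k i) H) (tl (k j) H) := by
  classical
  obtain ⟨c, hc, hHS⟩ := hP.hs H hH
  have hinf : {H' : Set G | ∃ p ∈ P, H' = tl p H}.Infinite := by
    intro hfin
    apply hfp
    refine c10.1 P ?_
    let C : Subgroup G := stb H ⊓ P
    have hcC : c ∈ C := ⟨c14_mem hHS, hc⟩
    have hte : TwoEnded C := (a9 G S hS hSg H c hHS).2.2.2.2 C hcC (fun g hg => hg.1)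
    have hCP : C ≤ P := inf_le_right
    have hte' : TwoEnded (C.subgroupOf P) :=
      TwoEnded.congr (Subgroup.subgroupOfEquivOfLe hCP).symm hte
    have hfi : (C.subgroupOf P).FiniteIndex := by
      have h1 : Finite {H' : Set G | ∃ p ∈ P, H' = tl p H} := hfin.to_subtype
      let f : P ⧸ (C.subgroupOf P) → {H' : Set G | ∃ p ∈ P, H' = tl p H} := fun q =>
        ⟨tl ((q.out : P) : G) H, _, (q.out : P).2, rfl⟩
      have hf : Function.Injective f := by
        intro q q' hqq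
        have h2 : tl ((q.out : P) : G) H = tl ((q'.out : P) : G) H := congrArg Subtype.val hqq
        rw [← QuotientGroup.out_eq' q, ← QuotientGroup.out_eq' q']
        rw [QuotientGroup.eq]
        refine Subgroup.mem_subgroupOf.2 ⟨?_, ((q.out : P)⁻¹ * (q'.out : P) : P).2⟩
        show tl (((q.out : P)⁻¹ * (q'.out : P) : P) : G) H = H
        rw [Subgroup.coe_mul, Subgroup.coe_inv]
        ext x
        show ((((q.out : P) : G)⁻¹ * ((q'.out : P) : G)))⁻¹ * x ∈ H ↔ x ∈ H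
        rw [mul_inv_rev, inv_inv, mul_assoc]
        have h3 : ((q.out : P) : G) * x ∈ tl ((q.out : P) : G) H ↔
            ((q.out : P) : G) * x ∈ tl ((q'.out : P) : G) H := by rw [h2]
        have h4 : ((q.out : P) : G) * x ∈ tl ((q.out : P) : G) H ↔ x ∈ H := by
          show ((q.out : P) : G)⁻¹ * (((q.out : P) : G) * x) ∈ H ↔ _
          rw [inv_mul_cancel_left]
        exact (h3.symm.trans h4)
      have h5 : Finite (P ⧸ (C.subgroupOf P)) := Finite.of_injective f hf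
      exact Subgroup.finiteIndex_of_finite_quotient
    exact TwoEnded.of_finiteIndex (C.subgroupOf P) hte'
  let e := hinf.natEmbedding
  have hk : ∀ i : Fin 3, ∃ p ∈ P, (e i : Set G) = tl p H := fun i => (e i).2
  choose k hkP hk using hk
  refine ⟨k, fun i j hij => ?_⟩
  refine hP.disj _ (hP.inv _ (hkP i) H hH) _ (hP.inv _ (hkP j) H hH) ?_
  intro h
  rw [← hk i, ← hk j] at h
  have h1 := e.injective (Subtype.ext h)
  exact hij (Fin.ext h1)

/-- the group and its subgroup top -/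
theorem vert (c16 : SC16) {G : Type} [Group G] (E : Splitting G) (hC : TwoEnded E.edgeGroup)
    (v : E.V) : (∃ z, E.T.Adj v z) ∧
    (∃ N : Set E.V, N.Finite ∧ ∀ z, E.T.Adj v z → ∃ g : G, g • v = v ∧ g • z ∈ N) ∧
    (∀ z, E.T.Adj v z → TwoEnded (stabilizer G v ⊓ stabilizer G z : Subgroup G)) ∧
    (∀ x y, E.T.Adj x y → ∀ n : ℕ, ∃ g : G, side E.T y x (g • v) ∧ n ≤ E.T.dist x (g • v)) := by
  obtain ⟨w, hw⟩ := QE.exists_adj E v
  obtain ⟨h1, ⟨N, hN, hN'⟩, h3, h4⟩ := c16 G (QE.reb E v w hw) (QE.reb_te E hC v w hw) ⊤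
    inferInstance v (Or.inl rfl)
  refine ⟨h1, ⟨N, hN, fun z hz => ?_⟩, fun z hz => QE.reb_te E hC v z hz, fun x y hxy n => ?_⟩
  · obtain ⟨g, hg, hg'⟩ := hN' z hz
    exact ⟨(g : G), hg, hg'⟩
  · obtain ⟨g, hg, hg'⟩ := h4 x y hxy n
    exact ⟨(g : G), hg, hg'⟩

/-- the final theorem -/
theorem final (m1 : SM1) (nt : SNT) (tfp : QE.TFP) (tv : QE.TV) (ta2 : QE.TA2)
    (b12 : SB12) (a9 : SA9) (c9 : SC9) (c10 : SC10) (c11 : SC11) (c12 : SC12) (c16 : SC16)
    (G H : Type) [Group G] [Group H] (S : Set G) (S' : Set H)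
    (hS : S.Finite) (hS' : S'.Finite)
    (hSg : Subgroup.closure S = ⊤) (hS'g : Subgroup.closure S' = ⊤)
    (hone : OneEnded S) (E : Splitting G) (hC : TwoEnded E.edgeGroup) (k : Type) [Field k]
    (hv : ∀ v : E.V, Group.IsFinitelyPresented (stabilizer G v) ∨ NType k (stabilizer G v))
    (htf : ∃ v : E.V, ¬ Group.IsFinitelyPresented (stabilizer G v) ∧
      ∃ L : Subgroup (stabilizer G v), L.FiniteIndex ∧ TF L)
    (hqi : ∃ (K : ℕ) (φ : G → H), IsQI S S' K φ) : SplitsOverTwoEnded H := by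
  -- the vertex groups are finitely generated
  have hvert : ∀ v : E.V, ∃ HH : Set (Set G), QD.Piece S (stabilizer G v) HH := by
    intro v
    obtain ⟨h1, h2, h3, h4⟩ := vert c16 E hC v
    exact c11 G S hS hSg E.V E.T E.tree E.map_adj v h1 h2 h3 h4
  have hfg : ∀ v : E.V, (stabilizer G v).FG := by
    intro v
    obtain ⟨HH, hpiece⟩ := hvert v
    refine b12 G S hS hSg _ HH ⟨hpiece.inv, hpiece.disj, hpiece.hs, hpiece.orb, hpiece.core,
      hpiece.ne⟩
  -- stability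
  have hst : PSt S k Set.univ := by
    refine tv G S hS hSg k E.V E.T E.tree E.map_adj ⟨E.a⟩ hfg ?_ ?_
    · intro v
      rcases hv v with h | h
      · exact tfp G S hS hSg k _ h
      · exact nt G S hS hSg k _ h
    · intro v w hvw
      exact (Group.fg_iff_subgroup_fg _).mp (QE.fg_of_fp (c10.1 _ (QE.reb_te E hC v w hvw)))
  have hpfs := ta2 G S hS hSg hone k hst
  -- the first piece
  obtain ⟨v, hvfp, L, hL, hLtf⟩ := htf
  obtain ⟨HH, hpiece⟩ := hvert v
  have hpL := first_piece a9 hS hSg hpiece L hL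
  have eL : L ≃* L.map (stabilizer G v).subtype :=
    L.equivMapOfInjective _ (Subgroup.subtype_injective _)
  have hLfp : ¬ Group.IsFinitelyPresented (L.map (stabilizer G v).subtype) := by
    intro h
    exact hvfp (c9 (stabilizer G v) L hL (fp_of_equiv eL.symm h))
  have hLt : QE.TFs (L.map (stabilizer G v).subtype) := by
    rintro _ ⟨x, hx, rfl⟩ hx1 n hn h
    refine hLtf ⟨x, hx⟩ ?_ n hn ?_
    · intro h1
      apply hx1
      have : x = 1 := congrArg Subtype.val h1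
      rw [this, map_one]
    · apply Subtype.ext
      apply Subtype.ext
      simpa using h
  have hLN : NType k (L.map (stabilizer G v).subtype) :=
    ntype_of_inj (Subgroup.inclusion (Subgroup.map_subtype_le L))
      (Subgroup.inclusion_injective _) ((hv v).resolve_left hvfp)
  obtain ⟨P', HH', hfp', hp', hun⟩ := m1 G S hS hSg hone k hpfs _ HH hLt hLN hpL hLfp
  obtain ⟨H₁, hH₁⟩ := hp'.ne
  obtain ⟨c, hc, hHS⟩ := hp'.hs H₁ hH₁
  obtain ⟨κ, hκ⟩ := three_translates a9 c10 hS hSg hp' hfp' hH₁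
  exact half_splits a9 c12 G H S S' hS hS' hSg hS'g hone H₁ c hHS (hun H₁ hH₁) κ hκ hqi

end Pool.Agent.QF
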