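import Pool.Agent.QF.Stm
import Pool.Agent.QD.St0
import Pool.Agent.QD.A1

/-!
# Project QF (MP_bbdce3): finite cocycles at a finite scale, over a Noetherian ring
-/

set_option autoImplicit false

open scoped BigOperators

namespace Pool.Agent.QF

open Pool.Agent.QIS Pool.Agent.QD

/-- rows that kill a column: an increasing sequence of sets of rows is generated by one of them -/
theorem noeth_stab {D : Type} [Ring D] [IsNoetherianRing D] {J : Type} [Fintype J] (A : ℕ → Set (J → D))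
    (hA : ∀ n m, n ≤ m → A n ⊆ A m) :
    ∃ n1, ∀ v : J → D, (∀ u ∈ A n1, ∑ j, u j * v j = 0) → ∀ m, ∀ u ∈ A m, ∑ j, u j * v j = 0 := by
  obtain ⟨n1, hn1⟩ := monotone_stabilizes_iff_noetherian.2
    (inferInstance : IsNoetherian D (J → D))
    ⟨fun n => Submodule.span D (A n), fun n m hnm => Submodule.span_mono (hA n m hnm)⟩
  refine ⟨n1, fun v hv m u hu => ?_⟩
  let L : (J → D) →ₗ[D] D :=
    { toFun := fun u => ∑ j, u j * v j
      map_add' := by
        intro a b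
        rw [← Finset.sum_add_distrib]
        refine Finset.sum_congr rfl fun j _ => ?_
        rw [Pi.add_apply, add_mul]
      map_smul' := by
        intro c a
        rw [RingHom.id_apply, smul_eq_mul, Finset.mul_sum]
        refine Finset.sum_congr rfl fun j _ => ?_
        rw [Pi.smul_apply, smul_eq_mul, mul_assoc] }
  have h1 : Submodule.span D (A n1) ≤ LinearMap.ker L :=
    Submodule.span_le.2 fun u hu => LinearMap.mem_ker.2 (hv u hu)
  have h2 : u ∈ Submodule.span D (A n1) := by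
    rcases le_total m n1 with h | h
    · exact Submodule.subset_span (hA m n1 h hu)
    · have h3 : Submodule.span D (A n1) = Submodule.span D (A m) := hn1 m h
      rw [h3]
      exact Submodule.subset_span hu
  exact LinearMap.mem_ker.1 (h1 h2)

section

variable {G : Type} [Group G] {k : Type} [Field k]

/-- finite cocycles at a large finite scale are exact at scale `r` -/
theorem st_core (P : Subgroup G) {D : Type} [Ring D] [IsNoetherianRing D] (ι : MonoidAlgebra k P →+* D)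
    (hι : Function.Injective ι) (d : G → G → ℕ) (hd0 : ∀ x, d x x = 0)
    (hdl : ∀ g x y, d (g * x) (g * y) = d x y) (hds : ∀ x y, d x y = d y x)
    (hfin : ∀ r, {s | d 1 s ≤ r}.Finite) (Y : Set G) (hPY : ∀ p ∈ P, ∀ y ∈ Y, p * y ∈ Y)
    (hcof : ∃ F : Set G, F.Finite ∧ ∀ y ∈ Y, ∃ p ∈ P, ∃ x ∈ F, y = p * x) (r : ℕ)
    (hc : ∀ x ∈ Y, ∀ y ∈ Y, Relation.ReflTransGen (fun x y => x ∈ Y ∧ y ∈ Y ∧ d x y ≤ r) x y) :
    ∃ n, r ≤ n ∧ ∀ φ : G → G → k,
      {p : G × G | (p.1 ∈ Y ∧ p.2 ∈ Y ∧ d p.1 p.2 ≤ n) ∧ φ p.1 p.2 ≠ 0}.Finite →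
      (∀ x ∈ Y, ∀ y ∈ Y, ∀ z ∈ Y, d x y ≤ n → d y z ≤ n → d x z ≤ n → φ x y + φ y z = φ x z) →
      ∃ f : G → k, ∀ x ∈ Y, ∀ y ∈ Y, d x y ≤ r → φ x y = f y - f x := by
  classical
  obtain ⟨π, ρ, h1, h2, h3⟩ := exists_rep P
  obtain ⟨F, hF, hFY⟩ := hcof
  set J : Finset (G × G) := ((hF.image ρ).prod (hfin r)).toFinset with hJdef
  set R : G → G → Prop := fun x y => x ∈ Y ∧ y ∈ Y ∧ d x y ≤ r with hR
  set w : G → G → (J → MonoidAlgebra k P) := fun x y j =>
    if (j : G × G) = (ρ x, x⁻¹ * y) then MonoidAlgebra.single (π x) 1 else 0 with hw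
  have hJ : ∀ x y, R x y → (ρ x, x⁻¹ * y) ∈ J := by
    rintro x y ⟨hx, hy, hxy⟩
    rw [hJdef, Set.Finite.mem_toFinset]
    obtain ⟨p, hp, x1, hx1, rfl⟩ := hFY x hx
    refine Set.mk_mem_prod ⟨x1, hx1, (h2 ⟨p, hp⟩ x1).symm⟩ ?_
    show d 1 ((p * x1)⁻¹ * y) ≤ r
    rw [← hdl (p * x1), mul_one, mul_inv_cancel_left]
    exact hxy
  set Rn : G → ℕ → G → G → Prop := fun x0 n x y => R x y ∧ d x0 x ≤ n ∧ d x0 y ≤ n with hRn
  obtain ⟨n1, hn1⟩ := noeth_stab (D := D) (J := J)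
    (fun n => {u | ∃ x0 ∈ Y, ∃ u', PS (Rn x0 n) w x0 x0 u' ∧ u = fun j => ι (u' j)}) (by
      rintro n m hnm u ⟨x0, hx0, u', hu', rfl⟩
      refine ⟨x0, hx0, u', ?_, rfl⟩
      have h := PS.map (R' := Rn x0 m) (w' := w) (fun x => x) (AddMonoidHom.id _) (fun x y hxy =>
        ⟨⟨hxy.1, hxy.2.1.trans hnm, hxy.2.2.trans hnm⟩, rfl⟩) hu'
      exact h)
  refine ⟨max n1 r, le_max_right _ _, fun φ hφf hφ => ?_⟩
  set φ' : G → G → k := fun x y => if R x y then φ x y else 0 with hφ'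
  have hφ'f : {p : G × G | φ' p.1 p.2 ≠ 0}.Finite := by
    refine hφf.subset fun p hp => ?_
    have h4 : φ' p.1 p.2 ≠ 0 := hp
    by_cases h5 : R p.1 p.2
    · rw [hφ'] at h4
      simp only [if_pos h5] at h4
      exact ⟨⟨h5.1, h5.2.1, h5.2.2.trans (le_max_right _ _)⟩, h4⟩
    · rw [hφ'] at h4
      simp only [if_neg h5] at h4
      exact absurd rfl h4
  have hv : ∀ j : J, {q : P | φ' ((q : G)⁻¹ * (j : G × G).1)
      ((q : G)⁻¹ * ((j : G × G).1 * (j : G × G).2)) ≠ 0}.Finite := by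
    intro j
    refine Set.Finite.preimage (f := fun q : P => ((q : G)⁻¹ * (j : G × G).1,
      (q : G)⁻¹ * ((j : G × G).1 * (j : G × G).2))) (fun q _ q' _ h => ?_) hφ'f
    have h4 := congrArg Prod.fst h
    exact Subtype.ext (inv_injective (mul_right_cancel h4))
  set v : J → MonoidAlgebra k P := fun j =>
    MonoidAlgebra.ofCoeff (Finsupp.ofSupportFinite (fun q : P => φ' ((q : G)⁻¹ * (j : G × G).1)
      ((q : G)⁻¹ * ((j : G × G).1 * (j : G × G).2))) (hv j)) with hvdef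
  let T : P → (J → MonoidAlgebra k P) →+ k := fun p =>
    { toFun := fun u => (∑ j, u j * v j).coeff p⁻¹
      map_zero' := by
        have h4 : ∑ j, (0 : J → MonoidAlgebra k P) j * v j = 0 :=
          Finset.sum_eq_zero fun j _ => by rw [Pi.zero_apply, zero_mul]
        rw [h4]
        rfl
      map_add' := by
        intro a b
        have h4 : ∑ j, (a + b) j * v j = ∑ j, a j * v j + ∑ j, b j * v j := by
          rw [← Finset.sum_add_distrib]
          exact Finset.sum_congr rfl fun j _ => by rw [Pi.add_apply, add_mul]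
        rw [h4, MonoidAlgebra.coeff_add, Finsupp.add_apply] }
  have hT : ∀ (p : P) x y, R x y → T p (w x y) = φ' (p * x) (p * y) := by
    intro p x y hxy
    have h4 : ∑ j, w x y j * v j = MonoidAlgebra.single (π x) 1 * v ⟨_, hJ x y hxy⟩ := by
      rw [Finset.sum_eq_single (⟨(ρ x, x⁻¹ * y), hJ x y hxy⟩ : J)]
      · rw [hw]
        simp only [if_true]
      · intro j _ hj
        rw [hw]
        simp only
        rw [if_neg (fun h => hj (Subtype.ext h)), zero_mul]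
      · intro h
        exact absurd (Finset.mem_univ _) h
    show (∑ j, w x y j * v j).coeff p⁻¹ = _
    rw [h4, MonoidAlgebra.coeff_single_mul_apply, one_mul]
    show φ' ((((π x)⁻¹ * p⁻¹ : P) : G)⁻¹ * ρ x) ((((π x)⁻¹ * p⁻¹ : P) : G)⁻¹ *
      (ρ x * (x⁻¹ * y))) = φ' (p * x) (p * y)
    have h5 : (((π x)⁻¹ * p⁻¹ : P) : G)⁻¹ * ρ x = p * x := by
      rw [← mul_inv_rev, InvMemClass.coe_inv, inv_inv, Subgroup.coe_mul, mul_assoc, h1]
    have h6 : (((π x)⁻¹ * p⁻¹ : P) : G)⁻¹ * (ρ x * (x⁻¹ * y)) = p * y := by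
      rw [← mul_assoc, h5, mul_assoc, mul_inv_cancel_left]
    rw [h5, h6]
  have hRp : ∀ (p : P) x y, R x y → R (p * x) (p * y) := fun p x y h =>
    ⟨hPY _ p.2 _ h.1, hPY _ p.2 _ h.2.1, by rw [hdl]; exact h.2.2⟩
  have hTall : ∀ u, (∀ p, T p u = 0) → ∑ j, u j * v j = 0 := by
    intro u hu
    apply MonoidAlgebra.coeff_injective
    ext q
    have h4 := hu q⁻¹
    have h5 : (∑ j, u j * v j).coeff (q⁻¹)⁻¹ = 0 := h4
    rw [inv_inv] at h5
    exact h5
  have hTall' : ∀ u, ∑ j, u j * v j = 0 → ∀ p, T p u = 0 := by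
    intro u hu p
    show (∑ j, u j * v j).coeff p⁻¹ = 0
    rw [hu]
    rfl
  have hιsum : ∀ u : J → MonoidAlgebra k P,
      ∑ j, ι (u j) * ι (v j) = ι (∑ j, u j * v j) := by
    intro u
    rw [map_sum]
    exact Finset.sum_congr rfl fun j _ => (map_mul ι _ _).symm
  have hφ'coc : ∀ x y, R x y → φ' x y = φ x y := fun x y h => if_pos h
  have hkill : ∀ u ∈ {u | ∃ x0 ∈ Y, ∃ u', PS (Rn x0 n1) w x0 x0 u' ∧ u = fun j => ι (u' j)},
      ∑ j, u j * ι (v j) = 0 := by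
    rintro u ⟨x0, hx0, u', hu', rfl⟩
    show ∑ j, ι (u' j) * ι (v j) = 0
    rw [hιsum, hTall u', map_zero]
    intro p
    have h4 := PS.map (R' := fun x y => (x ∈ Y ∧ y ∈ Y ∧ d x y ≤ r) ∧ d (p * x0) x ≤ max n1 r ∧
      d (p * x0) y ≤ max n1 r) (w' := φ) (fun x => (p : G) * x) (T p) (fun x y hxy => by
        refine ⟨⟨hRp p x y hxy.1, ?_, ?_⟩, ?_⟩
        · rw [hdl]
          exact hxy.2.1.trans (le_max_left _ _)
        · rw [hdl]
          exact hxy.2.2.trans (le_max_left _ _)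
        · rw [hT p x y hxy.1]
          exact hφ'coc _ _ (hRp p x y hxy.1)) hu'
    have h5 := (PS.coc hd0 (le_max_right n1 r) hφ (hPY _ p.2 _ hx0) h4).1
    have h6 := hφ _ (hPY _ p.2 _ hx0) _ (hPY _ p.2 _ hx0) _ (hPY _ p.2 _ hx0)
      (by rw [hd0]; exact Nat.zero_le _) (by rw [hd0]; exact Nat.zero_le _)
      (by rw [hd0]; exact Nat.zero_le _)
    rw [h5]
    exact (left_eq_add.1 h6.symm)
  have hall := hn1 (fun j => ι (v j)) hkill
  have hper : ∀ x ∈ Y, ∀ a, PS R φ' x x a → a = 0 := by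
    intro x hx a ha
    obtain ⟨u, hu, hua⟩ := PS.lift (w := w) (T 1) (fun x y hxy => by
      rw [hT 1 x y hxy, Subgroup.coe_one, one_mul, one_mul]) ha
    obtain ⟨n, hn⟩ := PS.exh (Rn := Rn x) (fun n m hnm y z h =>
      ⟨h.1, h.2.1.trans hnm, h.2.2.trans hnm⟩) (fun y z h =>
      ⟨max (d x y) (d x z), h, le_max_left _ _, le_max_right _ _⟩) hu
    have h4 : ∑ j, ι (u j) * ι (v j) = 0 := hall n (fun j => ι (u j)) ⟨x, hx, u, hn, rfl⟩
    rw [hιsum] at h4
    have h5 : ∑ j, u j * v j = 0 := hι (by rw [h4, map_zero])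
    rw [← hua]
    exact hTall' u h5 1
  obtain ⟨f, hf⟩ := PS.exact (R := R) (w := φ') (fun x y h => ⟨h.2.1, h.1, by
    rw [hds]; exact h.2.2⟩) (fun x y h => by
      have h' : R y x := ⟨h.2.1, h.1, by rw [hds]; exact h.2.2⟩
      rw [hφ'coc _ _ h, hφ'coc _ _ h']
      have hr := le_max_right n1 r
      have e1 := hφ x h.1 y h.2.1 x h.1 (h.2.2.trans hr) (h'.2.2.trans hr)
        (by rw [hd0]; exact Nat.zero_le _)
      have e2 := hφ x h.1 x h.1 x h.1 (by rw [hd0]; exact Nat.zero_le _)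
        (by rw [hd0]; exact Nat.zero_le _) (by rw [hd0]; exact Nat.zero_le _)
      have e3 : φ x x = 0 := left_eq_add.1 e2.symm
      rw [e3] at e1
      exact eq_neg_of_add_eq_zero_right e1) hc (fun x y h => ⟨h.1, h.2.1⟩) hper
  exact ⟨f, fun x hx y hy hxy => by
    rw [← hf x y ⟨hx, hy, hxy⟩]
    exact (hφ'coc x y ⟨hx, hy, hxy⟩).symm⟩

end


/-- stability -/
theorem snt : SNT := by
  intro G _ S hS hSg k _ P hD Y hinv hcof hconn r
  obtain ⟨D, hD, ι, hN, hι⟩ := hD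
  obtain ⟨r0, hr0⟩ := hconn
  obtain ⟨F, hF, hFY⟩ := hcof
  obtain ⟨n, hn, hmain⟩ := st_core (k := k) P ι hι (wdist S) wdist_self wdist_mul_left
    (wdist_comm hSg) (fun m => (ball_finite hS hSg (1 : G) m)) Y hinv
    ⟨F, hF, fun y hy => by
      obtain ⟨p, hp, hpy⟩ := hFY y hy
      exact ⟨p⁻¹, P.inv_mem hp, p * y, hpy, by rw [inv_mul_cancel_left]⟩⟩ (max r r0)
    (fun x hx y hy => qa1_cconn_mono (le_max_right r r0) hr0 x hx y hy)
  refine ⟨n, (le_max_left _ _).trans hn, fun φ hφ hfin => ?_⟩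
  obtain ⟨f, hf⟩ := hmain φ (hfin.subset fun p hp => ⟨hp.1.1, hp.1.2.1, hp.1.2.2, hp.2⟩) hφ
  exact ⟨f, fun x hx y hy hxy => hf x hx y hy (hxy.trans (le_max_left _ _))⟩

end Pool.Agent.QF
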