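import Pool.Agent.QF.Fin
import Pool.Agent.QE.A
import Pool.Agent.QE.TFP
import Pool.Agent.QE.TV
import Pool.Agent.QF.NT
import Pool.Agent.QF.C7
import Pool.Agent.QD.A3
import Pool.Agent.QD.A4
import Pool.Agent.QF.A5
import Pool.Agent.QD.A6
import Pool.Agent.QD.A7
import Pool.Agent.QD.A9
import Pool.Agent.QD.B0a
import Pool.Agent.QF.B0b
import Pool.Agent.QF.B0c
import Pool.Agent.QF.B1
import Pool.Agent.QF.B3
import Pool.Agent.QF.B4
import Pool.Agent.QD.B5
import Pool.Agent.QF.B6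
import Pool.Agent.QF.B8
import Pool.Agent.QF.B9
import Pool.Agent.QF.B11
import Pool.Agent.QF.B12
import Pool.Agent.QD.C1
import Pool.Agent.QF.C2
import Pool.Agent.QD.C3
import Pool.Agent.QF.C4
import Pool.Agent.QF.C5
import Pool.Agent.QF.C6
import Pool.Agent.QD.C8
import Pool.Agent.QD.C9
import Pool.Agent.QD.C10
import Pool.Agent.QD.C11
import Pool.Agent.QD.C12
import Pool.Agent.QD.C16
import Pool.Agent.QF.C17

/-!
# The main theorem of the project QF (MP_bbdce3_al)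
-/

set_option autoImplicit false

namespace Pool.Agent.QF

open Pool.Agent.QIS Pool.Agent.QD MulAction

/-- the main step, without hypotheses -/
theorem sm1_all : SM1 :=
  have b0c : SB0c := sb0c sa9
  have b1 : SB1 := sb1 sa9
  have b0b : SB0b := sb0b b1
  have a4 : SA4 := sa4 sa3 sa6
  have b8 : SB8 := sb8 a4 sa9 sb0a b0b b0c b1
  have b6 : SB6 := sb6 sa9 sb5
  have c5 : SC5 := sc5 sc1 b1
  have c2 : SC2 := sc2 sc1
  have c6 : SC6 := sc6 sc1
  have c10 : SC10 := sc10 sc9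
  sm1 snt (sb3 a4 sa5 sa6 sa7 sa9 b1) (sb4 sa9 sb0a b0b b1 b8) (sb9 sb0a b0b b1 b6 b8)
    (sb11 sb0a b0b b1 b6) (sb12 b1) sc3 (sc4 sc1) sc7 sc8 (sc17 sc1 c2 c5 c6 c10 sa9)

/-- splittings over two-ended subgroups and quasi-isometries: conditions on the vertex groups -/
theorem main_all (G H : Type) [Group G] [Group H] (S : Set G) (S' : Set H)
    (hS : S.Finite) (hS' : S'.Finite)
    (hSg : Subgroup.closure S = ⊤) (hS'g : Subgroup.closure S' = ⊤)
    (hone : OneEnded S) (E : Splitting G) (hC : TwoEnded E.edgeGroup) (k : Type) [Field k]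
    (hv : ∀ v : E.V, Group.IsFinitelyPresented (stabilizer G v) ∨
      ∃ (R : Type) (_ : Ring R) (ι : MonoidAlgebra k (stabilizer G v) →+* R),
        IsNoetherianRing R ∧ Function.Injective ι)
    (htf : ∃ v : E.V, ¬ Group.IsFinitelyPresented (stabilizer G v) ∧
      ∃ L : Subgroup (stabilizer G v), L.FiniteIndex ∧
        ∀ g : L, g ≠ 1 → ∀ n : ℕ, 0 < n → g ^ n ≠ 1)
    (hqi : ∃ (K : ℕ) (φ : G → H), IsQI S S' K φ) : SplitsOverTwoEnded H :=
  final sm1_all snt QE.tfp QE.tv QE.ta2 (sb12 (sb1 sa9)) sa9 sc9 (sc10 sc9) sc11 sc12 sc16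
    G H S S' hS hS' hSg hS'g hone E hC k hv htf hqi

end Pool.Agent.QF
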